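import Pool.Agent.Lib.MP_210493_lc.DG.Defs

/-! Transitivity of minors, rooted minors, glueing. -/

namespace Pool.Agent.Lib.MP_210493_lc

open Set

variable {V V' V'' E E' E'' U E₂ : Type}

/-! ### Joined -/

theorem Joined.mono {G : Gra V E} {F F' : Set E} {S S' : Set V} (hF : F' ⊆ F) (hS : S ⊆ S')
    {x y : V} (h : Joined G F S x y) : Joined G F' S' x y := by
  induction h with
  | refl => exact Relation.ReflTransGen.refl
  | tail _ hbc ih =>
    obtain ⟨h1, h2, e, he, h3⟩ := hbc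
    exact ih.tail ⟨hS h1, hS h2, e, fun h => he (hF h), h3⟩

theorem Joined.trans {G : Gra V E} {F : Set E} {S : Set V} {x y z : V}
    (h : Joined G F S x y) (h' : Joined G F S y z) : Joined G F S x z :=
  Relation.ReflTransGen.trans h h'

theorem Joined.single {G : Gra V E} {F : Set E} {S : Set V} {x y : V} {e : E}
    (he : e ∉ F) (h : G e = s(x, y)) (hx : x ∈ S) (hy : y ∈ S) : Joined G F S x y :=
  Relation.ReflTransGen.single ⟨hx, hy, e, he, h⟩

theorem Joined.symm {G : Gra V E} {F : Set E} {S : Set V} {x y : V}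
    (h : Joined G F S x y) : Joined G F S y x := by
  induction h with
  | refl => exact Relation.ReflTransGen.refl
  | tail _ hbc ih =>
    obtain ⟨h1, h2, e, he, h3⟩ := hbc
    exact (Joined.single he (h3.trans Sym2.eq_swap) h2 h1).trans ih

/-- ends of a kept edge -/
theorem IsModel.exists_ends {G' : Gra V' E'} {G : Gra V E} {β : V → Option V'} {ι : E' → E}
    (h : IsModel G' G β ι) {e : E'} {a b : V'} (he : G' e = s(a, b)) :
    ∃ x y, G (ι e) = s(x, y) ∧ β x = some a ∧ β y = some b := by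
  have h1 := h.ends e
  rw [he] at h1
  obtain ⟨⟨x, y⟩, hxy⟩ := Quot.exists_rep (G (ι e))
  change s(x, y) = G (ι e) at hxy
  rw [← hxy, Sym2.map_mk, Sym2.map_mk, Sym2.eq_iff] at h1
  rcases h1 with ⟨h1, h2⟩ | ⟨h1, h2⟩
  · exact ⟨x, y, hxy.symm, h1, h2⟩
  · exact ⟨y, x, hxy.symm.trans Sym2.eq_swap, h2, h1⟩

theorem IsModel.trans {G'' : Gra V'' E''} {G' : Gra V' E'} {G : Gra V E}
    {β₂ : V' → Option V''} {ι₂ : E'' → E'} {β₁ : V → Option V'} {ι₁ : E' → E}
    (h₂ : IsModel G'' G' β₂ ι₂) (h₁ : IsModel G' G β₁ ι₁) :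
    IsModel G'' G (fun v => (β₁ v).bind β₂) (ι₁ ∘ ι₂) where
  inj := h₁.inj.comp h₂.inj
  ends e := by
    have h := h₁.ends (ι₂ e)
    have : (fun v => (β₁ v).bind β₂) = (fun o : Option V' => o.bind β₂) ∘ β₁ := rfl
    rw [this, ← Sym2.map_map, Function.comp_apply, h, Sym2.map_map, ← h₂.ends e]
    rfl
  ne v := by
    obtain ⟨p, hp⟩ := h₂.ne v
    obtain ⟨x, hx⟩ := h₁.ne p
    exact ⟨x, by simp [hx, hp]⟩
  conn x y v hx hy := by
    obtain ⟨p, hp1, hp2⟩ := Option.bind_eq_some_iff.1 hx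
    obtain ⟨q, hq1, hq2⟩ := Option.bind_eq_some_iff.1 hy
    have hj := h₂.conn p q v hp2 hq2
    have hsub : range (ι₁ ∘ ι₂) ⊆ range ι₁ := range_comp_subset_range _ _
    have hfib : ∀ r, β₂ r = some v → {z | β₁ z = some r} ⊆ {z | (β₁ z).bind β₂ = some v} := by
      intro r hr z hz
      simp only [mem_setOf_eq] at hz ⊢
      rw [hz]
      exact hr
    have key : ∀ r, Joined G' (range ι₂) {z | β₂ z = some v} p r →
        ∀ z, β₁ z = some r → β₂ r = some v →
        Joined G (range (ι₁ ∘ ι₂)) {z | (β₁ z).bind β₂ = some v} x z := by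
      intro r hr
      induction hr with
      | refl =>
        intro z hz hv
        exact (h₁.conn x z p hp1 hz).mono hsub (hfib p hp2)
      | tail _ hbc ih =>
        intro z hz hv
        obtain ⟨hb, _, e, he, hee⟩ := hbc
        obtain ⟨a, b, hab, ha, hb'⟩ := h₁.exists_ends hee
        refine (ih a ha hb).trans ?_
        refine (Joined.single (e := ι₁ e) ?_ hab ?_ ?_).trans
          ((h₁.conn b z _ hb' hz).mono hsub (hfib _ hv))
        · rintro ⟨e', he'⟩
          exact he ⟨e', h₁.inj he'⟩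
        · exact hfib _ hb ha
        · exact hfib _ hv hb'
    exact key q hj y hq1 hq2

theorem GMinor.trans {G'' : Gra V'' E''} {G' : Gra V' E'} {G : Gra V E}
    (h₂ : GMinor G'' G') (h₁ : GMinor G' G) : GMinor G'' G := by
  obtain ⟨β₂, ι₂, h₂⟩ := h₂
  obtain ⟨β₁, ι₁, h₁⟩ := h₁
  exact ⟨_, _, h₂.trans h₁⟩

theorem IsDModel.trans {G'' : Dig V'' E''} {G' : Dig V' E'} {G : Dig V E}
    {β₂ : V' → Option V''} {ι₂ : E'' → E'} {β₁ : V → Option V'} {ι₁ : E' → E}
    (h₂ : IsDModel G'' G' β₂ ι₂) (h₁ : IsDModel G' G β₁ ι₁) :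
    IsDModel G'' G (fun v => (β₁ v).bind β₂) (ι₁ ∘ ι₂) := by
  refine ⟨h₂.1.trans h₁.1, fun e => ?_⟩
  obtain ⟨h3, h4⟩ := h₁.2 (ι₂ e)
  obtain ⟨h5, h6⟩ := h₂.2 e
  simp only [Function.comp_apply]
  rw [h3, h4]
  exact ⟨h5, h6⟩

theorem DMinor.trans {G'' : Dig V'' E''} {G' : Dig V' E'} {G : Dig V E}
    (h₂ : DMinor G'' G') (h₁ : DMinor G' G) : DMinor G'' G := by
  obtain ⟨β₂, ι₂, h₂⟩ := h₂
  obtain ⟨β₁, ι₁, h₁⟩ := h₁
  exact ⟨_, _, h₂.trans h₁⟩

/-- a digraph model gives a graph model -/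
theorem DMinor.und {H : Dig V' E'} {D : Dig V E} (h : DMinor H D) : GMinor (und H) (und D) := by
  obtain ⟨β, ι, h⟩ := h
  exact ⟨β, ι, h.1⟩

/-! ### rooted minors -/

/-- minors respecting the roots `ρ`, `ρ'` -/
def RDMinor {m : ℕ} (H : Dig V' E') (ρ' : Fin m → V') (D : Dig V E) (ρ : Fin m → V) : Prop :=
  ∃ (β : V → Option V') (ι : E' → E), IsDModel H D β ι ∧ ∀ a, β (ρ a) = some (ρ' a)

/-- minors respecting the roots `ρ`, `ρ'` (graphs) -/
def RGMinor {m : ℕ} (G' : Gra V' E') (ρ' : Fin m → V') (G : Gra V E) (ρ : Fin m → V) : Prop :=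
  ∃ (β : V → Option V') (ι : E' → E), IsModel G' G β ι ∧ ∀ a, β (ρ a) = some (ρ' a)

theorem RDMinor.trans {m : ℕ} {G'' : Dig V'' E''} {ρ'' : Fin m → V''} {G' : Dig V' E'}
    {ρ' : Fin m → V'} {G : Dig V E} {ρ : Fin m → V} (h₂ : RDMinor G'' ρ'' G' ρ')
    (h₁ : RDMinor G' ρ' G ρ) : RDMinor G'' ρ'' G ρ := by
  obtain ⟨β₂, ι₂, h₂, h₂'⟩ := h₂
  obtain ⟨β₁, ι₁, h₁, h₁'⟩ := h₁
  exact ⟨_, _, h₂.trans h₁, fun a => by rw [h₁' a]; exact h₂' a⟩

theorem RGMinor.trans {m : ℕ} {G'' : Gra V'' E''} {ρ'' : Fin m → V''} {G' : Gra V' E'}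
    {ρ' : Fin m → V'} {G : Gra V E} {ρ : Fin m → V} (h₂ : RGMinor G'' ρ'' G' ρ')
    (h₁ : RGMinor G' ρ' G ρ) : RGMinor G'' ρ'' G ρ := by
  obtain ⟨β₂, ι₂, h₂, h₂'⟩ := h₂
  obtain ⟨β₁, ι₁, h₁, h₁'⟩ := h₁
  exact ⟨_, _, h₂.trans h₁, fun a => by rw [h₁' a]; exact h₂' a⟩

theorem isModel_of_equiv (G : Gra V E) (G' : Gra V' E') (f : V ≃ V') (g : E' ≃ E)
    (h : ∀ e, Sym2.map f (G (g e)) = G' e) : IsModel G' G (fun v => some (f v)) g where
  inj := g.injective
  ends e := by
    rw [← h e, Sym2.map_map]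
    rfl
  ne v := ⟨f.symm v, by simp⟩
  conn x y v hx hy := by
    have : x = y := f.injective (Option.some.inj (hx.trans hy.symm))
    subst this
    exact Relation.ReflTransGen.refl

theorem GMinor.refl (G : Gra V E) : GMinor G G :=
  ⟨_, _, isModel_of_equiv G G (Equiv.refl _) (Equiv.refl _) (fun e => by simp)⟩

theorem isDModel_of_equiv (D : Dig V E) (D' : Dig V' E') (f : V ≃ V') (g : E' ≃ E)
    (h : ∀ e, D' e = (f (D (g e)).1, f (D (g e)).2)) :
    IsDModel D' D (fun v => some (f v)) g := by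
  refine ⟨isModel_of_equiv _ _ f g (fun e => ?_), fun e => ?_⟩
  · simp only [Pool.Agent.Lib.MP_210493_lc.und, h e, Sym2.map_mk]
  · rw [h e]
    exact ⟨rfl, rfl⟩

theorem RDMinor.refl {m : ℕ} (D : Dig V E) (ρ : Fin m → V) : RDMinor D ρ D ρ :=
  ⟨_, _, isDModel_of_equiv D D (Equiv.refl _) (Equiv.refl _) (fun e => rfl), fun _ => rfl⟩

theorem DMinor.refl (D : Dig V E) : DMinor D D :=
  ⟨_, _, isDModel_of_equiv D D (Equiv.refl _) (Equiv.refl _) (fun e => rfl)⟩

/-- membership in the class only depends on the isomorphism type -/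
theorem InClass.of_equiv {A : Set Code} {G : Gra V E} {G' : Gra V' E'} (f : V ≃ V') (g : E' ≃ E)
    (h : ∀ e, Sym2.map f (G (g e)) = G' e) (hG : InClass A G) : InClass A G' := by
  obtain ⟨D, hD, hA⟩ := hG
  refine ⟨fun e => (f (D (g e)).1, f (D (g e)).2), ?_, ?_⟩
  · funext e
    rw [← h e, ← hD]
    rfl
  · intro H hH hm
    exact hA H hH (hm.trans ⟨_, _, isDModel_of_equiv D _ f g (fun e => rfl)⟩)

/-! ### glueing -/

/-- glue the rooted graph `(G, ρ)` and the context `C` (whose first `m` vertices are the roots) -/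
def glueG {m : ℕ} (G : Gra V E) (ρ : Fin m → V) (C : Gra (Fin m ⊕ U) E₂) :
    Gra (V ⊕ U) (E ⊕ E₂) :=
  Sum.elim (fun e => Sym2.map Sum.inl (G e)) (fun e => Sym2.map (Sum.map ρ id) (C e))

/-- glue the rooted digraph `(D, ρ)` and the context `C` (whose first `m` vertices are the
roots) -/
def glueD {m : ℕ} (D : Dig V E) (ρ : Fin m → V) (C : Dig (Fin m ⊕ U) E₂) :
    Dig (V ⊕ U) (E ⊕ E₂) :=
  Sum.elim (fun e => (Sum.inl (D e).1, Sum.inl (D e).2))
    (fun e => (Sum.map ρ id (C e).1, Sum.map ρ id (C e).2))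

theorem und_glueD {m : ℕ} (D : Dig V E) (ρ : Fin m → V) (C : Dig (Fin m ⊕ U) E₂) :
    und (glueD D ρ C) = glueG (und D) ρ (und C) := by
  funext e
  rcases e with e | e <;> rfl

/-- `β` on the inner side, the identity outside -/
def extB (U : Type) (β : V → Option V') : V ⊕ U → Option (V' ⊕ U) :=
  Sum.elim (fun v => (β v).map Sum.inl) (fun u => some (Sum.inr u))

theorem glue_model {m : ℕ} {G' : Gra V' E'} {ρ' : Fin m → V'} {G : Gra V E} {ρ : Fin m → V}
    {β : V → Option V'} {ι : E' → E} (h : IsModel G' G β ι) (hρ : ∀ a, β (ρ a) = some (ρ' a))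
    (C : Gra (Fin m ⊕ U) E₂) :
    IsModel (glueG G' ρ' C) (glueG G ρ C) (extB U β) (Sum.map ι id) where
  inj := Sum.map_injective.2 ⟨h.inj, Function.injective_id⟩
  ends e := by
    rcases e with e | e
    · change Sym2.map (extB U β) (Sym2.map Sum.inl (G (ι e))) = Sym2.map some (Sym2.map Sum.inl (G' e))
      rw [Sym2.map_map, Sym2.map_map]
      have h1 : (extB U β) ∘ Sum.inl = (Option.map Sum.inl) ∘ β := rfl
      have h2 : (some : V' ⊕ U → _) ∘ Sum.inl = (Option.map Sum.inl) ∘ (some : V' → _) := rfl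
      rw [h1, h2, ← Sym2.map_map, ← Sym2.map_map, h.ends]
    · change Sym2.map (extB U β) (Sym2.map (Sum.map ρ id) (C e)) =
        Sym2.map some (Sym2.map (Sum.map ρ' id) (C e))
      rw [Sym2.map_map, Sym2.map_map]
      have : (extB U β) ∘ (Sum.map ρ id) = (some : V' ⊕ U → _) ∘ (Sum.map ρ' id) := by
        funext x
        rcases x with x | x
        · simp [extB, hρ]
        · simp [extB]
      rw [this]
  ne v := by
    rcases v with v | v
    · obtain ⟨x, hx⟩ := h.ne v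
      exact ⟨Sum.inl x, by simp [extB, hx]⟩
    · exact ⟨Sum.inr v, rfl⟩
  conn x y v hx hy := by
    rcases v with v | v
    · rcases x with x | x
      · rcases y with y | y
        · have hx' : β x = some v := by
            simpa [extB] using hx
          have hy' : β y = some v := by
            simpa [extB] using hy
          have hj := h.conn x y v hx' hy'
          clear hy hy'
          induction hj with
          | refl => exact Relation.ReflTransGen.refl
          | tail _ hbc ih =>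
            obtain ⟨h1, h2, e, he, hee⟩ := hbc
            refine ih.trans (Joined.single (e := Sum.inl e) ?_ ?_ ?_ ?_)
            · rintro ⟨e', he'⟩
              rcases e' with e' | e'
              · exact he ⟨e', Sum.inl.inj he'⟩
              · cases he'
            · change Sym2.map Sum.inl (G e) = _
              rw [hee]
              rfl
            · simp only [mem_setOf_eq] at h1 ⊢
              simp [extB, h1]
            · simp only [mem_setOf_eq] at h2 ⊢
              simp [extB, h2]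
        · simp [extB] at hy
      · simp [extB] at hx
    · rcases x with x | x
      · simp [extB] at hx
      · rcases y with y | y
        · simp [extB] at hy
        · have h1 : x = v := by simpa [extB] using hx
          have h2 : y = v := by simpa [extB] using hy
          rw [h1, h2]
          exact Relation.ReflTransGen.refl

theorem glueG_mono {m : ℕ} {G' : Gra V' E'} {ρ' : Fin m → V'} {G : Gra V E} {ρ : Fin m → V}
    (h : RGMinor G' ρ' G ρ) (C : Gra (Fin m ⊕ U) E₂) :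
    GMinor (glueG G' ρ' C) (glueG G ρ C) := by
  obtain ⟨β, ι, h, hρ⟩ := h
  exact ⟨_, _, glue_model h hρ C⟩

theorem glueD_mono {m : ℕ} {D' : Dig V' E'} {ρ' : Fin m → V'} {D : Dig V E} {ρ : Fin m → V}
    (h : RDMinor D' ρ' D ρ) (C : Dig (Fin m ⊕ U) E₂) :
    DMinor (glueD D' ρ' C) (glueD D ρ C) := by
  obtain ⟨β, ι, h, hρ⟩ := h
  refine ⟨extB U β, Sum.map ι id, ?_, ?_⟩
  · rw [und_glueD, und_glueD]
    exact glue_model h.1 hρ (und C)
  · rintro (e | e)
    · obtain ⟨h1, h2⟩ := h.2 e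
      constructor
      · change (β (D (ι e)).1).map Sum.inl = _
        rw [h1]
        rfl
      · change (β (D (ι e)).2).map Sum.inl = _
        rw [h2]
        rfl
    · have : ∀ c : Fin m ⊕ U, extB U β (Sum.map ρ id c) = some (Sum.map ρ' id c) := by
        rintro (c | c)
        · simp [extB, hρ]
        · simp [extB]
      exact ⟨this _, this _⟩

/-- an orientation of a glued graph splits -/
theorem exists_split {m : ℕ} {G : Gra V E} {ρ : Fin m → V} {C : Gra (Fin m ⊕ U) E₂}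
    {D : Dig (V ⊕ U) (E ⊕ E₂)} (h : und D = glueG G ρ C) :
    ∃ (D₁ : Dig V E) (C₁ : Dig (Fin m ⊕ U) E₂), und D₁ = G ∧ und C₁ = C ∧
      D = glueD D₁ ρ C₁ := by
  have h1 : ∀ e, ∃ p : V × V, s(p.1, p.2) = G e ∧ D (Sum.inl e) = (Sum.inl p.1, Sum.inl p.2) := by
    intro e
    have he := congrFun h (Sum.inl e)
    change s((D (Sum.inl e)).1, (D (Sum.inl e)).2) = Sym2.map Sum.inl (G e) at he
    obtain ⟨⟨x, y⟩, hxy⟩ := Quot.exists_rep (G e)
    change s(x, y) = G e at hxy
    rw [← hxy, Sym2.map_mk, Sym2.eq_iff] at he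
    rcases he with ⟨h1, h2⟩ | ⟨h1, h2⟩
    · exact ⟨(x, y), hxy, Prod.ext h1 h2⟩
    · exact ⟨(y, x), Sym2.eq_swap.trans hxy, Prod.ext h1 h2⟩
  have h2 : ∀ e, ∃ p : (Fin m ⊕ U) × (Fin m ⊕ U), s(p.1, p.2) = C e ∧
      D (Sum.inr e) = (Sum.map ρ id p.1, Sum.map ρ id p.2) := by
    intro e
    have he := congrFun h (Sum.inr e)
    change s((D (Sum.inr e)).1, (D (Sum.inr e)).2) = Sym2.map (Sum.map ρ id) (C e) at he
    obtain ⟨⟨x, y⟩, hxy⟩ := Quot.exists_rep (C e)
    change s(x, y) = C e at hxy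
    rw [← hxy, Sym2.map_mk, Sym2.eq_iff] at he
    rcases he with ⟨h1, h2⟩ | ⟨h1, h2⟩
    · exact ⟨(x, y), hxy, Prod.ext h1 h2⟩
    · exact ⟨(y, x), Sym2.eq_swap.trans hxy, Prod.ext h1 h2⟩
  choose D₁ hD1 hD2 using h1
  choose C₁ hC1 hC2 using h2
  refine ⟨D₁, C₁, funext hD1, funext hC1, ?_⟩
  funext e
  rcases e with e | e
  · exact hD2 e
  · exact hC2 e

end Pool.Agent.Lib.MP_210493_lc
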