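import Pool.Agent.Lib.MP_210493_lc.DG.BiSets

/-! Module DG-BiGrid.  `BiSets` gives the minor `bigrid k`.

PROOF.  For `e : GridE k × Bool` let `(p, q)` be the tail and head of `bigrid k e`; by `BiSets`
(four cases: `e.1` horizontal or vertical, `e.2` true or false) there is an arc `ι e` of `D` with
`(D (ι e)).1 ∈ X p`, `(D (ι e)).2 ∈ X q` (`choose`).  `β v = some (i, j)` if `v ∈ X i j`
(`i, j < k`, unique by disjointness), `none` otherwise.  `ι` is injective: `D (ι e)` determines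
`(p, q)`, and `(p, q)` determines `e` (the condition defining `GridE`).  `ends` and directions
are clear.  `conn`: induction on `RIn (simp (und D)) (X i j) x y` (from `Conn`): a step
`(simp (und D)).Adj a b` with `a, b ∈ X i j` comes from an arc `e'` with ends `a`, `b`, and
`e' ∉ range ι` because the ends of `ι e` lie in different sets. -/

namespace Pool.Agent.Lib.MP_210493_lc

open Set Pool.Agent.Lib.MP_4d119b_lc

private theorem bg_inj {k : ℕ} : Function.Injective (bigrid k) := by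
  rintro ⟨⟨⟨⟨p1, p2⟩, ⟨q1, q2⟩⟩, h⟩, b⟩ ⟨⟨⟨⟨p1', p2'⟩, ⟨q1', q2'⟩⟩, h'⟩, b'⟩ he
  simp only [Fin.ext_iff] at h h'
  cases b <;> cases b' <;>
    simp only [bigrid, Prod.mk.injEq, Fin.ext_iff, if_true, if_false, Bool.false_eq_true,
      reduceIte] at he
  · obtain ⟨⟨h1, h2⟩, h3, h4⟩ := he
    have e1 := Fin.ext h1
    have e2 := Fin.ext h2
    have e3 := Fin.ext h3
    have e4 := Fin.ext h4
    subst e1 e2 e3 e4
    rfl
  · exfalso
    obtain ⟨⟨h1, h2⟩, h3, h4⟩ := he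
    omega
  · exfalso
    obtain ⟨⟨h1, h2⟩, h3, h4⟩ := he
    omega
  · obtain ⟨⟨h1, h2⟩, h3, h4⟩ := he
    have e1 := Fin.ext h1
    have e2 := Fin.ext h2
    have e3 := Fin.ext h3
    have e4 := Fin.ext h4
    subst e1 e2 e3 e4
    rfl

theorem bigrid_of_sets {V E : Type} {D : Dig V E} {k : ℕ} (h : BiSets D k) :
    DMinor (bigrid k) D := by
  classical
  obtain ⟨X, hc, hd, hh, hv⟩ := h
  let Y : Fin k × Fin k → Set V := fun p => X p.1.1 p.2.1
  have hY : ∀ p, Conn (simp (und D)) (Y p) := fun p => hc _ _ p.1.2 p.2.2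
  have hdis : ∀ p q v, v ∈ Y p → v ∈ Y q → p = q := by
    intro p q v h1 h2
    by_contra hne
    have h3 : p.1.1 ≠ q.1.1 ∨ p.2.1 ≠ q.2.1 := by
      by_contra h4
      push Not at h4
      exact hne (Prod.ext (Fin.ext h4.1) (Fin.ext h4.2))
    exact Set.disjoint_left.1 (hd _ _ _ _ p.1.2 p.2.2 q.1.2 q.2.2 h3) h1 h2
  have harc : ∀ e : GridE k × Bool, ∃ a : E,
      (D a).1 ∈ Y (bigrid k e).1 ∧ (D a).2 ∈ Y (bigrid k e).2 := by
    rintro ⟨⟨⟨⟨p1, p2⟩, ⟨q1, q2⟩⟩, he⟩, b⟩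
    rcases he with ⟨h1, h2⟩ | ⟨h1, h2⟩
    · simp only at h1 h2
      subst h2
      obtain ⟨h3, h4⟩ := hh p1.1 p2.1 (by have := q1.2; omega) p2.2
      rw [h1] at h3 h4
      cases b
      · exact h4
      · exact h3
    · simp only at h1 h2
      subst h1
      obtain ⟨h3, h4⟩ := hv p1.1 p2.1 p1.2 (by have := q2.2; omega)
      rw [h2] at h3 h4
      cases b
      · exact h4
      · exact h3
  choose ι hι1 hι2 using harc
  let β : V → Option (Fin k × Fin k) := fun v => if h : ∃ p, v ∈ Y p then some h.choose else none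
  have hβ1 : ∀ v p, v ∈ Y p → β v = some p := by
    intro v p hvp
    have hex : ∃ p, v ∈ Y p := ⟨p, hvp⟩
    have : β v = some hex.choose := dif_pos hex
    rw [this, hdis _ _ v hex.choose_spec hvp]
  have hβ2 : ∀ v p, β v = some p → v ∈ Y p := by
    intro v p hvp
    by_cases hex : ∃ p, v ∈ Y p
    · have h1 : β v = some hex.choose := dif_pos hex
      rw [h1] at hvp
      rw [← Option.some.inj hvp]
      exact hex.choose_spec
    · have h1 : β v = none := dif_neg hex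
      rw [h1] at hvp
      exact absurd hvp (by simp)
  have hne : ∀ e : GridE k × Bool, (bigrid k e).1 ≠ (bigrid k e).2 := by
    rintro ⟨⟨⟨⟨p1, p2⟩, ⟨q1, q2⟩⟩, he⟩, b⟩ hee
    simp only [Fin.ext_iff] at he
    cases b <;>
      simp only [bigrid, Prod.mk.injEq, Fin.ext_iff, if_true, if_false, Bool.false_eq_true,
        reduceIte] at hee <;> omega
  refine ⟨β, ι, ⟨?_, ?_, ?_, ?_⟩, ?_⟩
  · intro e e' hee
    apply bg_inj
    have h1 := hι1 e
    have h2 := hι2 e
    rw [hee] at h1 h2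
    exact Prod.ext (hdis _ _ _ h1 (hι1 e')) (hdis _ _ _ h2 (hι2 e'))
  · intro e
    simp only [und, Sym2.map_mk]
    rw [hβ1 _ _ (hι1 e), hβ1 _ _ (hι2 e)]
  · intro v
    obtain ⟨x, hx⟩ := (hY v).1
    exact ⟨x, hβ1 _ _ hx⟩
  · intro x y v hx hy
    have h1 := (hY v).2 x (hβ2 _ _ hx) y (hβ2 _ _ hy)
    unfold RIn at h1
    induction h1 with
    | refl => exact Relation.ReflTransGen.refl
    | @tail a b _ hab ih =>
      obtain ⟨⟨_, e', he'⟩, ha, hb⟩ := hab
      refine (ih (hβ1 _ _ ha)).tail ⟨hβ1 _ _ ha, hβ1 _ _ hb, e', ?_, he'⟩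
      rintro ⟨e, rfl⟩
      have h3 : (D (ι e)).1 ∈ Y v ∧ (D (ι e)).2 ∈ Y v := by
        have h4 : s((D (ι e)).1, (D (ι e)).2) = s(a, b) := he'
        rw [Sym2.eq_iff] at h4
        rcases h4 with ⟨h5, h6⟩ | ⟨h5, h6⟩
        · rw [h5, h6]
          exact ⟨ha, hb⟩
        · rw [h5, h6]
          exact ⟨hb, ha⟩
      exact hne e ((hdis _ _ _ (hι1 e) h3.1).trans (hdis _ _ _ (hι2 e) h3.2).symm)
  · intro e
    exact ⟨hβ1 _ _ (hι1 e), hβ1 _ _ (hι2 e)⟩

end Pool.Agent.Lib.MP_210493_lc
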