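import Pool.Agent.Lib.MP_210493_lc.DG.Strip

/-! Module DG-BiSets.  Every orientation of a `10k × 10k` grid contains a `k × k` grid of
connected sets in which neighbouring sets are joined by arcs of both directions.

PROOF.  Let `X x y` (`x, y < 10k`) be the given sets, `S = simp (und D)`.
`core i j = ⋃ x < 6, ⋃ y < 6, X (10i+x) (10j+y)` for `i, j < k`: connected.
For `i + 1 < k`, `j < k` apply `strip` to `c x y = X (10i+6+x) (10j+1+y)`: sets `Ah i j`, `Bh i j`.
For `i < k`, `j + 1 < k` apply `strip` to `c x y = X (10i+1+y) (10j+6+x)` (transposed): sets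
`Av i j`, `Bv i j`.  (Choose them for all `i j`, `∅` if out of range.)
`P i j = core i j ∪ Ah i j ∪ (Bh (i-1) j if 0 < i) ∪ Av i j ∪ (Bv i (j-1) if 0 < j)`.
CONNECTED: `core i j` touches `X (10i+6) (10j+1+y) = c 0 y` of the strip `(i, j)` (through
`X (10i+5) (10j+1+y) ⊆ core i j`) and `X (10(i-1)+9) (10j+1+y) = c 3 y` of the strip `(i-1, j)`
(through `X (10i) (10j+1+y)`), same vertically; add the pieces one after the other with the last
two conclusions of `strip` (with `L = core ∪ ` the pieces already added).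
DISJOINT: a vertex `v` in some cell determines the cell `(x, y)` (`x, y < 10k`), put `a = x / 10`,
`b = y / 10`, `x' = x % 10`, `y' = y % 10`.  If `v ∈ core i j` then `x' < 6`, `y' < 6`,
`(i, j) = (a, b)`.  If `v ∈ Ah i j` then `6 ≤ x'`, `1 ≤ y' ≤ 4`, `(i, j) = (a, b)`, if
`v ∈ Bh (i-1) j` then the same and `(i, j) = (a+1, b)`; but `Ah a b`, `Bh a b` are disjoint.
If `v ∈ Av i j` then `6 ≤ y'`, `1 ≤ x' ≤ 4`, `(i, j) = (a, b)`, etc.  So `v` is in at most one
`P i j`.
ARCS: from `strip`: between `Ah i j ⊆ P i j` and `Bh i j ⊆ P (i+1) j`, and between `Av i j ⊆ P i j`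
and `Bv i j ⊆ P i (j+1)`, in both directions. -/

namespace Pool.Agent.Lib.MP_210493_lc

open Set Pool.Agent.Lib.MP_4d119b_lc

/-- a `k × k` grid of connected sets, neighbours are joined by arcs of both directions -/
def BiSets {V E : Type} (D : Dig V E) (k : ℕ) : Prop :=
  ∃ X : ℕ → ℕ → Set V, (∀ i j, i < k → j < k → Conn (simp (und D)) (X i j)) ∧
    (∀ i j i' j', i < k → j < k → i' < k → j' < k → (i ≠ i' ∨ j ≠ j') →
      Disjoint (X i j) (X i' j')) ∧
    (∀ i j, i + 1 < k → j < k → (∃ e, (D e).1 ∈ X i j ∧ (D e).2 ∈ X (i + 1) j) ∧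
      ∃ e, (D e).1 ∈ X (i + 1) j ∧ (D e).2 ∈ X i j) ∧
    ∀ i j, i < k → j + 1 < k → (∃ e, (D e).1 ∈ X i j ∧ (D e).2 ∈ X i (j + 1)) ∧
      ∃ e, (D e).1 ∈ X i (j + 1) ∧ (D e).2 ∈ X i j

private theorem bs_chain {V : Type} {G : SimpleGraph V} {f : ℕ → Set V} :
    ∀ m, (∀ n, n < m + 1 → Conn G (f n)) → (∀ n, n + 1 < m + 1 → Touch G (f n) (f (n + 1))) →
      Conn G {v | ∃ n, n < m + 1 ∧ v ∈ f n} := by
  intro m
  induction m with
  | zero =>
    intro h _
    have h1 : {v | ∃ n, n < 0 + 1 ∧ v ∈ f n} = f 0 := by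
      ext v
      constructor
      · rintro ⟨n, hn, hv⟩
        have : n = 0 := by omega
        rw [this] at hv
        exact hv
      · intro hv
        exact ⟨0, by omega, hv⟩
    rw [h1]
    exact h 0 (by omega)
  | succ m ih =>
    intro h ht
    have h1 : {v | ∃ n, n < m + 1 + 1 ∧ v ∈ f n} = {v | ∃ n, n < m + 1 ∧ v ∈ f n} ∪ f (m + 1) := by
      ext v
      constructor
      · rintro ⟨n, hn, hv⟩
        by_cases hn' : n < m + 1
        · exact Or.inl ⟨n, hn', hv⟩
        · have : n = m + 1 := by omega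
          rw [this] at hv
          exact Or.inr hv
      · rintro (⟨n, hn, hv⟩ | hv)
        · exact ⟨n, by omega, hv⟩
        · exact ⟨m + 1, by omega, hv⟩
    rw [h1]
    refine (ih (fun n hn => h n (by omega)) (fun n hn => ht n (by omega))).union_touch
      (h (m + 1) (by omega)) ?_
    exact (ht m (by omega)).mono (fun v hv => ⟨m, by omega, hv⟩) (fun v hv => hv)

/-- the output of `strip` -/
private def BsOut {V E : Type} (D : Dig V E) (c : ℕ → ℕ → Set V) (A B : Set V) : Prop :=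
  (∀ v ∈ A ∪ B, ∃ x y, x < 4 ∧ y < 4 ∧ v ∈ c x y) ∧ Disjoint A B ∧
    (∃ e, (D e).1 ∈ A ∧ (D e).2 ∈ B) ∧ (∃ e, (D e).1 ∈ B ∧ (D e).2 ∈ A) ∧
    (∀ L, Conn (simp (und D)) L → (∀ y, y < 4 → Touch (simp (und D)) L (c 0 y)) →
      Conn (simp (und D)) (L ∪ A)) ∧
    (∀ L, Conn (simp (und D)) L → (∀ y, y < 4 → Touch (simp (und D)) L (c 3 y)) →
      Conn (simp (und D)) (L ∪ B))

theorem biSets_of_gridSets {V E : Type} {D : Dig V E} {k : ℕ}
    (h : GridSets (simp (und D)) (10 * k)) : BiSets D k := by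
  obtain ⟨X, hX, hdis, hH, hV⟩ := h
  have H1 : ∀ i j, ∃ A B : Set V, i < k → j < k →
      BsOut D (fun x y => X (10 * i + 6 + x) (10 * j + 1 + y)) A B := by
    intro i j
    by_cases hij : i < k ∧ j < k
    · obtain ⟨hi, hj⟩ := hij
      obtain ⟨A, B, hAB⟩ := strip D (fun x y => X (10 * i + 6 + x) (10 * j + 1 + y))
        (fun x y hx hy => hX _ _ (by omega) (by omega))
        (fun x y x' y' hx hy hx' hy' hne => hdis _ _ _ _ (by omega) (by omega) (by omega)
          (by omega) (by omega))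
        (fun x y hx hy => hH (10 * i + 6 + x) (10 * j + 1 + y) (by omega) (by omega))
        (fun x y hx hy => hV (10 * i + 6 + x) (10 * j + 1 + y) (by omega) (by omega))
      exact ⟨A, B, fun _ _ => hAB⟩
    · exact ⟨∅, ∅, fun a b => absurd ⟨a, b⟩ hij⟩
  have H2 : ∀ i j, ∃ A B : Set V, i < k → j < k →
      BsOut D (fun x y => X (10 * i + 1 + y) (10 * j + 6 + x)) A B := by
    intro i j
    by_cases hij : i < k ∧ j < k
    · obtain ⟨hi, hj⟩ := hij
      obtain ⟨A, B, hAB⟩ := strip D (fun x y => X (10 * i + 1 + y) (10 * j + 6 + x))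
        (fun x y hx hy => hX _ _ (by omega) (by omega))
        (fun x y x' y' hx hy hx' hy' hne => hdis _ _ _ _ (by omega) (by omega) (by omega)
          (by omega) (by omega))
        (fun x y hx hy => hV (10 * i + 1 + y) (10 * j + 6 + x) (by omega) (by omega))
        (fun x y hx hy => hH (10 * i + 1 + y) (10 * j + 6 + x) (by omega) (by omega))
      exact ⟨A, B, fun _ _ => hAB⟩
    · exact ⟨∅, ∅, fun a b => absurd ⟨a, b⟩ hij⟩
  choose Ah Bh hh using H1
  choose Av Bv hv using H2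
  obtain ⟨core, hcore⟩ : ∃ core : ℕ → ℕ → Set V, core = fun i j =>
      {v | ∃ y, y < 5 + 1 ∧ v ∈ {v | ∃ x, x < 5 + 1 ∧ v ∈ X (10 * i + x) (10 * j + y)}} := ⟨_, rfl⟩
  have hcm : ∀ i j x y, x < 6 → y < 6 → X (10 * i + x) (10 * j + y) ⊆ core i j := by
    intro i j x y hx hy v hv
    rw [hcore]
    exact ⟨y, hy, x, hx, hv⟩
  have hcc : ∀ i j, i < k → j < k → Conn (simp (und D)) (core i j) := by
    intro i j hi hj
    rw [hcore]
    refine bs_chain (f := fun y => {v | ∃ x, x < 5 + 1 ∧ v ∈ X (10 * i + x) (10 * j + y)}) 5 ?_ ?_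
    · intro y hy
      refine bs_chain (f := fun x => X (10 * i + x) (10 * j + y)) 5 ?_ ?_
      · intro x hx
        exact hX _ _ (by omega) (by omega)
      · intro x hx
        exact hH (10 * i + x) (10 * j + y) (by omega) (by omega)
    · intro y hy
      refine (hV (10 * i + 0) (10 * j + y) (by omega) (by omega)).mono ?_ ?_
      · intro v hv
        exact ⟨0, by omega, hv⟩
      · intro v hv
        exact ⟨0, by omega, hv⟩
  obtain ⟨P, hP⟩ : ∃ P : ℕ → ℕ → Set V, P = fun i j =>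
      (((core i j ∪ Ah i j) ∪ (if 0 < i then Bh (i - 1) j else ∅)) ∪ Av i j) ∪
        (if 0 < j then Bv i (j - 1) else ∅) := ⟨_, rfl⟩
  have key : ∀ i j, i < k → j < k → ∀ v ∈ P i j, ∃ x y, x < 10 * k ∧ y < 10 * k ∧ v ∈ X x y ∧
      ((x % 10 < 6 ∧ y % 10 < 6 ∧ x / 10 = i ∧ y / 10 = j) ∨
       (6 ≤ x % 10 ∧ 1 ≤ y % 10 ∧ y % 10 ≤ 4 ∧ x / 10 = i ∧ y / 10 = j ∧ v ∈ Ah (x / 10) (y / 10)) ∨
       (6 ≤ x % 10 ∧ 1 ≤ y % 10 ∧ y % 10 ≤ 4 ∧ x / 10 + 1 = i ∧ y / 10 = j ∧
          v ∈ Bh (x / 10) (y / 10)) ∨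
       (6 ≤ y % 10 ∧ 1 ≤ x % 10 ∧ x % 10 ≤ 4 ∧ x / 10 = i ∧ y / 10 = j ∧ v ∈ Av (x / 10) (y / 10)) ∨
       (6 ≤ y % 10 ∧ 1 ≤ x % 10 ∧ x % 10 ≤ 4 ∧ x / 10 = i ∧ y / 10 + 1 = j ∧
          v ∈ Bv (x / 10) (y / 10))) := by
    intro i j hi hj v hvP
    rw [hP] at hvP
    rcases hvP with (((hc | hA) | hB) | hA) | hB
    · rw [hcore] at hc
      obtain ⟨y, hy, x, hx, hvX⟩ := hc
      exact ⟨10 * i + x, 10 * j + y, by omega, by omega, hvX, Or.inl (by omega)⟩
    · obtain ⟨x, y, hx, hy, hvX⟩ := (hh i j hi hj).1 v (Or.inl hA)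
      refine ⟨10 * i + 6 + x, 10 * j + 1 + y, by omega, by omega, hvX, Or.inr (Or.inl ?_)⟩
      have e1 : (10 * i + 6 + x) / 10 = i := by omega
      have e2 : (10 * j + 1 + y) / 10 = j := by omega
      rw [e1, e2]
      exact ⟨by omega, by omega, by omega, rfl, rfl, hA⟩
    · by_cases h0 : 0 < i
      · rw [if_pos h0] at hB
        obtain ⟨x, y, hx, hy, hvX⟩ := (hh (i - 1) j (by omega) hj).1 v (Or.inr hB)
        refine ⟨10 * (i - 1) + 6 + x, 10 * j + 1 + y, by omega, by omega, hvX,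
          Or.inr (Or.inr (Or.inl ?_))⟩
        have e1 : (10 * (i - 1) + 6 + x) / 10 = i - 1 := by omega
        have e2 : (10 * j + 1 + y) / 10 = j := by omega
        rw [e1, e2]
        exact ⟨by omega, by omega, by omega, by omega, rfl, hB⟩
      · rw [if_neg h0] at hB
        exact hB.elim
    · obtain ⟨x, y, hx, hy, hvX⟩ := (hv i j hi hj).1 v (Or.inl hA)
      refine ⟨10 * i + 1 + y, 10 * j + 6 + x, by omega, by omega, hvX,
        Or.inr (Or.inr (Or.inr (Or.inl ?_)))⟩
      have e1 : (10 * i + 1 + y) / 10 = i := by omega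
      have e2 : (10 * j + 6 + x) / 10 = j := by omega
      rw [e1, e2]
      exact ⟨by omega, by omega, by omega, rfl, rfl, hA⟩
    · by_cases h0 : 0 < j
      · rw [if_pos h0] at hB
        obtain ⟨x, y, hx, hy, hvX⟩ := (hv i (j - 1) hi (by omega)).1 v (Or.inr hB)
        refine ⟨10 * i + 1 + y, 10 * (j - 1) + 6 + x, by omega, by omega, hvX,
          Or.inr (Or.inr (Or.inr (Or.inr ?_)))⟩
        have e1 : (10 * i + 1 + y) / 10 = i := by omega
        have e2 : (10 * (j - 1) + 6 + x) / 10 = j - 1 := by omega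
        rw [e1, e2]
        exact ⟨by omega, by omega, by omega, rfl, by omega, hB⟩
      · rw [if_neg h0] at hB
        exact hB.elim
  have sAh : ∀ i j, Ah i j ⊆ P i j := by
    intro i j v h'
    rw [hP]
    exact Or.inl (Or.inl (Or.inl (Or.inr h')))
  have sBh : ∀ i j, Bh i j ⊆ P (i + 1) j := by
    intro i j v h'
    rw [hP]
    refine Or.inl (Or.inl (Or.inr ?_))
    rw [if_pos (Nat.succ_pos i)]
    exact h'
  have sAv : ∀ i j, Av i j ⊆ P i j := by
    intro i j v h'
    rw [hP]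
    exact Or.inl (Or.inr h')
  have sBv : ∀ i j, Bv i j ⊆ P i (j + 1) := by
    intro i j v h'
    rw [hP]
    refine Or.inr ?_
    rw [if_pos (Nat.succ_pos j)]
    exact h'
  refine ⟨P, ?_, ?_, ?_, ?_⟩
  · intro i j hi hj
    rw [hP]
    have c0 := hcc i j hi hj
    have c1 : Conn (simp (und D)) (core i j ∪ Ah i j) := by
      refine (hh i j hi hj).2.2.2.2.1 _ c0 (fun y hy => ?_)
      refine (hH (10 * i + 5) (10 * j + (1 + y)) (by omega) (by omega)).mono
        (hcm i j 5 (1 + y) (by omega) (by omega)) ?_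
      have e : 10 * j + (1 + y) = 10 * j + 1 + y := by omega
      rw [e]
    have s1 : core i j ⊆ core i j ∪ Ah i j := subset_union_left
    have c2 : Conn (simp (und D)) ((core i j ∪ Ah i j) ∪ (if 0 < i then Bh (i - 1) j else ∅)) := by
      by_cases h0 : 0 < i
      · rw [if_pos h0]
        refine (hh (i - 1) j (by omega) hj).2.2.2.2.2 _ c1 (fun y hy => ?_)
        have ht := hH (10 * (i - 1) + 6 + 3) (10 * j + 1 + y) (by omega) (by omega)
        refine ht.symm.mono ?_ (fun v h' => h')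
        have e1 : 10 * (i - 1) + 6 + 3 + 1 = 10 * i + 0 := by omega
        have e2 : 10 * j + 1 + y = 10 * j + (1 + y) := by omega
        rw [e1, e2]
        exact (hcm i j 0 (1 + y) (by omega) (by omega)).trans s1
      · rw [if_neg h0, union_empty]
        exact c1
    have s2 : core i j ⊆ (core i j ∪ Ah i j) ∪ (if 0 < i then Bh (i - 1) j else ∅) :=
      s1.trans subset_union_left
    have c3 : Conn (simp (und D))
        (((core i j ∪ Ah i j) ∪ (if 0 < i then Bh (i - 1) j else ∅)) ∪ Av i j) := by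
      refine (hv i j hi hj).2.2.2.2.1 _ c2 (fun y hy => ?_)
      refine (hV (10 * i + (1 + y)) (10 * j + 5) (by omega) (by omega)).mono
        ((hcm i j (1 + y) 5 (by omega) (by omega)).trans s2) ?_
      have e : 10 * i + (1 + y) = 10 * i + 1 + y := by omega
      rw [e]
    have s3 : core i j ⊆ ((core i j ∪ Ah i j) ∪ (if 0 < i then Bh (i - 1) j else ∅)) ∪ Av i j :=
      s2.trans subset_union_left
    by_cases h0 : 0 < j
    · simp only [if_pos h0]
      refine (hv i (j - 1) hi (by omega)).2.2.2.2.2 _ c3 (fun y hy => ?_)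
      have ht := hV (10 * i + 1 + y) (10 * (j - 1) + 6 + 3) (by omega) (by omega)
      refine ht.symm.mono ?_ (fun v h' => h')
      have e1 : 10 * (j - 1) + 6 + 3 + 1 = 10 * j + 0 := by omega
      have e2 : 10 * i + 1 + y = 10 * i + (1 + y) := by omega
      rw [e1, e2]
      exact (hcm i j (1 + y) 0 (by omega) (by omega)).trans s3
    · simp only [if_neg h0, union_empty]
      exact c3
  · intro i j i' j' hi hj hi' hj' hne
    rw [Set.disjoint_left]
    intro v h1 h2
    obtain ⟨x, y, hx, hy, hvX, hcase⟩ := key i j hi hj v h1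
    obtain ⟨x', y', hx', hy', hvX', hcase'⟩ := key i' j' hi' hj' v h2
    have hxy : x = x' ∧ y = y' := by
      by_contra hcon
      have hne' : x ≠ x' ∨ y ≠ y' := by
        by_contra h3
        push Not at h3
        exact hcon h3
      exact Set.disjoint_left.1 (hdis x y x' y' hx hy hx' hy' hne') hvX hvX'
    obtain ⟨rfl, rfl⟩ := hxy
    have dh : v ∈ Ah (x / 10) (y / 10) → v ∈ Bh (x / 10) (y / 10) → False := fun a b =>
      Set.disjoint_left.1 (hh (x / 10) (y / 10) (by omega) (by omega)).2.1 a b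
    have dv : v ∈ Av (x / 10) (y / 10) → v ∈ Bv (x / 10) (y / 10) → False := fun a b =>
      Set.disjoint_left.1 (hv (x / 10) (y / 10) (by omega) (by omega)).2.1 a b
    rcases hcase with g | g | g | g | g <;> rcases hcase' with g' | g' | g' | g' | g' <;>
      first
        | omega
        | exact dh g.2.2.2.2.2 g'.2.2.2.2.2
        | exact dh g'.2.2.2.2.2 g.2.2.2.2.2
        | exact dv g.2.2.2.2.2 g'.2.2.2.2.2
        | exact dv g'.2.2.2.2.2 g.2.2.2.2.2
  · intro i j hi hj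
    obtain ⟨e, h1, h2⟩ := (hh i j (by omega) hj).2.2.1
    obtain ⟨e', h1', h2'⟩ := (hh i j (by omega) hj).2.2.2.1
    exact ⟨⟨e, sAh i j h1, sBh i j h2⟩, e', sBh i j h1', sAh i j h2'⟩
  · intro i j hi hj
    obtain ⟨e, h1, h2⟩ := (hv i j hi (by omega)).2.2.1
    obtain ⟨e', h1', h2'⟩ := (hv i j hi (by omega)).2.2.2.1
    exact ⟨⟨e, sAv i j h1, sBv i j h2⟩, e', sBv i j h1', sAv i j h2'⟩

end Pool.Agent.Lib.MP_210493_lc
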