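import Pool.Agent.Lib.MP_210493_lc.DG.Sep

/-! Module DG-Chain.  A large graph of bounded width has a long chain of sets with small
boundaries.

PROOF.  STEP.  If `(bd S X).ncard ≤ 3 κ` and `3 κ ≤ X.ncard` then there is `X' ⊂ X` with
`(bd S X').ncard ≤ 3 κ` and `X.ncard ≤ 2 * X'.ncard`.  Proof: choose a Finset `W` of size `3 κ`
with `bd S X ⊆ W ⊆ X` (`Set.exists_superset_subset_encard_eq` or Finset version
`Finset.exists_subsuperset_card_eq` for `X.toFinset`).  `¬ Wide S κ` gives `A B` with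
`A ∪ B = univ`, no edges between `A \ B` and `B \ A`, `(A ∩ B).ncard < κ`,
`(W ∩ (A \ B)).ncard ≤ 2 κ`, `(W ∩ (B \ A)).ncard ≤ 2 κ`.
`bd S (X ∩ A) ⊆ (W ∩ (A \ B)) ∪ (A ∩ B)`: let `v ∈ X ∩ A`, `w ∉ X ∩ A`, `S.Adj v w`.  If `v ∈ B`
fine.  Otherwise `v ∈ A \ B`; if `w ∉ X` then `v ∈ bd S X ⊆ W`; if `w ∈ X`, `w ∉ A`, so
`w ∈ B \ A`, an edge between `A \ B` and `B \ A`: contradiction.  So
`(bd S (X ∩ A)).ncard ≤ 2 κ + κ`.  Same for `X ∩ B`.  `X ∩ A ≠ X`: otherwise `W ⊆ A`,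
`3 κ = W.card ≤ (W ∩ (A \ B)).ncard + (A ∩ B).ncard < 3 κ`.  Same for `X ∩ B`.  Finally
`X = (X ∩ A) ∪ (X ∩ B)`, so one of the two has at least half of the elements.
CHAIN.  Start with `X = univ` (boundary empty) and iterate: for `i ≤ L` there are sets
`X_0 = univ ⊃ X_1 ⊃ ... ⊃ X_L` with `3 κ * 2^(L - i) ≤ X_i.ncard` (induction: as long as `i < L`,
`3 κ ≤ 3κ * 2^(L-i) ≤ X_i.ncard`, and the step gives `X_{i+1}.ncard ≥ 3κ * 2^(L-i-1)`).
Reverse the order: `X' i = X_{L - i}`.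
(It is convenient to prove by induction on `L`: if `3 κ * 2^L ≤ X.ncard` and the boundary of `X`
has size at most `3 κ` then there is a chain of length `L` with last set `X`.) -/

namespace Pool.Agent.Lib.MP_210493_lc

open Set Pool.Agent.Lib.MP_4d119b_lc

/-- the boundary of one side -/
private theorem chain_bd {V : Type} [Finite V] (S : SimpleGraph V) (κ : ℕ) {X A B : Set V}
    {W : Finset V} (hbW : bd S X ⊆ (W : Set V)) (hAB : A ∪ B = univ)
    (hno : ∀ x ∈ A \ B, ∀ y ∈ B \ A, ¬ S.Adj x y) (hcap : (A ∩ B).ncard < κ)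
    (h1 : ((W : Set V) ∩ (A \ B)).ncard ≤ 2 * κ) : (bd S (X ∩ A)).ncard ≤ 3 * κ := by
  have hsub : bd S (X ∩ A) ⊆ ((W : Set V) ∩ (A \ B)) ∪ (A ∩ B) := by
    rintro v ⟨⟨hvX, hvA⟩, w, hw, hadj⟩
    by_cases hvB : v ∈ B
    · exact Or.inr ⟨hvA, hvB⟩
    · left
      by_cases hwX : w ∈ X
      · have hwA : w ∉ A := fun h => hw ⟨hwX, h⟩
        have hwB : w ∈ B := by
          have : w ∈ A ∪ B := by rw [hAB]; exact mem_univ w
          exact this.resolve_left hwA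
        exact absurd hadj (hno v ⟨hvA, hvB⟩ w ⟨hwB, hwA⟩)
      · exact ⟨hbW ⟨hvX, w, hwX, hadj⟩, hvA, hvB⟩
  have h2 := Set.ncard_le_ncard hsub (Set.toFinite _)
  have h3 := Set.ncard_union_le ((W : Set V) ∩ (A \ B)) (A ∩ B)
  omega

private theorem chain_ne {V : Type} [Finite V] (κ : ℕ) {X A B : Set V}
    {W : Finset V} (hWX : (W : Set V) ⊆ X) (hW : W.card = 3 * κ)
    (hcap : (A ∩ B).ncard < κ) (h1 : ((W : Set V) ∩ (A \ B)).ncard ≤ 2 * κ) :
    X ∩ A ⊂ X := by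
  refine ⟨inter_subset_left, fun hX => ?_⟩
  have hWA : (W : Set V) ⊆ A := fun v hv => (hX (hWX hv)).2
  have hsub : (W : Set V) ⊆ ((W : Set V) ∩ (A \ B)) ∪ (A ∩ B) := by
    intro v hv
    by_cases hvB : v ∈ B
    · exact Or.inr ⟨hWA hv, hvB⟩
    · exact Or.inl ⟨hv, hWA hv, hvB⟩
  have h2 := Set.ncard_le_ncard hsub (Set.toFinite _)
  have h3 := Set.ncard_union_le ((W : Set V) ∩ (A \ B)) (A ∩ B)
  rw [Set.ncard_coe_finset, hW] at h2
  omega

private theorem chain_step {V : Type} [Finite V] (S : SimpleGraph V) (κ : ℕ)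
    (hS : ¬ Wide S κ) (X : Set V) (hb : (bd S X).ncard ≤ 3 * κ) (hX : 3 * κ ≤ X.ncard) :
    ∃ X', X' ⊂ X ∧ (bd S X').ncard ≤ 3 * κ ∧ X.ncard ≤ 2 * X'.ncard := by
  classical
  have := Fintype.ofFinite V
  have hbX : bd S X ⊆ X := fun v hv => hv.1
  obtain ⟨W, hW1, hW2, hW3⟩ := Finset.exists_subsuperset_card_eq (s := (bd S X).toFinset)
    (t := X.toFinset) (n := 3 * κ) (by
      intro v hv
      rw [Set.mem_toFinset] at hv ⊢
      exact hbX hv) (by rw [← Set.ncard_eq_toFinset_card']; exact hb)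
    (by rw [← Set.ncard_eq_toFinset_card']; exact hX)
  have hbW : bd S X ⊆ (W : Set V) := by
    intro v hv
    exact hW1 (Set.mem_toFinset.2 hv)
  have hWX : (W : Set V) ⊆ X := by
    intro v hv
    exact Set.mem_toFinset.1 (hW2 hv)
  unfold Wide at hS
  push Not at hS
  obtain ⟨A, B, hAB, hno, hcap, h1, h2⟩ := hS W hW3
  have hno' : ∀ x ∈ B \ A, ∀ y ∈ A \ B, ¬ S.Adj x y := fun x hx y hy hadj =>
    hno y hy x hx hadj.symm
  have hcap' : (B ∩ A).ncard < κ := by rw [inter_comm]; exact hcap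
  have hBA : B ∪ A = univ := by rw [union_comm]; exact hAB
  have hcov : X.ncard ≤ (X ∩ A).ncard + (X ∩ B).ncard := by
    have e : X = (X ∩ A) ∪ (X ∩ B) := by rw [← inter_union_distrib_left, hAB, inter_univ]
    have h3 := Set.ncard_union_le (X ∩ A) (X ∩ B)
    rw [← e] at h3
    exact h3
  rcases le_total (X ∩ A).ncard (X ∩ B).ncard with hle | hle
  · exact ⟨X ∩ B, chain_ne κ hWX hW3 hcap' h2, chain_bd S κ hbW hBA hno' hcap' h2, by omega⟩
  · exact ⟨X ∩ A, chain_ne κ hWX hW3 hcap h1, chain_bd S κ hbW hAB hno hcap h1, by omega⟩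

private theorem chain_aux {V : Type} [Finite V] (S : SimpleGraph V) (κ : ℕ)
    (hS : ¬ Wide S κ) : ∀ (L : ℕ) (X : Set V), 3 * κ * 2 ^ L ≤ X.ncard →
    (bd S X).ncard ≤ 3 * κ → ∃ Z : ℕ → Set V, Z L = X ∧ (∀ i < L, Z i ⊂ Z (i + 1)) ∧
      ∀ i ≤ L, (bd S (Z i)).ncard ≤ 3 * κ := by
  classical
  intro L
  induction L with
  | zero =>
    intro X _ hb
    exact ⟨fun _ => X, rfl, fun i hi => absurd hi (by omega), fun _ _ => hb⟩
  | succ L ih =>
    intro X hX hb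
    have h0 : 3 * κ ≤ X.ncard := by
      refine le_trans ?_ hX
      exact Nat.le_mul_of_pos_right _ (by positivity)
    obtain ⟨X', h1, h2, h3⟩ := chain_step S κ hS X hb h0
    obtain ⟨Z, hZL, hZ1, hZ2⟩ := ih X' (by rw [pow_succ, ← mul_assoc] at hX; omega) h2
    refine ⟨fun i => if i ≤ L then Z i else X, ?_, ?_, ?_⟩
    · show (if L + 1 ≤ L then Z (L + 1) else X) = X
      rw [if_neg (by omega)]
    · intro i hi
      show (if i ≤ L then Z i else X) ⊂ (if i + 1 ≤ L then Z (i + 1) else X)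
      rw [if_pos (by omega : i ≤ L)]
      by_cases h : i + 1 ≤ L
      · rw [if_pos h]
        exact hZ1 i (by omega)
      · rw [if_neg h]
        have : i = L := by omega
        rw [this, hZL]
        exact h1
    · intro i hi
      show (bd S (if i ≤ L then Z i else X)).ncard ≤ 3 * κ
      by_cases h : i ≤ L
      · rw [if_pos h]
        exact hZ2 i h
      · rw [if_neg h]
        exact hb

theorem exists_chain {V : Type} [Finite V] (S : SimpleGraph V) (κ L : ℕ) (hκ : 1 ≤ κ)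
    (hS : ¬ Wide S κ) (hV : 3 * κ * 2 ^ L ≤ Nat.card V) :
    ∃ X : ℕ → Set V, (∀ i < L, X i ⊂ X (i + 1)) ∧ ∀ i ≤ L, (bd S (X i)).ncard ≤ 3 * κ := by
  have _ := hκ
  have hb : (bd S (univ : Set V)).ncard ≤ 3 * κ := by
    have : bd S (univ : Set V) = ∅ := by
      ext v
      constructor
      · rintro ⟨_, w, hw, _⟩
        exact absurd (mem_univ w) hw
      · intro h
        exact absurd h (notMem_empty v)
    rw [this, Set.ncard_empty]
    omega
  obtain ⟨Z, _, h1, h2⟩ := chain_aux S κ hS L univ (by rw [Set.ncard_univ]; exact hV) hb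
  exact ⟨Z, h1, h2⟩

end Pool.Agent.Lib.MP_210493_lc
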