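import Pool.Agent.Lib.MP_210493_lc.DG.DelV

/-! Module DG-Contr.  Reduction of the inner side of a glued digraph: contraction of an arc.

PROOF.  `x`, `y` are the two ends of `e₀`, `y` is not a root.  Take `V₂ = {z : V₁ // z ≠ y}`,
`c : V₁ → V₂`, `c z = if h : z = y then ⟨x, hxy⟩ else ⟨z, h⟩`, `E₃ = {e : E₁ // e ≠ e₀}`,
`D' e = (c (D e.1).1, c (D e.1).2)`, `ρ' a = c (ρ a)` (`= ⟨ρ a, hy a⟩`).
`RDMinor D' ρ' D ρ`: the map `z ↦ some (c z)` and `Subtype.val`; the only branch set with more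
than one vertex is `{x, y}`, connected by `e₀`, which is not kept.
`DMinor H (glueD D' ρ' C)`: `β' (Sum.inl z) = β (Sum.inl z.1)`, `β' (Sum.inr u) = β (Sum.inr u)`;
note `β (Sum.inl z) = β' (Sum.inl (c z))` for all `z` because `β` takes the same value at `x` and
`y` (hypothesis `hβ`).  `ι e ≠ Sum.inl e₀` gives `ι' e`.  With `q = Sum.map c id :
V₁ ⊕ U → V₂ ⊕ U` one has `β' ∘ q = β` and `glueD D' ρ' C f' = (q ..1, q ..2)` of
`glueD D ρ C (emb f')`.  `conn`: given `β' x' = β' y' = some v`, take preimages (`q` is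
surjective: `z.1`), a path between them in the big digraph, and map it with `q`: a step by an arc
`emb f'` is mapped to a step by `f'`, a step by `e₀` becomes trivial since `q x = q y`. -/

namespace Pool.Agent.Lib.MP_210493_lc

open Set

theorem reducible_con {m : ℕ} {V₁ E₁ U E₂ V' E' : Type} [Finite V₁] [Finite E₁]
    (D : Dig V₁ E₁) (ρ : Fin m → V₁) (C : Dig (Fin m ⊕ U) E₂) (H : Dig V' E')
    {β : V₁ ⊕ U → Option V'} {ι : E' → E₁ ⊕ E₂} (h : IsDModel H (glueD D ρ C) β ι)
    (e₀ : E₁) (he : Sum.inl e₀ ∉ range ι) (x y : V₁) (hxy : x ≠ y) (hD : und D e₀ = s(x, y))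
    (hy : ∀ a, ρ a ≠ y) (hβ : β (Sum.inl x) = β (Sum.inl y)) : Reducible D ρ C H := by
  classical
  obtain ⟨c, hc⟩ : ∃ c : V₁ → {z : V₁ // z ≠ y}, ∀ z, c z = if h : z = y then ⟨x, hxy⟩ else ⟨z, h⟩ :=
    ⟨_, fun _ => rfl⟩
  have hcy : c y = ⟨x, hxy⟩ := by rw [hc, dif_pos rfl]
  have hcn : ∀ z (hz : z ≠ y), c z = ⟨z, hz⟩ := fun z hz => by rw [hc, dif_neg hz]
  have hcx : c x = ⟨x, hxy⟩ := hcn x hxy
  have hcv : ∀ z : {z : V₁ // z ≠ y}, c z.1 = z := fun z => hcn z.1 z.2
  have hcc : ∀ a b, c a = c b → a = b ∨ (a = x ∧ b = y) ∨ (a = y ∧ b = x) := by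
    intro a b hab
    by_cases ha : a = y
    · by_cases hb : b = y
      · exact Or.inl (ha.trans hb.symm)
      · rw [ha, hcy, hcn b hb, Subtype.mk.injEq] at hab
        exact Or.inr (Or.inr ⟨ha, hab.symm⟩)
    · by_cases hb : b = y
      · rw [hb, hcy, hcn a ha, Subtype.mk.injEq] at hab
        exact Or.inr (Or.inl ⟨hab, hb⟩)
      · rw [hcn a ha, hcn b hb, Subtype.mk.injEq] at hab
        exact Or.inl hab
  obtain ⟨D', hD'⟩ : ∃ D' : Dig {z : V₁ // z ≠ y} {e : E₁ // e ≠ e₀},
      ∀ e, D' e = (c (D e.1).1, c (D e.1).2) := ⟨_, fun _ => rfl⟩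
  obtain ⟨ρ', hρ'⟩ : ∃ ρ' : Fin m → {z : V₁ // z ≠ y}, ∀ a, ρ' a = ⟨ρ a, hy a⟩ :=
    ⟨_, fun _ => rfl⟩
  have hρc : ∀ a, c (ρ a) = ρ' a := fun a => by rw [hcn _ (hy a), hρ']
  refine ⟨{z : V₁ // z ≠ y}, {e : E₁ // e ≠ e₀}, inferInstance, inferInstance, D', ρ', ?_, ?_, ?_⟩
  · have h1 : Nat.card {z : V₁ // z ≠ y} < Nat.card V₁ :=
      Finite.card_subtype_lt (x := y) (by simp)
    have h2 : Nat.card {e : E₁ // e ≠ e₀} < Nat.card E₁ :=
      Finite.card_subtype_lt (x := e₀) (by simp)
    omega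
  · refine ⟨fun z => some (c z), Subtype.val, ⟨⟨Subtype.val_injective, ?_, ?_, ?_⟩, ?_⟩, ?_⟩
    · intro e
      change s(some (c (D e.1).1), some (c (D e.1).2)) = s(some (D' e).1, some (D' e).2)
      rw [hD']
    · intro v
      exact ⟨v.1, congrArg some (hcv v)⟩
    · intro a b v ha hb
      have hab : c a = c b := Option.some.inj (ha.trans hb.symm)
      have hr : e₀ ∉ range (Subtype.val : {e : E₁ // e ≠ e₀} → E₁) := by
        rintro ⟨e, he'⟩
        exact e.2 he'
      rcases hcc a b hab with h1 | ⟨h1, h2⟩ | ⟨h1, h2⟩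
      · rw [h1]
        exact Relation.ReflTransGen.refl
      · refine Joined.single hr ?_ ha hb
        rw [h1, h2]
        exact hD
      · refine Joined.single hr ?_ ha hb
        rw [h1, h2]
        exact hD.trans Sym2.eq_swap
    · intro e
      rw [hD']
      exact ⟨rfl, rfl⟩
    · intro a
      exact congrArg some (hρc a)
  · obtain ⟨q, hq⟩ : ∃ q : V₁ ⊕ U → {z : V₁ // z ≠ y} ⊕ U, q = Sum.map c id := ⟨_, rfl⟩
    obtain ⟨β', hβ'⟩ : ∃ β' : {z : V₁ // z ≠ y} ⊕ U → Option V',
        β' = Sum.elim (fun z => β (Sum.inl z.1)) (fun u => β (Sum.inr u)) := ⟨_, rfl⟩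
    obtain ⟨emb, hemb⟩ : ∃ emb : {e : E₁ // e ≠ e₀} ⊕ E₂ → E₁ ⊕ E₂,
        emb = Sum.map Subtype.val id := ⟨_, rfl⟩
    have hβq : ∀ w, β' (q w) = β w := by
      intro w
      rw [hβ', hq]
      rcases w with z | u
      · change β (Sum.inl (c z).1) = β (Sum.inl z)
        by_cases hz : z = y
        · rw [hz, hcy]
          exact hβ
        · rw [hcn z hz]
      · rfl
    have hιe : ∀ e, ∃ e', emb e' = ι e := by
      intro e
      rcases hi : ι e with e₁ | e₂
      · have hne : e₁ ≠ e₀ := by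
          rintro rfl
          exact he ⟨e, hi⟩
        exact ⟨Sum.inl ⟨e₁, hne⟩, by rw [hemb]; rfl⟩
      · exact ⟨Sum.inr e₂, by rw [hemb]; rfl⟩
    choose ι' hι' using hιe
    have hglue : ∀ f', glueD D' ρ' C f' =
        (q (glueD D ρ C (emb f')).1, q (glueD D ρ C (emb f')).2) := by
      intro f'
      have hmap : ∀ w : Fin m ⊕ U, Sum.map ρ' id w = q (Sum.map ρ id w) := by
        intro w
        rw [hq]
        rcases w with a | u
        · change (Sum.inl (ρ' a) : {z : V₁ // z ≠ y} ⊕ U) = Sum.inl (c (ρ a))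
          rw [hρc]
        · rfl
      rcases f' with e | e₂
      · rw [hemb, hq]
        change ((Sum.inl (D' e).1 : {z : V₁ // z ≠ y} ⊕ U), (Sum.inl (D' e).2 : _ ⊕ U)) =
          (Sum.inl (c (D e.1).1), Sum.inl (c (D e.1).2))
        rw [hD']
      · rw [hemb]
        change (Sum.map ρ' id (C e₂).1, Sum.map ρ' id (C e₂).2) =
          (q (Sum.map ρ id (C e₂).1), q (Sum.map ρ id (C e₂).2))
        rw [hmap, hmap]
    have hund : ∀ f', und (glueD D' ρ' C) f' = Sym2.map q (und (glueD D ρ C) (emb f')) := by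
      intro f'
      unfold und
      rw [hglue f', Sym2.map_mk]
    refine ⟨β', ι', ⟨⟨?_, ?_, ?_, ?_⟩, ?_⟩⟩
    · intro e f hef
      apply h.1.inj
      rw [← hι' e, ← hι' f, hef]
    · intro e
      rw [hund, Sym2.map_map, hι']
      have h1 : β' ∘ q = β := funext hβq
      rw [h1]
      exact h.1.ends e
    · intro v
      obtain ⟨w, hw⟩ := h.1.ne v
      exact ⟨q w, (hβq w).trans hw⟩
    · intro a b v ha hb
      have hsurj : ∀ w : {z : V₁ // z ≠ y} ⊕ U, ∃ w', q w' = w := by
        intro w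
        rw [hq]
        rcases w with z | u
        · exact ⟨Sum.inl z.1, congrArg Sum.inl (hcv z)⟩
        · exact ⟨Sum.inr u, rfl⟩
      obtain ⟨a', rfl⟩ := hsurj a
      obtain ⟨b', rfl⟩ := hsurj b
      rw [hβq] at ha hb
      have hj := h.1.conn a' b' v ha hb
      have key : ∀ w, Joined (und (glueD D ρ C)) (range ι) {z | β z = some v} a' w →
          Joined (und (glueD D' ρ' C)) (range ι') {z | β' z = some v} (q a') (q w) := by
        intro w hw
        induction hw with
        | refl => exact Relation.ReflTransGen.refl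
        | @tail u w _ hbc ih =>
          obtain ⟨h1, h2, f, hf, h3⟩ := hbc
          by_cases hf0 : f = Sum.inl e₀
          · have h4 : und (glueD D ρ C) (Sum.inl e₀) = s(Sum.inl x, Sum.inl y) := by
              change Sym2.map Sum.inl (und D e₀) = _
              rw [hD, Sym2.map_mk]
            rw [hf0, h4] at h3
            have h5 : q (Sum.inl x) = q (Sum.inl y) := by
              rw [hq]
              change (Sum.inl (c x) : {z : V₁ // z ≠ y} ⊕ U) = Sum.inl (c y)
              rw [hcx, hcy]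
            have h6 : q u = q w := by
              rcases Sym2.eq_iff.1 h3 with ⟨h7, h8⟩ | ⟨h7, h8⟩
              · rw [← h7, ← h8, h5]
              · rw [← h7, ← h8, h5]
            rw [← h6]
            exact ih
          · have h4 : ∃ f', emb f' = f := by
              rcases f with e₁ | e₂
              · have hne : e₁ ≠ e₀ := fun h => hf0 (congrArg Sum.inl h)
                exact ⟨Sum.inl ⟨e₁, hne⟩, by rw [hemb]; rfl⟩
              · exact ⟨Sum.inr e₂, by rw [hemb]; rfl⟩
            obtain ⟨f', hf'⟩ := h4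
            refine Relation.ReflTransGen.tail ih ⟨?_, ?_, f', ?_, ?_⟩
            · change β' (q u) = some v
              rw [hβq]
              exact h1
            · change β' (q w) = some v
              rw [hβq]
              exact h2
            · rintro ⟨e, he'⟩
              exact hf ⟨e, by rw [← hι' e, he', hf']⟩
            · rw [hund, hf', h3, Sym2.map_mk]
      exact key b' hj
    · intro e
      rw [hglue, hι']
      exact ⟨(hβq _).trans (h.2 e).1, (hβq _).trans (h.2 e).2⟩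

end Pool.Agent.Lib.MP_210493_lc
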