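import Pool.Agent.Lib.MP_210493_lc.DG.Sep

/-! Module DG-Ctx.  A graph is the glueing of an induced subgraph and a context.

PROOF.  `U = {v // v ∉ X}`, `E₂ = {e // ¬ ∀ v ∈ G e, v ∈ X}`.  Define `t : V → Fin m ⊕ U` by
`t v = Sum.inr ⟨v, _⟩` if `v ∉ X`, `t v = Sum.inl a` for some `a` with `(ρ a : V) = v` if there is
such an `a` and `v ∈ X`; for other `v` the value does not matter (there may be no `a : Fin m` at
all, so define `C e` by choice instead: see below).  For `e ∈ E₂` both ends `v` of `e` are outside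
`X` or in `bd (simp G) X`: one end `w` is outside `X` (unfold `E₂`), and if the other end `v` is
in `X` then `v ≠ w` and `e` shows `(simp G).Adj v w`.  So for every `e ∈ E₂` there is
`c : Sym2 (Fin m ⊕ U)` with `Sym2.map (Sum.elim (fun a => (ρ a : V)) Subtype.val) c = G e`
(write `G e = s(v, w)`; each of `v`, `w` is in the range of
`Sum.elim (fun a => (ρ a : V)) Subtype.val`); `choose C`.
`f = Equiv.sumCompl (· ∈ X) : X ⊕ {v // v ∉ X} ≃ V` (`f (inl x) = x`, `f (inr u) = u`),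
`g = (Equiv.sumCompl _).symm : E ≃ E₁ ⊕ E₂`.
Check `Sym2.map f (glueG (restr G X) ρ C (g e)) = G e` : if all ends of `e` are in `X` then
`g e = inl ⟨e, _⟩` and this is `Sym2.map Subtype.val (attachWith ..) = G e`
(`Sym2.attachWith_map_subtypeVal`); otherwise `g e = inr ⟨e, _⟩` and
`f ∘ Sum.map ρ id = Sum.elim (fun a => (ρ a : V)) Subtype.val`.
(Injectivity of `ρ` is not needed.) -/

namespace Pool.Agent.Lib.MP_210493_lc

open Set

theorem exists_ctx {V E : Type} (G : Gra V E) (X : Set V) {m : ℕ} (ρ : Fin m → X)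
    (hr : ∀ v ∈ bd (simp G) X, ∃ a, (ρ a : V) = v) :
    ∃ (C : Gra (Fin m ⊕ {v : V // v ∉ X}) {e : E // ¬ ∀ v ∈ G e, v ∈ X})
      (f : X ⊕ {v : V // v ∉ X} ≃ V)
      (g : E ≃ {e : E // ∀ v ∈ G e, v ∈ X} ⊕ {e : E // ¬ ∀ v ∈ G e, v ∈ X}),
      ∀ e, Sym2.map f (glueG (restr G X) ρ C (g e)) = G e := by
  classical
  -- the ends of an edge outside
  have hend : ∀ e : {e : E // ¬ ∀ v ∈ G e, v ∈ X}, ∀ v ∈ G e.1, ∃ x : Fin m ⊕ {v : V // v ∉ X},
      Sum.elim (fun a => (ρ a : V)) Subtype.val x = v := by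
    rintro ⟨e, he⟩ v hv
    by_cases hX : v ∈ X
    · push Not at he
      obtain ⟨w, hw, hwX⟩ := he
      have hvw : v ≠ w := fun h => hwX (h ▸ hX)
      have hG : G e = s(v, w) := ((Sym2.mem_and_mem_iff hvw).1 ⟨hv, hw⟩)
      obtain ⟨a, ha⟩ := hr v ⟨hX, w, hwX, hvw, e, hG⟩
      exact ⟨Sum.inl a, ha⟩
    · exact ⟨Sum.inr ⟨v, hX⟩, rfl⟩
  have hC : ∀ e : {e : E // ¬ ∀ v ∈ G e, v ∈ X}, ∃ c : Sym2 (Fin m ⊕ {v : V // v ∉ X}),
      Sym2.map (Sum.elim (fun a => (ρ a : V)) Subtype.val) c = G e.1 := by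
    intro e
    obtain ⟨⟨v, w⟩, hvw⟩ := Quot.exists_rep (G e.1)
    change s(v, w) = G e.1 at hvw
    obtain ⟨x, hx⟩ := hend e v (by rw [← hvw]; exact Sym2.mem_mk_left _ _)
    obtain ⟨y, hy⟩ := hend e w (by rw [← hvw]; exact Sym2.mem_mk_right _ _)
    exact ⟨s(x, y), by rw [Sym2.map_mk, hx, hy, hvw]⟩
  choose C hC using hC
  refine ⟨C, Equiv.sumCompl (· ∈ X), (Equiv.sumCompl (fun e => ∀ v ∈ G e, v ∈ X)).symm, ?_⟩
  intro e
  by_cases he : ∀ v ∈ G e, v ∈ X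
  · rw [Equiv.sumCompl_symm_apply_of_pos (p := fun e => ∀ v ∈ G e, v ∈ X) he]
    change Sym2.map _ (Sym2.map Sum.inl ((G e).attachWith he)) = G e
    rw [Sym2.map_map]
    have : (⇑(Equiv.sumCompl (· ∈ X)) ∘ (Sum.inl : X → X ⊕ {v : V // v ∉ X})) =
      (Subtype.val : X → V) := by
      funext x
      exact Equiv.sumCompl_apply_inl _
    rw [this]
    exact Sym2.attachWith_map_subtypeVal _
  · rw [Equiv.sumCompl_symm_apply_of_neg (p := fun e => ∀ v ∈ G e, v ∈ X) he]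
    change Sym2.map _ (Sym2.map (Sum.map ρ id) (C ⟨e, he⟩)) = G e
    rw [Sym2.map_map]
    have : (⇑(Equiv.sumCompl (· ∈ X)) ∘ (Sum.map ρ id : Fin m ⊕ {v : V // v ∉ X} → X ⊕ {v : V // v ∉ X})) =
      Sum.elim (fun a => (ρ a : V)) Subtype.val := by
      funext x
      rcases x with x | x
      · exact Equiv.sumCompl_apply_inl _
      · exact Equiv.sumCompl_apply_inr _
    rw [this]
    exact hC ⟨e, he⟩

end Pool.Agent.Lib.MP_210493_lc
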