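import Mathlib

/-! Graphs and digraphs with loops and parallel edges, minors, underlying classes
(problem MP_210493_lc). -/

namespace Pool.Agent.Lib.MP_210493_lc

/-- A digraph with vertex type `V` and arc type `E`: every arc `e` has a tail `(D e).1` and a
head `(D e).2`.  Loops and parallel arcs are allowed. -/
abbrev Dig (V E : Type) := E → V × V

/-- A graph with vertex type `V` and edge type `E`: every edge has an unordered pair of ends.
Loops and parallel edges are allowed. -/
abbrev Gra (V E : Type) := E → Sym2 V

/-- The underlying graph of a digraph. -/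
def und {V E : Type} (D : Dig V E) : Gra V E := fun e => s((D e).1, (D e).2)

/-- `x` and `y` are joined inside the vertex set `S` by edges of `G` that are not in `F`. -/
def Joined {V E : Type} (G : Gra V E) (F : Set E) (S : Set V) : V → V → Prop :=
  Relation.ReflTransGen (fun a b => a ∈ S ∧ b ∈ S ∧ ∃ e, e ∉ F ∧ G e = s(a, b))

/-- `(β, ι)` is a minor model of `G'` in `G`: the edges `ι e` are the edges that are kept, the
branch set of a vertex `v` of `G'` is the set of vertices mapped to `v` by `β` (the vertices
mapped to `none` are deleted), it is nonempty and connected by edges that are not kept (among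
them the contracted edges), and the ends of `ι e` lie in the branch sets of the ends of `e`. -/
structure IsModel {V' E' V E : Type} (G' : Gra V' E') (G : Gra V E) (β : V → Option V')
    (ι : E' → E) : Prop where
  inj : Function.Injective ι
  ends : ∀ e, Sym2.map β (G (ι e)) = Sym2.map some (G' e)
  ne : ∀ v, ∃ x, β x = some v
  conn : ∀ x y v, β x = some v → β y = some v → Joined G (Set.range ι) {z | β z = some v} x y

/-- `G'` is a minor of the graph `G` (vertex deletions, edge deletions, contractions). -/
def GMinor {V' E' V E : Type} (G' : Gra V' E') (G : Gra V E) : Prop :=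
  ∃ (β : V → Option V') (ι : E' → E), IsModel G' G β ι

/-- a minor model between digraphs: moreover tails go to tails and heads to heads -/
def IsDModel {V' E' V E : Type} (H : Dig V' E') (D : Dig V E) (β : V → Option V')
    (ι : E' → E) : Prop :=
  IsModel (und H) (und D) β ι ∧
    ∀ e, β (D (ι e)).1 = some (H e).1 ∧ β (D (ι e)).2 = some (H e).2

/-- `H` is a minor of the digraph `D` (vertex deletions, arc deletions, arc contractions; the
arcs that are kept keep their directions). -/
def DMinor {V' E' V E : Type} (H : Dig V' E') (D : Dig V E) : Prop :=
  ∃ (β : V → Option V') (ι : E' → E), IsDModel H D β ι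

/-- a finite digraph with vertices `0, ..., v-1` and arcs `0, ..., e-1` -/
structure Code where
  v : ℕ
  e : ℕ
  arc : Dig (Fin v) (Fin e)

/-- number of vertices plus number of arcs -/
def Code.size (H : Code) : ℕ := H.v + H.e

/-- `G` is the underlying graph of a digraph without a minor in `A` -/
def InClass {V E : Type} (A : Set Code) (G : Gra V E) : Prop :=
  ∃ D : Dig V E, und D = G ∧ ∀ H ∈ A, ¬ DMinor H.arc D

/-- `G` is an excluded minor of the class of the underlying graphs of the digraphs without a
minor in `A`: it is not in the class, and all its proper minors (the minors with fewer vertices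
and edges) are. -/
def Excluded {V E : Type} (A : Set Code) (G : Gra V E) : Prop :=
  ¬ InClass A G ∧ ∀ (V' E' : Type) [Finite V'] [Finite E'] (G' : Gra V' E'), GMinor G' G →
    Nat.card V' + Nat.card E' < Nat.card V + Nat.card E → InClass A G'

/-- the edges of the `k × k` grid -/
abbrev GridE (k : ℕ) : Type := {p : (Fin k × Fin k) × (Fin k × Fin k) //
  (p.1.1.1 + 1 = p.2.1.1 ∧ p.1.2 = p.2.2) ∨ (p.1.1 = p.2.1 ∧ p.1.2.1 + 1 = p.2.2.1)}

/-- the `k × k` grid -/
def grid (k : ℕ) : Gra (Fin k × Fin k) (GridE k) := fun e => s(e.1.1, e.1.2)

end Pool.Agent.Lib.MP_210493_lc
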