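import Pool.Agent.Lib.MP_210493_lc.DG.DelV

/-! Module DG-DelE.  Reduction of the inner side of a glued digraph: deletion of a useless arc.

PROOF.  Take `V₂ = V₁`, `E₃ = {e : E₁ // e ≠ e₀}`, `D' e = D e.1`, `ρ' = ρ`.
`RDMinor D' ρ D ρ`: the map `some` and `Subtype.val`; every branch set is a single vertex.
`DMinor H (glueD D' ρ C)`: the same `β`; `ι e ≠ Sum.inl e₀`, so `ι e = emb (ι' e)` with
`emb = Sum.map Subtype.val id` (use `choose`).  `conn`: induction on the path in the big digraph:
a step from `a` to `b` (both with `β = some v`) by an arc `f ∉ range ι`: if `f ≠ Sum.inl e₀` it is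
`emb f'` with `f' ∉ range ι'`; if `f = Sum.inl e₀` then `{a, b} = {Sum.inl x, Sum.inl y}`,
`x, y` the ends of `e₀`, and by `hu` either `x = y` (then `a = b`, nothing to do), or
`β (Sum.inl x) ≠ β (Sum.inl y)` or `β (Sum.inl x) = none` (impossible), or there is a parallel arc
`e₁ ≠ e₀`, `Sum.inl e₁ ∉ range ι`, which is used instead. -/

namespace Pool.Agent.Lib.MP_210493_lc

open Set

theorem reducible_delE {m : ℕ} {V₁ E₁ U E₂ V' E' : Type} [Finite V₁] [Finite E₁]
    (D : Dig V₁ E₁) (ρ : Fin m → V₁) (C : Dig (Fin m ⊕ U) E₂) (H : Dig V' E')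
    {β : V₁ ⊕ U → Option V'} {ι : E' → E₁ ⊕ E₂} (h : IsDModel H (glueD D ρ C) β ι)
    (e₀ : E₁) (he : Sum.inl e₀ ∉ range ι)
    (hu : (D e₀).1 = (D e₀).2 ∨ β (Sum.inl (D e₀).1) ≠ β (Sum.inl (D e₀).2) ∨
      β (Sum.inl (D e₀).1) = none ∨
      ∃ e₁, e₁ ≠ e₀ ∧ Sum.inl e₁ ∉ range ι ∧ und D e₁ = und D e₀) : Reducible D ρ C H := by
  classical
  refine ⟨V₁, {e : E₁ // e ≠ e₀}, inferInstance, inferInstance, fun e => D e.1, ρ, ?_, ?_, ?_⟩
  · have := Finite.card_subtype_lt (p := fun e : E₁ => e ≠ e₀) (x := e₀) (by simp)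
    omega
  · refine ⟨some, Subtype.val, ⟨⟨Subtype.val_injective, fun e => rfl, fun v => ⟨v, rfl⟩, ?_⟩,
      fun e => ⟨rfl, rfl⟩⟩, fun _ => rfl⟩
    intro x y v hx hy
    have : x = y := Option.some.inj (hx.trans hy.symm)
    subst this
    exact Relation.ReflTransGen.refl
  · have h0 : ∀ f : E₁ ⊕ E₂, f ≠ Sum.inl e₀ →
        ∃ f' : {e : E₁ // e ≠ e₀} ⊕ E₂, Sum.map Subtype.val id f' = f := by
      rintro (f | f) hf
      · exact ⟨Sum.inl ⟨f, fun h1 => hf (by rw [h1])⟩, rfl⟩
      · exact ⟨Sum.inr f, rfl⟩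
    have h1 : ∀ e, ∃ e' : {e : E₁ // e ≠ e₀} ⊕ E₂, Sum.map Subtype.val id e' = ι e :=
      fun e => h0 (ι e) fun h1 => he ⟨e, h1⟩
    choose ι' hι' using h1
    have hglue : ∀ f : {e : E₁ // e ≠ e₀} ⊕ E₂,
        glueD (fun e : {e : E₁ // e ≠ e₀} => D e.1) ρ C f =
          glueD D ρ C (Sum.map Subtype.val id f) := by
      rintro (f | f) <;> rfl
    have hund : ∀ f : {e : E₁ // e ≠ e₀} ⊕ E₂,
        und (glueD (fun e : {e : E₁ // e ≠ e₀} => D e.1) ρ C) f =
          und (glueD D ρ C) (Sum.map Subtype.val id f) := by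
      intro f
      unfold und
      rw [hglue]
    refine ⟨β, ι', ⟨⟨?_, ?_, h.1.ne, ?_⟩, ?_⟩⟩
    · intro a b hab
      apply h.1.inj
      rw [← hι' a, ← hι' b, hab]
    · intro e
      rw [hund, hι' e]
      exact h.1.ends e
    · intro x y v hx hy
      have hj := h.1.conn x y v hx hy
      clear hy
      induction hj with
      | refl => exact Relation.ReflTransGen.refl
      | @tail a b _ hbc ih =>
        obtain ⟨ha, hb, f, hf, hff⟩ := hbc
        refine ih.trans ?_
        by_cases hfe : f = Sum.inl e₀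
        · subst hfe
          change s((Sum.inl (D e₀).1 : V₁ ⊕ U), Sum.inl (D e₀).2) = s(a, b) at hff
          rcases hu with h2 | h2 | h2 | ⟨e₁, h2, h3, h4⟩
          · rw [h2, Sym2.eq_iff] at hff
            have hab : a = b := by
              rcases hff with ⟨h3, h4⟩ | ⟨h3, h4⟩
              · rw [← h3, h4]
              · rw [← h4, h3]
            rw [hab]
            exact Relation.ReflTransGen.refl
          · rw [Sym2.eq_iff] at hff
            rcases hff with ⟨h3, h4⟩ | ⟨h3, h4⟩
            · rw [h3, h4] at h2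
              exact absurd (ha.trans hb.symm) h2
            · rw [h3, h4] at h2
              exact absurd (hb.trans ha.symm) h2
          · rw [Sym2.eq_iff] at hff
            rcases hff with ⟨h3, h4⟩ | ⟨h3, h4⟩
            · rw [h3] at h2
              exact absurd (ha.symm.trans h2) (by simp)
            · rw [h3] at h2
              exact absurd (hb.symm.trans h2) (by simp)
          · refine Joined.single (e := Sum.inl ⟨e₁, h2⟩) ?_ ?_ ha hb
            · rintro ⟨e, h5⟩
              refine h3 ⟨e, ?_⟩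
              rw [← hι' e, h5]
              rfl
            · rw [hund, ← hff]
              change Sym2.map Sum.inl (und D e₁) = Sym2.map Sum.inl (und D e₀)
              rw [h4]
        · obtain ⟨f', rfl⟩ := h0 f hfe
          refine Joined.single (e := f') ?_ ?_ ha hb
          · rintro ⟨e, h5⟩
            refine hf ⟨e, ?_⟩
            rw [← hι' e, h5]
          · rw [hund, hff]
    · intro e
      rw [hglue, hι' e]
      exact h.2 e

end Pool.Agent.Lib.MP_210493_lc
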