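import Pool.Agent.Lib.MP_210493_lc.DG.Basic

/-! Module DG-DelV.  Reduction of the inner side of a glued digraph: deletion of an unused vertex.

PROOF.  Take `V₂ = {x : V₁ // x ≠ v}`, `E₃ = {e : E₁ // (D e).1 ≠ v ∧ (D e).2 ≠ v}`,
`D' e = (⟨(D e).1, _⟩, ⟨(D e).2, _⟩)`, `ρ' a = ⟨ρ a, hv a⟩`.
Cards: `Nat.card V₂ < Nat.card V₁` (e.g. `Finite.card_subtype_lt`), `Nat.card E₃ ≤ Nat.card E₁`.
`RDMinor D' ρ' D ρ`: the map `x ↦ if h : x = v then none else some ⟨x, h⟩` and `Subtype.val`;
every branch set is a single vertex, so `conn` is `refl`.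
`DMinor H (glueD D' ρ' C)`: `β'` is `β (Sum.inl x.1)` on `Sum.inl x` and `β (Sum.inr u)` on
`Sum.inr u`.  A kept arc `ι e = Sum.inl e₁` has `β (Sum.inl (D e₁).1) = some _`, so
`(D e₁).1 ≠ v` (as `β (Sum.inl v) = none`), the same for the head; so `ι' e = Sum.inl ⟨e₁, _⟩`,
and `ι' e = Sum.inr e₂` if `ι e = Sum.inr e₂` (define `ι'` with `choose` from
`∀ e, ∃ e', emb e' = ι e`, `emb = Sum.map Subtype.val id`, then injectivity of `ι'` follows from
the one of `ι`).  Branch sets: by induction on the path `Joined ... x y` in the big digraph: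
every vertex of it is `emb'` of a vertex of the small one (`emb' = Sum.map Subtype.val id`) since
its `β` is `some v`, and an arc between two such vertices comes from an arc of the small one. -/

namespace Pool.Agent.Lib.MP_210493_lc

open Set

/-- there is a smaller rooted minor of the inner side which still gives the minor `H` -/
def Reducible {m : ℕ} {V₁ E₁ U E₂ V' E' : Type} (D : Dig V₁ E₁) (ρ : Fin m → V₁)
    (C : Dig (Fin m ⊕ U) E₂) (H : Dig V' E') : Prop :=
  ∃ (V₂ E₃ : Type) (_ : Finite V₂) (_ : Finite E₃) (D' : Dig V₂ E₃) (ρ' : Fin m → V₂),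
    Nat.card V₂ + Nat.card E₃ < Nat.card V₁ + Nat.card E₁ ∧ RDMinor D' ρ' D ρ ∧
    DMinor H (glueD D' ρ' C)

/-- a model which only uses the image of a sub-digraph gives a minor of the sub-digraph -/
private theorem dminor_of_emb {A B A' B' V' E' : Type} {S : Dig A B} {T : Dig A' B'}
    {H : Dig V' E'} {emb : A → A'} {embE : B → B'} (hemb : Function.Injective emb)
    (hST : ∀ e, T (embE e) = (emb (S e).1, emb (S e).2))
    {β : A' → Option V'} {ι : E' → B'} (h : IsDModel H T β ι)
    (hC : ∀ z w, β z = some w → ∃ x, emb x = z)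
    (hB : ∀ e a b, β (T e).1 = some a → β (T e).2 = some b → ∃ e', embE e' = e) :
    DMinor H S := by
  have hex : ∀ e, ∃ e', embE e' = ι e := fun e => hB _ _ _ (h.2 e).1 (h.2 e).2
  choose ι' hι' using hex
  have hU : ∀ e, und T (embE e) = Sym2.map emb (und S e) := by
    intro e
    simp only [und, hST e, Sym2.map_mk]
  refine ⟨fun x => β (emb x), ι', ⟨?_, ?_, ?_, ?_⟩, ?_⟩
  · intro a b hab
    apply h.1.inj
    rw [← hι' a, ← hι' b, hab]
  · intro e
    have h1 := h.1.ends e
    rw [← hι' e, hU, Sym2.map_map] at h1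
    exact h1
  · intro w
    obtain ⟨x, hx⟩ := h.1.ne w
    obtain ⟨x', rfl⟩ := hC x w hx
    exact ⟨x', hx⟩
  · intro x y w hx hy
    have hj := h.1.conn (emb x) (emb y) w hx hy
    have key : ∀ z, Joined (und T) (range ι) {z | β z = some w} (emb x) z →
        ∀ y', emb y' = z → Joined (und S) (range ι') {z | β (emb z) = some w} x y' := by
      intro z hz
      induction hz with
      | refl =>
        intro y' hy'
        rw [hemb hy']
        exact Relation.ReflTransGen.refl
      | @tail b c _ hbc ih =>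
        intro y' hy'
        obtain ⟨hb, hc, e, he, hee⟩ := hbc
        simp only [mem_ofPred_eq] at hb hc
        obtain ⟨b', rfl⟩ := hC b w hb
        subst hy'
        obtain ⟨e', rfl⟩ : ∃ e', embE e' = e := by
          have h2 : s((T e).1, (T e).2) = s(emb b', emb y') := hee
          rw [Sym2.eq_iff] at h2
          rcases h2 with ⟨h3, h4⟩ | ⟨h3, h4⟩
          · exact hB e w w (by rw [h3]; exact hb) (by rw [h4]; exact hc)
          · exact hB e w w (by rw [h3]; exact hc) (by rw [h4]; exact hb)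
        refine (ih b' rfl).trans (Joined.single (e := e') ?_ ?_ hb hc)
        · rintro ⟨f, hf⟩
          apply he
          exact ⟨f, by rw [← hι' f, hf]⟩
        · rw [hU] at hee
          exact Sym2.map.injective hemb hee
    exact key _ hj y rfl
  · intro e
    have h1 := h.2 e
    rw [← hι' e, hST] at h1
    exact h1

theorem reducible_delV {m : ℕ} {V₁ E₁ U E₂ V' E' : Type} [Finite V₁] [Finite E₁]
    (D : Dig V₁ E₁) (ρ : Fin m → V₁) (C : Dig (Fin m ⊕ U) E₂) (H : Dig V' E')
    {β : V₁ ⊕ U → Option V'} {ι : E' → E₁ ⊕ E₂} (h : IsDModel H (glueD D ρ C) β ι)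
    (v : V₁) (hv : ∀ a, ρ a ≠ v) (hβ : β (Sum.inl v) = none) : Reducible D ρ C H := by
  classical
  let D' : Dig {x : V₁ // x ≠ v} {e : E₁ // (D e).1 ≠ v ∧ (D e).2 ≠ v} :=
    fun e => (⟨(D e.1).1, e.2.1⟩, ⟨(D e.1).2, e.2.2⟩)
  let ρ' : Fin m → {x : V₁ // x ≠ v} := fun a => ⟨ρ a, hv a⟩
  refine ⟨{x : V₁ // x ≠ v}, {e : E₁ // (D e).1 ≠ v ∧ (D e).2 ≠ v}, inferInstance,
    inferInstance, D', ρ', ?_, ?_, ?_⟩
  · have h1 : Nat.card {x : V₁ // x ≠ v} < Nat.card V₁ :=
      Finite.card_subtype_lt (x := v) (fun h => h rfl)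
    have h2 : Nat.card {e : E₁ // (D e).1 ≠ v ∧ (D e).2 ≠ v} ≤ Nat.card E₁ :=
      Finite.card_subtype_le _
    omega
  · refine ⟨fun x => if hx : x = v then none else some ⟨x, hx⟩, Subtype.val,
      ⟨⟨Subtype.val_injective, ?_, ?_, ?_⟩, ?_⟩, ?_⟩
    · rintro ⟨e, he1, he2⟩
      simp only [und, Sym2.map_mk, dif_neg he1, dif_neg he2, D']
    · rintro ⟨x, hx⟩
      exact ⟨x, dif_neg hx⟩
    · rintro x y ⟨w, hw⟩ hx hy
      have h1 : ∀ z, (if hz : z = v then (none : Option {x : V₁ // x ≠ v}) else some ⟨z, hz⟩) =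
          some ⟨w, hw⟩ → z = w := by
        intro z hz
        by_cases hzv : z = v
        · rw [dif_pos hzv] at hz
          cases hz
        · rw [dif_neg hzv] at hz
          exact congrArg Subtype.val (Option.some.inj hz)
      rw [h1 x hx, h1 y hy]
      exact Relation.ReflTransGen.refl
    · rintro ⟨e, he1, he2⟩
      exact ⟨dif_neg he1, dif_neg he2⟩
    · intro a
      exact dif_neg (hv a)
  · have hc : ∀ c : Fin m ⊕ U, Sum.map ρ id c =
        Sum.map (Subtype.val : {x : V₁ // x ≠ v} → V₁) (id : U → U) (Sum.map ρ' id c) := by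
      rintro (c | c) <;> rfl
    refine dminor_of_emb (S := glueD D' ρ' C) (T := glueD D ρ C)
      (emb := Sum.map Subtype.val id) (embE := Sum.map Subtype.val id)
      (Sum.map_injective.2 ⟨Subtype.val_injective, Function.injective_id⟩) ?_ h ?_ ?_
    · rintro (e | e)
      · rfl
      · exact Prod.ext (hc _) (hc _)
    · rintro (z | z) w hz
      · refine ⟨Sum.inl ⟨z, ?_⟩, rfl⟩
        rintro rfl
        rw [hβ] at hz
        cases hz
      · exact ⟨Sum.inr z, rfl⟩
    · rintro (e | e) a b ha hb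
      · refine ⟨Sum.inl ⟨e, ?_, ?_⟩, rfl⟩
        · intro hev
          have h1 : β (Sum.inl (D e).1) = some a := ha
          rw [hev, hβ] at h1
          cases h1
        · intro hev
          have h1 : β (Sum.inl (D e).2) = some b := hb
          rw [hev, hβ] at h1
          cases h1
      · exact ⟨Sum.inr e, rfl⟩

end Pool.Agent.Lib.MP_210493_lc
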