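import Pool.Agent.Lib.MP_210493_lc.DG.Sep

/-! Module DG-GridOut.  Large width gives a grid minor.

PROOF.  (1) `gridSets_of_wide`.  `exists_mesh` gives `kB` and `grid_or_K` gives `wB`
(both `Primrec₂`).  Put `κ k = kB (k*k) (wB (k*k) k) + 1`.  If `Wide S (κ k)` then (as
`kB t w ≤ κ k`) there is a mesh, so `HasK S (k*k)` or `Nonempty (GridModel S k)`.
`HasK`: use the branch sets `B (k * i + j)` (index `< k*k`; `ite` outside) for the cell `(i, j)`.
`GridModel`: the sets `X`, all statements from `Γ ≤ S` (`Conn.monoG`, `Touch.monoG`).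
(2) `gminor_grid_of_sets`.  For `e : GridE k` the sets of the two ends of `e` touch, so there are
`x ∈ X _ _`, `y ∈ X _ _` and an edge `ι e` of `G` with `G (ι e) = s(x, y)`, `x` in the set of
`e.1.1`, `y` in the set of `e.1.2` (`choose`).  `β v = some (i, j)` if `v ∈ X i j`
(`i, j < k`, unique by disjointness), `none` otherwise.  `ι` is injective: `G (ι e)` determines
the unordered pair `{e.1.1, e.1.2}`, and the condition defining `GridE` excludes that two
different elements have the same unordered pair.  `conn`: induction on `RIn (simp G) (X i j) x y`: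
a step `(simp G).Adj a b` with `a, b ∈ X i j` comes from an edge `e'` with `G e' = s(a, b)`, and
`e' ∉ range ι` because the ends of `ι e` lie in different sets. -/

namespace Pool.Agent.Lib.MP_210493_lc

open Set Pool.Agent.Lib.MP_4d119b_lc

theorem gridSets_of_wide : ∃ κ : ℕ → ℕ, Primrec κ ∧ (∀ k, 1 ≤ κ k) ∧
    ∀ (k : ℕ) (V : Type) [Finite V] (S : SimpleGraph V), Wide S (κ k) → GridSets S k := by
  obtain ⟨kB, hkB, hmesh⟩ := exists_mesh
  obtain ⟨wB, hwB, hgrid⟩ := grid_or_K
  refine ⟨fun k => kB (k * k) (wB (k * k) k) + 1, ?_, fun k => Nat.le_add_left 1 _, ?_⟩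
  · have h1 : Primrec (fun k : ℕ => k * k) := Primrec.nat_mul.comp Primrec.id Primrec.id
    exact Primrec.succ.comp (hkB.comp h1 (hwB.comp h1 Primrec.id))
  · intro k V _ S hS
    have hM := hmesh (k * k) (wB (k * k) k) _ (Nat.le_succ _) V S hS
    rcases hgrid (k * k) k V S hM with hK | hGM
    · obtain ⟨B, hB1, hB2, hB3⟩ := hK
      have hlt : ∀ i j, i < k → j < k → k * i + j < k * k := by
        intro i j hi hj
        have h1 : k * (i + 1) ≤ k * k := Nat.mul_le_mul_left k hi
        have h2 : k * (i + 1) = k * i + k := by ring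
        omega
      have hinj : ∀ i j i' j', j < k → j' < k → k * i + j = k * i' + j' → i = i' ∧ j = j' := by
        intro i j i' j' hj hj' h
        have hk : 0 < k := by omega
        have h1 : (k * i + j) / k = i := by
          rw [Nat.mul_add_div hk, Nat.div_eq_of_lt hj, add_zero]
        have h2 : (k * i' + j') / k = i' := by
          rw [Nat.mul_add_div hk, Nat.div_eq_of_lt hj', add_zero]
        have h3 : i = i' := by rw [← h1, ← h2, h]
        subst h3
        exact ⟨rfl, by omega⟩
      have hX : ∀ i j (hi : i < k) (hj : j < k),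
          (fun i j => if h : k * i + j < k * k then B ⟨k * i + j, h⟩ else (∅ : Set V)) i j =
            B ⟨k * i + j, hlt i j hi hj⟩ := by
        intro i j hi hj
        exact dif_pos (hlt i j hi hj)
      have hne : ∀ i j i' j' (hi : i < k) (hj : j < k) (hi' : i' < k) (hj' : j' < k),
          (i ≠ i' ∨ j ≠ j') →
          (⟨k * i + j, hlt i j hi hj⟩ : Fin (k * k)) ≠ ⟨k * i' + j', hlt i' j' hi' hj'⟩ := by
        intro i j i' j' hi hj hi' hj' h h2
        have h3 := hinj i j i' j' hj hj' (Fin.mk.inj h2)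
        rcases h with h | h
        · exact h h3.1
        · exact h h3.2
      refine ⟨fun i j => if h : k * i + j < k * k then B ⟨k * i + j, h⟩ else (∅ : Set V),
        ?_, ?_, ?_, ?_⟩
      · intro i j hi hj
        rw [hX i j hi hj]
        exact hB1 _
      · intro i j i' j' hi hj hi' hj' h
        rw [hX i j hi hj, hX i' j' hi' hj']
        exact hB2 _ _ (hne i j i' j' hi hj hi' hj' h)
      · intro i j hi hj
        rw [hX i j (by omega) hj, hX (i + 1) j hi hj]
        exact hB3 _ _ (hne i j (i + 1) j (by omega) hj hi hj (Or.inl (by omega)))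
      · intro i j hi hj
        rw [hX i j hi (by omega), hX i (j + 1) hi hj]
        exact hB3 _ _ (hne i j i (j + 1) hi (by omega) hi hj (Or.inr (by omega)))
    · obtain ⟨M⟩ := hGM
      exact ⟨M.X, fun i j hi hj => (M.conn i j hi hj).monoG M.le, M.disj,
        fun i j hi hj => (M.right i j hi hj).monoG M.le,
        fun i j hi hj => (M.down i j hi hj).monoG M.le⟩

theorem gminor_grid_of_sets {V E : Type} {G : Gra V E} {k : ℕ} (h : GridSets (simp G) k) :
    GMinor (grid k) G := by
  classical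
  obtain ⟨X, hc, hd, hr, hdn⟩ := h
  -- the touching of neighbouring cells
  have ht : ∀ e : GridE k, Touch (simp G) (X e.1.1.1 e.1.1.2) (X e.1.2.1 e.1.2.2) := by
    rintro ⟨⟨⟨a, b⟩, ⟨c, d⟩⟩, h⟩
    simp only at h ⊢
    rcases h with ⟨h1, h2⟩ | ⟨h1, h2⟩
    · subst h2
      have h3 := hr a b (by rw [h1]; exact c.2) b.2
      rw [h1] at h3
      exact h3
    · subst h1
      have h3 := hdn a b a.2 (by rw [h2]; exact d.2)
      rw [h2] at h3
      exact h3
  have ht2 : ∀ e : GridE k, ∃ f : E, ∃ x ∈ X e.1.1.1 e.1.1.2, ∃ y ∈ X e.1.2.1 e.1.2.2,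
      G f = s(x, y) := by
    intro e
    obtain ⟨x, hx, y, hy, -, f, hf⟩ := ht e
    exact ⟨f, x, hx, y, hy, hf⟩
  choose ι ex hex ey hey hι using ht2
  let β : V → Option (Fin k × Fin k) := fun v =>
    if h : ∃ p : Fin k × Fin k, v ∈ X p.1 p.2 then some h.choose else none
  have hβ : ∀ (v : V) (p : Fin k × Fin k), v ∈ X p.1 p.2 → β v = some p := by
    intro v p hv
    have h : ∃ p : Fin k × Fin k, v ∈ X p.1 p.2 := ⟨p, hv⟩
    change (if h : ∃ p : Fin k × Fin k, v ∈ X p.1 p.2 then some h.choose else none) = some p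
    rw [dif_pos h]
    congr 1
    by_contra hne
    have h1 : ((h.choose.1 : ℕ) ≠ (p.1 : ℕ)) ∨ ((h.choose.2 : ℕ) ≠ (p.2 : ℕ)) := by
      by_contra hcon
      push Not at hcon
      exact hne (Prod.ext (Fin.ext hcon.1) (Fin.ext hcon.2))
    exact Set.disjoint_left.1 (hd _ _ _ _ h.choose.1.2 h.choose.2.2 p.1.2 p.2.2 h1)
      h.choose_spec hv
  have hβ' : ∀ (v : V) (p : Fin k × Fin k), β v = some p → v ∈ X p.1 p.2 := by
    intro v p hv
    change (if h : ∃ p : Fin k × Fin k, v ∈ X p.1 p.2 then some h.choose else none) = some p at hv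
    by_cases h : ∃ p : Fin k × Fin k, v ∈ X p.1 p.2
    · rw [dif_pos h] at hv
      have h2 := h.choose_spec
      rw [Option.some.inj hv] at h2
      exact h2
    · rw [dif_neg h] at hv
      cases hv
  have hmap : ∀ e : GridE k, Sym2.map β (G (ι e)) = s(some e.1.1, some e.1.2) := by
    intro e
    rw [hι e, Sym2.map_mk, hβ _ e.1.1 (hex e), hβ _ e.1.2 (hey e)]
  refine ⟨β, ι, ⟨?_, ?_, ?_, ?_⟩⟩
  · intro e e' hee
    have h1 := hmap e
    rw [hee, hmap e', Sym2.eq_iff] at h1
    rcases h1 with ⟨h1, h2⟩ | ⟨h1, h2⟩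
    · exact Subtype.ext (Prod.ext (Option.some.inj h1).symm (Option.some.inj h2).symm)
    · exfalso
      have h3 : e'.1.1 = e.1.2 := Option.some.inj h1
      have h4 : e'.1.2 = e.1.1 := Option.some.inj h2
      have h5 := e.2
      have h6 := e'.2
      rw [h3, h4] at h6
      rcases h5 with ⟨h5, h7⟩ | ⟨h5, h7⟩ <;> rcases h6 with ⟨h6, h8⟩ | ⟨h6, h8⟩
      · omega
      · have := congrArg Fin.val h6
        omega
      · have := congrArg Fin.val h5
        omega
      · omega
  · intro e
    rw [hmap e]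
    rfl
  · intro v
    obtain ⟨x, hx⟩ := (hc v.1 v.2 v.1.2 v.2.2).1
    exact ⟨x, hβ x v hx⟩
  · intro x y v hx hy
    have hxy := (hc v.1 v.2 v.1.2 v.2.2).2 x (hβ' x v hx) y (hβ' y v hy)
    clear hy
    induction hxy with
    | refl => exact Relation.ReflTransGen.refl
    | tail _ hbc ih =>
      obtain ⟨⟨_, f, hf⟩, hb, hc'⟩ := hbc
      refine ih.tail ⟨hβ _ v hb, hβ _ v hc', f, ?_, hf⟩
      rintro ⟨e, rfl⟩
      have h1 := hmap e
      rw [hf, Sym2.map_mk, hβ _ v hb, hβ _ v hc', Sym2.eq_iff] at h1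
      have h2 : e.1.1 = e.1.2 := by
        rcases h1 with ⟨h1, h2⟩ | ⟨h1, h2⟩
        · exact (Option.some.inj h1).symm.trans (Option.some.inj h2)
        · exact (Option.some.inj h2).symm.trans (Option.some.inj h1)
      have h3 := e.2
      rw [h2] at h3
      rcases h3 with ⟨h3, _⟩ | ⟨_, h3⟩ <;> omega

end Pool.Agent.Lib.MP_210493_lc
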