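import Pool.Agent.Lib.MP_210493_lc.DG.Basic

/-! Module DG-Mult.  Multiplicities in an excluded minor are bounded.

PROOF of `mult_le`.  Suppose `{e | G e = s}` has at least `2n + 2` elements and let `e₀` be one
of them.  `G' : Gra V {e // e ≠ e₀}`, `G' e = G e.1`, is a minor of `G` (`β = some`,
`ι = Subtype.val`) with one edge less, so it has an orientation `D'` without a minor in `A`.
Write `s = s(a, b)`.  Each of the at least `2n + 1` edges `e ≠ e₀` with `G e = s` has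
`D' e = (a, b)` or `D' e = (b, a)`, so for `d = (a, b)` or `d = (b, a)` at least `n + 1` of them
have `D' e = d`; let `T` be the set of these edges `e : E`, `e ≠ e₀`, `(n + 1 ≤ T.ncard)`.
Let `D : Dig V E` be `D e = D' ⟨e, _⟩` for `e ≠ e₀`, `D e₀ = d`.  `und D = G`.  Since `G` is not
in the class, some `H ∈ A` is a minor of `D`, with model `(β, ι)`.  `ι` takes at most
`H.e ≤ n` values, so some `e₁ ∈ T` is not in `range ι`.  Let `τ` be the permutation of `E` which
swaps `e₀` and `e₁` if `e₀ ∈ range ι`, and the identity otherwise.  Then `D ∘ τ = D`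
(`D e₀ = d = D e₁`), so `(β, τ ∘ ι)` is a model of `H` in `D` (`conn`: replace the edge `e` of a
step by `τ e`), and `e₀ ∉ range (τ ∘ ι)`.  Again some `e₂ ∈ T` is not in `range (τ ∘ ι)`.
So `(β, ι')`, `ι' e = ⟨τ (ι e), _⟩`, is a model of `H` in `D'`: in `conn` a step by `e₀` is
replaced by a step by `e₂` (same ends, `e₂ ≠ e₀`, `e₂ ∉ range`).  Contradiction.

PROOF of `card_edges_le`.  `Nat.card E = Σ_{s : Sym2 V} #{e | G e = s} ≤ |Sym2 V| (2n+1)` (e.g.
`Finset.card_le_mul_card_image`, or `Nat.card` of a sigma type over fibres), and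
`|Sym2 V| ≤ |V|^2` because `V × V → Sym2 V` is surjective. -/

namespace Pool.Agent.Lib.MP_210493_lc

open Set

private theorem Mult_perm {V' E' V E : Type} {H : Dig V' E'} {D : Dig V E} {β : V → Option V'}
    {ι : E' → E} (h : IsDModel H D β ι) (τ : Equiv.Perm E) (hτ : ∀ e, D (τ e) = D e) :
    IsDModel H D β (τ ∘ ι) := by
  have hu : ∀ e, und D (τ e) = und D e := fun e => by
    unfold und
    rw [hτ]
  refine ⟨⟨τ.injective.comp h.1.inj, fun e => ?_, h.1.ne, fun x y v hx hy => ?_⟩, fun e => ?_⟩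
  · rw [Function.comp_apply, hu]
    exact h.1.ends e
  · refine Relation.ReflTransGen.mono ?_ x y (h.1.conn x y v hx hy)
    rintro a b ⟨ha, hb, e, he, hee⟩
    refine ⟨ha, hb, τ e, ?_, (hu e).trans hee⟩
    rintro ⟨f, hf⟩
    exact he ⟨f, τ.injective hf⟩
  · rw [Function.comp_apply, hτ]
    exact h.2 e

private theorem Mult_restrict {V' E' V E : Type} {H : Dig V' E'} {D : Dig V E}
    {β : V → Option V'} {ι : E' → E} (h : IsDModel H D β ι) {e₀ e₂ : E} (h0 : e₀ ∉ range ι)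
    (h2 : e₂ ∉ range ι) (hne : e₂ ≠ e₀) (hD : D e₂ = D e₀) :
    IsDModel H (fun e : {e // e ≠ e₀} => D e.1) β
      (fun f => ⟨ι f, fun hf => h0 ⟨f, hf⟩⟩) := by
  refine ⟨⟨fun f g hfg => h.1.inj (Subtype.ext_iff.1 hfg), fun e => h.1.ends e, h.1.ne,
    fun x y v hx hy => ?_⟩, fun e => h.2 e⟩
  refine Relation.ReflTransGen.mono ?_ x y (h.1.conn x y v hx hy)
  rintro a b ⟨ha, hb, e, he, hee⟩
  by_cases hc : e = e₀
  · refine ⟨ha, hb, ⟨e₂, hne⟩, ?_, ?_⟩
    · rintro ⟨f, hf⟩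
      exact h2 ⟨f, Subtype.ext_iff.1 hf⟩
    · rw [← hee, hc]
      show s((D e₂).1, (D e₂).2) = s((D e₀).1, (D e₀).2)
      rw [hD]
  · refine ⟨ha, hb, ⟨e, hc⟩, ?_, hee⟩
    rintro ⟨f, hf⟩
    exact he ⟨f, Subtype.ext_iff.1 hf⟩

private theorem Mult_exists {E : Type} [Finite E] {m : ℕ} (T : Set E) (ι : Fin m → E)
    (h : m < T.ncard) : ∃ e ∈ T, e ∉ range ι := by
  by_contra hc
  push Not at hc
  have h1 : T.ncard ≤ (range ι).ncard := ncard_le_ncard hc (toFinite _)
  have h2 : (range ι).ncard ≤ m := by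
    rw [← image_univ]
    refine (ncard_image_le (toFinite _)).trans ?_
    rw [ncard_univ, Nat.card_eq_fintype_card, Fintype.card_fin]
  omega

theorem mult_le {V E : Type} [Finite V] [Finite E] {A : Set Code} {n : ℕ}
    (hA : ∀ H ∈ A, H.size ≤ n) {G : Gra V E} (hG : Excluded A G) (s : Sym2 V) :
    {e | G e = s}.ncard ≤ 2 * n + 1 := by
  classical
  by_contra hlt
  rw [not_le] at hlt
  obtain ⟨⟨a, b⟩, rfl⟩ := Quot.exists_rep s
  change 2 * n + 1 < {e | G e = s(a, b)}.ncard at hlt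
  have hne : {e | G e = s(a, b)}.Nonempty := by
    apply nonempty_of_ncard_ne_zero
    omega
  obtain ⟨e₀, he₀⟩ := hne
  have he₀' : G e₀ = s(a, b) := he₀
  -- the graph without `e₀`
  have hmin : GMinor (fun e : {e // e ≠ e₀} => G e.1) G := by
    refine ⟨some, Subtype.val, Subtype.val_injective, fun e => rfl, fun v => ⟨v, rfl⟩, ?_⟩
    intro x y v hx hy
    rw [Option.some.inj hx, Option.some.inj hy]
    exact Relation.ReflTransGen.refl
  have hcard : Nat.card V + Nat.card {e // e ≠ e₀} < Nat.card V + Nat.card E :=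
    Nat.add_lt_add_left (Finite.card_subtype_lt (x := e₀) (by simp)) _
  obtain ⟨D', hD', hfree⟩ := hG.2 V {e // e ≠ e₀} _ hmin hcard
  -- the majority orientation
  have hsplit : {e | G e = s(a, b)} \ {e₀} ⊆
      {e | ∃ h : e ≠ e₀, D' ⟨e, h⟩ = (a, b)} ∪ {e | ∃ h : e ≠ e₀, D' ⟨e, h⟩ = (b, a)} := by
    rintro e ⟨he, hne⟩
    have hne' : e ≠ e₀ := hne
    have h1 : s((D' ⟨e, hne'⟩).1, (D' ⟨e, hne'⟩).2) = s(a, b) := by
      have h2 := congrFun hD' ⟨e, hne'⟩
      exact h2.trans he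
    rw [Sym2.eq_iff] at h1
    rcases h1 with ⟨h1, h2⟩ | ⟨h1, h2⟩
    · exact Or.inl ⟨hne', Prod.ext h1 h2⟩
    · exact Or.inr ⟨hne', Prod.ext h1 h2⟩
  have hc1 : 2 * n + 1 ≤ ({e | G e = s(a, b)} \ {e₀}).ncard := by
    have := ncard_sdiff_singleton_add_one he₀ (toFinite _)
    omega
  have hc2 := (ncard_le_ncard hsplit (toFinite _)).trans (ncard_union_le _ _)
  obtain ⟨d, hd, hT⟩ : ∃ d : V × V, s(d.1, d.2) = s(a, b) ∧
      n + 1 ≤ {e | ∃ h : e ≠ e₀, D' ⟨e, h⟩ = d}.ncard := by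
    by_cases hh : n + 1 ≤ {e | ∃ h : e ≠ e₀, D' ⟨e, h⟩ = (a, b)}.ncard
    · exact ⟨(a, b), rfl, hh⟩
    · exact ⟨(b, a), Sym2.eq_swap, by omega⟩
  set T : Set E := {e | ∃ h : e ≠ e₀, D' ⟨e, h⟩ = d} with hTdef
  set D : Dig V E := fun e => if h : e = e₀ then d else D' ⟨e, h⟩ with hDdef
  have hDe₀ : D e₀ = d := by simp [hDdef]
  have hDe : ∀ e (h : e ≠ e₀), D e = D' ⟨e, h⟩ := fun e h => by simp [hDdef, h]
  have hDT : ∀ e ∈ T, D e = D e₀ := by
    rintro e ⟨h, he⟩
    rw [hDe₀, hDe e h, he]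
  have hTne : ∀ e ∈ T, e ≠ e₀ := fun e he => he.1
  have hund : und D = G := by
    funext e
    by_cases h : e = e₀
    · rw [h, he₀', ← hd, ← hDe₀]
      rfl
    · have h2 := congrFun hD' ⟨e, h⟩
      change s((D e).1, (D e).2) = G e
      rw [hDe e h]
      exact h2
  have hD'eq : (fun e : {e // e ≠ e₀} => D e.1) = D' := by
    funext e
    exact hDe e.1 e.2
  have hnot : ¬ ∀ H ∈ A, ¬ DMinor H.arc D := fun h => hG.1 ⟨D, hund, h⟩
  push Not at hnot
  obtain ⟨H, hH, β, ι, hm⟩ := hnot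
  have hHe : H.e < T.ncard := by
    have := hA H hH
    unfold Code.size at this
    omega
  obtain ⟨ι₁, hm₁, h0⟩ : ∃ ι₁ : Fin H.e → E, IsDModel H.arc D β ι₁ ∧ e₀ ∉ range ι₁ := by
    by_cases hr : e₀ ∈ range ι
    · obtain ⟨e₁, he₁T, he₁⟩ := Mult_exists T ι hHe
      refine ⟨Equiv.swap e₀ e₁ ∘ ι, Mult_perm hm (Equiv.swap e₀ e₁) ?_, ?_⟩
      · intro e
        by_cases h1 : e = e₀
        · rw [h1, Equiv.swap_apply_left, hDT e₁ he₁T]
        · by_cases h2 : e = e₁
          · rw [h2, Equiv.swap_apply_right, hDT e₁ he₁T]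
          · rw [Equiv.swap_apply_of_ne_of_ne h1 h2]
      · rintro ⟨f, hf⟩
        rw [Function.comp_apply, Equiv.swap_apply_eq_iff, Equiv.swap_apply_left] at hf
        exact he₁ ⟨f, hf⟩
    · exact ⟨ι, hm, hr⟩
  obtain ⟨e₂, he₂T, he₂⟩ := Mult_exists T ι₁ hHe
  have hfin := Mult_restrict hm₁ h0 he₂ (hTne e₂ he₂T) (hDT e₂ he₂T)
  rw [hD'eq] at hfin
  exact hfree H hH ⟨_, _, hfin⟩

theorem card_edges_le {V E : Type} [Finite V] [Finite E] {A : Set Code} {n : ℕ}
    (hA : ∀ H ∈ A, H.size ≤ n) {G : Gra V E} (hG : Excluded A G) :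
    Nat.card E ≤ Nat.card V ^ 2 * (2 * n + 1) := by
  classical
  have := Fintype.ofFinite V
  have := Fintype.ofFinite E
  have := Fintype.ofFinite (Sym2 V)
  have h1 : (Finset.univ : Finset E).card ≤ (2 * n + 1) * (Finset.univ.image G).card := by
    apply Finset.card_le_mul_card_image
    intro s _
    have h2 := mult_le hA hG s
    rw [ncard_eq_toFinset_card'] at h2
    refine le_trans (le_of_eq ?_) h2
    congr 1
    ext e
    simp
  have h3 : (Finset.univ.image G).card ≤ Nat.card V ^ 2 := by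
    have h4 : (Finset.univ.image G).card ≤
        ((Finset.univ : Finset (V × V)).image (fun x => s(x.1, x.2))).card := by
      apply Finset.card_le_card
      intro z hz
      rw [Finset.mem_image]
      induction z with
      | h x y => exact ⟨(x, y), Finset.mem_univ _, rfl⟩
    refine h4.trans (Finset.card_image_le.trans ?_)
    rw [Finset.card_univ, Fintype.card_prod, Nat.card_eq_fintype_card, sq]
  rw [Nat.card_eq_fintype_card (α := E), ← Finset.card_univ]
  refine h1.trans ?_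
  rw [mul_comm]
  exact Nat.mul_le_mul_right _ h3

end Pool.Agent.Lib.MP_210493_lc
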