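import Pool.Agent.Lib.MP_210493_lc.DG.Sep

/-! Module DG-MinBi.  A digraph whose underlying graph is a minor of the grid is a minor of the
grid with all edges replaced by two opposite arcs.

PROOF.  Let `(β, ι)` be a model of `und H` in `grid k`.  For an arc `e` of `H`,
`Sym2.map β (s(x, y)) = s(some (H e).1, some (H e).2)` with `(x, y) = (ι e).1`, so
`β x = some (H e).1 ∧ β y = some (H e).2` (take `ι' e = (ι e, true)`) or
`β x = some (H e).2 ∧ β y = some (H e).1` (take `ι' e = (ι e, false)`).  Same `β`.  `conn`: an edge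
`e' ∉ range ι` of the grid gives the arc `(e', true) ∉ range ι'` with the same ends. -/

namespace Pool.Agent.Lib.MP_210493_lc

open Set

private theorem und_bigrid {k : ℕ} (e : GridE k) (b : Bool) : und (bigrid k) (e, b) = grid k e := by
  cases b
  · simp only [und, bigrid, grid, Bool.false_eq_true, if_false]
    exact Sym2.eq_swap
  · simp only [und, bigrid, grid, if_true]

open Classical in
theorem dminor_bigrid {V' E' : Type} {H : Dig V' E'} {k : ℕ} (h : GMinor (und H) (grid k)) :
    DMinor H (bigrid k) := by
  obtain ⟨β, ι, hm⟩ := h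
  let ι' : E' → GridE k × Bool := fun e =>
    (ι e, decide (β (ι e).1.1 = some (H e).1 ∧ β (ι e).1.2 = some (H e).2))
  have hends : ∀ e, (β (ι e).1.1 = some (H e).1 ∧ β (ι e).1.2 = some (H e).2) ∨
      (β (ι e).1.1 = some (H e).2 ∧ β (ι e).1.2 = some (H e).1) := by
    intro e
    have h1 := hm.ends e
    simp only [grid, und, Sym2.map_mk, Sym2.eq_iff] at h1
    exact h1
  refine ⟨β, ι', ⟨?_, ?_, hm.ne, ?_⟩, ?_⟩
  · intro e e' he
    exact hm.inj (congrArg Prod.fst he)
  · intro e
    show Sym2.map β (und (bigrid k) (ι e, _)) = _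
    rw [und_bigrid]
    exact hm.ends e
  · intro x y v hx hy
    have hj := hm.conn x y v hx hy
    unfold Joined at hj ⊢
    refine Relation.ReflTransGen.mono ?_ _ _ hj
    rintro a b ⟨ha, hb, e, he, hab⟩
    refine ⟨ha, hb, (e, true), ?_, ?_⟩
    · rintro ⟨e', he'⟩
      exact he ⟨e', congrArg Prod.fst he'⟩
    · rw [und_bigrid]
      exact hab
  · intro e
    by_cases hc : β (ι e).1.1 = some (H e).1 ∧ β (ι e).1.2 = some (H e).2
    · have h2 : ι' e = (ι e, true) := by
        simp only [ι', decide_eq_true hc]
      rw [h2]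
      simpa only [bigrid, if_true] using hc
    · have h2 : ι' e = (ι e, false) := by
        simp only [ι', decide_eq_false hc]
      rw [h2]
      have h3 := (hends e).resolve_left hc
      simp only [bigrid, Bool.false_eq_true, if_false]
      exact ⟨h3.2, h3.1⟩

end Pool.Agent.Lib.MP_210493_lc
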