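import Pool.Agent.Lib.MP_210493_lc.DG.BiGrid
import Pool.Agent.Lib.MP_210493_lc.DG.MinBi

/-! Module DG-Planar.  If a member of `A` is a minor of the `k × k` grid (as a graph) then no
excluded minor contains the `(10k+1) × (10k+1)` grid.

PROOF.  (1) `GridSets (simp (grid R)) R`: `X i j = {(i, j)}` (if `i, j < R`), neighbours touch by
the corresponding edge of `GridE R`.
(2) `GMinor (grid k) (grid (k+1))`: `β (i, j) = some (i, j)` if `i, j < k`, else `none`,
`ι` the obvious map (`Fin.castSucc` on all coordinates); branch sets are single vertices.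
(3) `GMinor G' G → Nat.card V' ≤ Nat.card V ∧ Nat.card E' ≤ Nat.card E` (`β` is onto the `some`s;
`ι` is injective), and `Nat.card (Fin R × Fin R) = R * R`, so
`Nat.card (vertices of grid (10k)) + Nat.card (GridE (10k)) < Nat.card V + Nat.card E` if
`grid (10k+1)` is a minor of `G` (compare with `grid (10k+1)` by (2), the number of vertices
is strictly larger).
(4) So `grid (10k)` would be a proper minor of `G`, hence in the class: an orientation `O` of it
has no minor in `A`.  But by (1) (`und O = grid (10k)`), `biSets_of_gridSets`,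
`bigrid_of_sets` and `dminor_bigrid` the digraph `H` is a minor of `O`. -/

namespace Pool.Agent.Lib.MP_210493_lc

open Set Pool.Agent.Lib.MP_4d119b_lc

private theorem planar_gridSets (R : ℕ) : GridSets (simp (grid R)) R := by
  refine ⟨fun i j => {v : Fin R × Fin R | v.1.1 = i ∧ v.2.1 = j}, ?_, ?_, ?_, ?_⟩
  · intro i j hi hj
    have h : {v : Fin R × Fin R | v.1.1 = i ∧ v.2.1 = j} = {((⟨i, hi⟩ : Fin R), (⟨j, hj⟩ : Fin R))} := by
      ext v
      simp only [mem_ofPred_eq, mem_singleton_iff, Prod.ext_iff, Fin.ext_iff]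
    beta_reduce
    rw [h]
    exact conn_singleton _ _
  · intro i j i' j' _ _ _ _ hne
    rw [disjoint_left]
    rintro v ⟨h1, h2⟩ ⟨h3, h4⟩
    rcases hne with h | h
    · exact h (h1.symm.trans h3)
    · exact h (h2.symm.trans h4)
  · intro i j hi hj
    have hi' : i < R := by omega
    refine ⟨(⟨i, hi'⟩, ⟨j, hj⟩), ⟨rfl, rfl⟩, (⟨i + 1, hi⟩, ⟨j, hj⟩), ⟨rfl, rfl⟩, ?_, ?_⟩
    · intro h
      rw [Prod.mk.injEq, Fin.mk.injEq] at h
      omega
    · exact ⟨⟨((⟨i, hi'⟩, ⟨j, hj⟩), (⟨i + 1, hi⟩, ⟨j, hj⟩)), Or.inl ⟨rfl, rfl⟩⟩, rfl⟩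
  · intro i j hi hj
    have hj' : j < R := by omega
    refine ⟨(⟨i, hi⟩, ⟨j, hj'⟩), ⟨rfl, rfl⟩, (⟨i, hi⟩, ⟨j + 1, hj⟩), ⟨rfl, rfl⟩, ?_, ?_⟩
    · intro h
      rw [Prod.mk.injEq, Fin.mk.injEq, Fin.mk.injEq] at h
      omega
    · exact ⟨⟨((⟨i, hi⟩, ⟨j, hj'⟩), (⟨i, hi⟩, ⟨j + 1, hj⟩)), Or.inr ⟨rfl, rfl⟩⟩, rfl⟩

/-- the part of the grid with coordinates less than `k` -/
private def planarB (k : ℕ) (v : Fin (k + 1) × Fin (k + 1)) : Option (Fin k × Fin k) :=
  if h : v.1.1 < k ∧ v.2.1 < k then some (⟨v.1.1, h.1⟩, ⟨v.2.1, h.2⟩) else none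

/-- the edges of the small grid in the large one -/
private def planarI (k : ℕ) (e : GridE k) : GridE (k + 1) :=
  ⟨((e.1.1.1.castSucc, e.1.1.2.castSucc), (e.1.2.1.castSucc, e.1.2.2.castSucc)), by
    rcases e.2 with ⟨h1, h2⟩ | ⟨h1, h2⟩
    · exact Or.inl ⟨h1, congrArg Fin.castSucc h2⟩
    · exact Or.inr ⟨congrArg Fin.castSucc h1, h2⟩⟩

private theorem planarB_cast (k : ℕ) (a : Fin k × Fin k) :
    planarB k (a.1.castSucc, a.2.castSucc) = some a := by
  unfold planarB
  rw [dif_pos ⟨a.1.2, a.2.2⟩]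
  rfl

private theorem planarB_inj (k : ℕ) {x y : Fin (k + 1) × Fin (k + 1)} {v : Fin k × Fin k}
    (hx : planarB k x = some v) (hy : planarB k y = some v) : x = y := by
  have key : ∀ z : Fin (k + 1) × Fin (k + 1), planarB k z = some v →
      z = (v.1.castSucc, v.2.castSucc) := by
    intro z hz
    unfold planarB at hz
    split_ifs at hz with h
    have h1 := Option.some.inj hz
    rw [← h1]
    rfl
  rw [key x hx, key y hy]

private theorem planar_succ (k : ℕ) : GMinor (grid k) (grid (k + 1)) := by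
  refine ⟨planarB k, planarI k, ⟨?_, ?_, ?_, ?_⟩⟩
  · intro e e' h
    have h1 := congrArg Subtype.val h
    simp only [planarI, Prod.mk.injEq, Fin.castSucc_inj] at h1
    obtain ⟨⟨h1, h2⟩, h3, h4⟩ := h1
    exact Subtype.ext (Prod.ext (Prod.ext h1 h2) (Prod.ext h3 h4))
  · intro e
    change s(planarB k (e.1.1.1.castSucc, e.1.1.2.castSucc),
      planarB k (e.1.2.1.castSucc, e.1.2.2.castSucc)) = s(some e.1.1, some e.1.2)
    rw [planarB_cast, planarB_cast]
  · intro v
    exact ⟨_, planarB_cast k v⟩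
  · intro x y v hx hy
    rw [planarB_inj k hx hy]
    exact Relation.ReflTransGen.refl

private theorem planar_card {V' E' V E : Type} [Finite V] [Finite E] {G' : Gra V' E'}
    {G : Gra V E} (h : GMinor G' G) : Nat.card V' ≤ Nat.card V ∧ Nat.card E' ≤ Nat.card E := by
  obtain ⟨β, ι, h⟩ := h
  constructor
  · choose f hf using h.ne
    refine Nat.card_le_card_of_injective f ?_
    intro a b hab
    have h1 := hf a
    rw [hab, hf b] at h1
    exact (Option.some.inj h1).symm
  · exact Nat.card_le_card_of_injective ι h.inj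

private theorem planar_cardV (R : ℕ) : Nat.card (Fin R × Fin R) = R * R := by
  rw [Nat.card_prod, Nat.card_eq_fintype_card, Fintype.card_fin]

theorem no_big_grid {V E : Type} [Finite V] [Finite E] {A : Set Code} {G : Gra V E} {k : ℕ}
    (hG : Excluded A G) (hk : ∃ H ∈ A, GMinor (und H.arc) (grid k)) :
    ¬ GMinor (grid (10 * k + 1)) G := by
  intro hm
  obtain ⟨H, hHA, hH⟩ := hk
  have h1 := planar_succ (10 * k)
  have c1 := planar_card h1
  have c2 := planar_card hm
  rw [planar_cardV] at c2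
  have hlt : Nat.card (Fin (10 * k) × Fin (10 * k)) + Nat.card (GridE (10 * k)) <
      Nat.card V + Nat.card E := by
    rw [planar_cardV]
    have h2 : 10 * k * (10 * k) < (10 * k + 1) * (10 * k + 1) := by nlinarith
    have h3 := c1.2
    have h4 := c2.1
    have h5 := c2.2
    omega
  obtain ⟨D, hD, hA⟩ := hG.2 _ _ (grid (10 * k)) (h1.trans hm) hlt
  have h2 : GridSets (simp (und D)) (10 * k) := by
    rw [hD]
    exact planar_gridSets (10 * k)
  exact hA H hHA ((dminor_bigrid hH).trans (bigrid_of_sets (biSets_of_gridSets h2)))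

end Pool.Agent.Lib.MP_210493_lc
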