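import Pool.Agent.Lib.MP_210493_lc.DG.Verts
import Pool.Agent.Lib.MP_210493_lc.DG.GridOut
import Pool.Agent.Lib.MP_210493_lc.DG.Planar
import Pool.Agent.Lib.MP_210493_lc.DG.Mult

/-! The main theorem. -/

namespace Pool.Agent.Lib.MP_210493_lc

open Set Pool.Agent.Lib.MP_4d119b_lc

section primrec

variable {α : Type} [Primcodable α]

private theorem pr_pow {f g : α → ℕ} (hf : Primrec f) (hg : Primrec g) :
    Primrec fun a => f a ^ g a :=
  Pool.Agent.Lib.MP_4d119b_lc.Grid.primrec_pow.comp hf hg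

private theorem pr_mul {f g : α → ℕ} (hf : Primrec f) (hg : Primrec g) :
    Primrec fun a => f a * g a :=
  Primrec.nat_mul.comp hf hg

private theorem pr_add {f g : α → ℕ} (hf : Primrec f) (hg : Primrec g) :
    Primrec fun a => f a + g a :=
  Primrec.nat_add.comp hf hg

private theorem pr_patB {f g h : α → ℕ} (hf : Primrec f) (hg : Primrec g) (hh : Primrec h) :
    Primrec fun a => patB (f a) (g a) (h a) := by
  have h1 : Primrec fun a => g a + 1 := pr_add hg (Primrec.const 1)
  have h2 : Primrec fun a => h a + 1 := pr_add hh (Primrec.const 1)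
  have h3 : Primrec fun a => g a * g a + 1 := pr_add (pr_mul hg hg) (Primrec.const 1)
  exact pr_mul h1 (pr_mul h2 (pr_mul (pr_pow h3 hh) (pr_pow h1 hf)))

private theorem pr_clsB {f g : α → ℕ} (hf : Primrec f) (hg : Primrec g) :
    Primrec fun a => clsB (f a) (g a) :=
  pr_pow (Primrec.const 2) (pr_pow (Primrec.const 2)
    (pr_patB hf (pr_add hf hg) (pr_add hg (pr_mul hf hf))))

private theorem pr_vertB {f g : α → ℕ} (hf : Primrec f) (hg : Primrec g) :
    Primrec fun a => vertB (f a) (g a) := by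
  have h1 : Primrec fun a => 3 * f a := pr_mul (Primrec.const 3) hf
  exact pr_mul h1 (pr_pow (Primrec.const 2) (pr_pow (pr_add (pr_clsB h1 hg) (Primrec.const 1))
    (pr_add h1 (Primrec.const 1))))

end primrec

/-- the bound, for a given width function `κ` -/
def sizeB (κ : ℕ → ℕ) (n k : ℕ) : ℕ :=
  vertB (κ k) n + vertB (κ k) n ^ 2 * (2 * n + 1)

private theorem primrec_sizeB {κ : ℕ → ℕ} (hκ : Primrec κ) {α : Type} [Primcodable α]
    {f g : α → ℕ} (hf : Primrec f) (hg : Primrec g) : Primrec fun a => sizeB κ (f a) (g a) := by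
  have h1 : Primrec fun a => vertB (κ (g a)) (f a) := pr_vertB (hκ.comp hg) hf
  exact pr_add h1 (pr_mul (pr_pow h1 (Primrec.const 2))
    (pr_add (pr_mul (Primrec.const 2) hf) (Primrec.const 1)))

/-- The size of an excluded minor is bounded in terms of the sizes of the excluded digraphs and of
its largest grid minor; if an excluded digraph has an underlying graph that is a minor of the
`k × k` grid then there is an absolute bound. -/
theorem main : ∃ f : ℕ → ℕ → ℕ, Primrec₂ f ∧
    ∀ (n : ℕ) (A : Set Code), (∀ H ∈ A, H.size ≤ n) →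
    ∀ (V E : Type) [Finite V] [Finite E] (G : Gra V E), Excluded A G → ∀ k : ℕ,
      (¬ GMinor (grid k) G → Nat.card V + Nat.card E ≤ f n k) ∧
      ((∃ H ∈ A, GMinor (und H.arc) (grid k)) → Nat.card V + Nat.card E ≤ f n (10 * k + 1)) := by
  obtain ⟨κ, hκ, hκ1, hw⟩ := gridSets_of_wide
  have hfst : Primrec fun a : ℕ × ℕ => a.1 := Primrec.fst
  have hsnd : Primrec fun a : ℕ × ℕ => a.2 := Primrec.snd
  refine ⟨sizeB κ, primrec_sizeB hκ hfst hsnd, ?_⟩
  intro n A hA V E _ _ G hG k
  have key : ∀ k, ¬ GMinor (grid k) G → Nat.card V + Nat.card E ≤ sizeB κ n k := by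
    intro k hk
    have h1 : ¬ Wide (simp G) (κ k) := fun h => hk (gminor_grid_of_sets (hw k V (simp G) h))
    have h2 := card_verts_lt hA hG (hκ1 k) h1
    have h3 := card_edges_le hA hG
    unfold sizeB
    have h4 : Nat.card V ^ 2 ≤ vertB (κ k) n ^ 2 := Nat.pow_le_pow_left h2.le 2
    calc Nat.card V + Nat.card E ≤ vertB (κ k) n + Nat.card V ^ 2 * (2 * n + 1) :=
          add_le_add h2.le h3
      _ ≤ _ := Nat.add_le_add_left (Nat.mul_le_mul_right _ h4) _
  exact ⟨key k, fun hk => key _ (no_big_grid hG hk)⟩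

end Pool.Agent.Lib.MP_210493_lc
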