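import Pool.Agent.Lib.MP_210493_lc.DG.Sep

/-! Module DG-LinkR.  A linked pair gives a rooted minor.

PROOF.  Let `P : Fin m → GP (simp G)` be the paths.  `i ↦ (P i).p 0` is an injective map
`Fin m → bd X` (disjointness of supports) and `(bd X).ncard = m`, so it is onto `bd X`; the same
for `i ↦ (P i).p (P i).len` and `bd Y`.  So for every `a : Fin m` there is a unique `i = π a` with
`(P i).p 0 = ρ a`; `π` is injective (`ρ` is), hence a bijection of `Fin m`.  Put
`σ a = ⟨(P (π a)).p (P (π a)).len, _⟩` (in `Y`).  It is injective with range `bd Y`.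
Minor model of `restr G X` in `restr G Y`: kept edges: `ι ⟨e, he⟩ = ⟨e, fun v hv => hXY (he v hv)⟩`.
`β : Y → Option X`: `β v = some ⟨v, _⟩` if `v ∈ X`; `β v = some (ρ a)` if `v ∉ X` and
`v ∈ (P (π a)).supp` for some (unique) `a`; `none` otherwise.
`ends`: for an edge inside `X`, `β` is `some` of the identity on its ends, use
`Sym2.attachWith`, `Sym2.map_map` (write `G e = s(x, y)`).
`ne`: the vertex itself.  `conn`: let `v : X`, `x, y : Y` with `β x = β y = some v`.  It is enough
that every `x` with `β x = some v` is joined to `⟨v, _⟩` inside `{z | β z = some v}` by edges not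
in `range ι`.  If `x ∈ X` then `x = v`, refl.  Otherwise `v = ρ a` and `x = (P i).p j`,
`i = π a`, `0 < j` (as `(P i).p 0 = ρ a ∈ X`).  By induction on `j' ≤ j`: `(P i).p j'` is joined to
`(P i).p 0`: the edge `e` of `G` with ends `(P i).p j'`, `(P i).p (j'+1)` (from
`(simp G).Adj`) has both ends in `(P i).supp ⊆ Y`, and `(P i).p (j'+1) ∉ X`, so the edge is not in
`range ι` (all ends of the edges in `range ι` are in `X`); all these vertices have
`β = some (ρ a)` (for `j' = 0` because `(P i).p 0 = ρ a ∈ X`).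
Roots: `β (σ a) = some (ρ a)`: if `(P i).len = 0` then `σ a = (P i).p 0 = ρ a ∈ X`, otherwise
`σ a ∉ X` is in the support of `P (π a)`. -/

namespace Pool.Agent.Lib.MP_210493_lc

open Set Pool.Agent.Lib.MP_4d119b_lc

private theorem range_eq_of_inj {V : Type} [Finite V] {m : ℕ} {B : Set V} (f : Fin m → V)
    (hf : Function.Injective f) (hB : ∀ i, f i ∈ B) (hc : B.ncard = m) : range f = B := by
  apply Set.eq_of_subset_of_ncard_le
  · rintro _ ⟨i, rfl⟩
    exact hB i
  · rw [hc]
    have : (range f).ncard = m := by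
      rw [← Nat.card_coe_set_eq, Nat.card_range_of_injective hf, Nat.card_eq_fintype_card,
        Fintype.card_fin]
    rw [this]
  · exact Set.toFinite _

theorem linked_rooted {V E : Type} [Finite V] (G : Gra V E) {X Y : Set V} {m : ℕ} (hXY : X ⊆ Y)
    (h : Linked (simp G) X Y m) (ρ : Fin m → X) (hρ : Function.Injective ρ)
    (hr : range (fun a => (ρ a : V)) = bd (simp G) X) :
    ∃ σ : Fin m → Y, Function.Injective σ ∧ range (fun a => (σ a : V)) = bd (simp G) Y ∧
      RGMinor (restr G X) ρ (restr G Y) σ := by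
  classical
  obtain ⟨hcX, hcY, P, hP, hdis⟩ := h
  have huniq : ∀ i j v, v ∈ (P i).supp → v ∈ (P j).supp → i = j := by
    intro i j v hi hj
    by_contra hne
    exact (Set.disjoint_left.1 (hdis i j hne)) hi hj
  have hs0 : ∀ i, (P i).p 0 ∈ (P i).supp := fun i => ⟨0, Nat.zero_le _, rfl⟩
  have hs1 : ∀ i, (P i).p (P i).len ∈ (P i).supp := fun i => ⟨_, le_rfl, rfl⟩
  have hinj0 : Function.Injective (fun i => (P i).p 0) := by
    intro i j hij
    simp only at hij
    exact huniq i j _ (hs0 i) (hij ▸ hs0 j)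
  have hinj1 : Function.Injective (fun i => (P i).p (P i).len) := by
    intro i j hij
    simp only at hij
    exact huniq i j _ (hs1 i) (hij ▸ hs1 j)
  have hr0 := range_eq_of_inj (fun i => (P i).p 0) hinj0 (fun i => (hP i).1) hcX
  have hr1 := range_eq_of_inj (fun i => (P i).p (P i).len) hinj1 (fun i => (hP i).2.1) hcY
  have hπ : ∀ a, ∃ i, (P i).p 0 = (ρ a : V) := by
    intro a
    have : (ρ a : V) ∈ bd (simp G) X := by
      rw [← hr]
      exact ⟨a, rfl⟩
    rw [← hr0] at this
    exact this
  choose π hπ using hπ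
  have hπi : Function.Injective π := by
    intro a b hab
    apply hρ
    apply Subtype.ext
    rw [← hπ a, ← hπ b, hab]
  have hπs : Function.Surjective π := Finite.injective_iff_surjective.1 hπi
  have hYm : ∀ i, (P i).p (P i).len ∈ Y := fun i => (hP i).2.2.2 (hs1 i)
  refine ⟨fun a => ⟨(P (π a)).p (P (π a)).len, hYm _⟩, ?_, ?_, ?_⟩
  · intro a b hab
    apply hπi
    apply hinj1
    exact congrArg Subtype.val hab
  · rw [← hr1]
    ext v
    constructor
    · rintro ⟨a, rfl⟩
      exact ⟨π a, rfl⟩
    · rintro ⟨i, rfl⟩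
      obtain ⟨a, rfl⟩ := hπs i
      exact ⟨a, rfl⟩
  -- the model
  let β : Y → Option X := fun v =>
    if hv : (v : V) ∈ X then some ⟨v, hv⟩
    else if hv : ∃ a, (v : V) ∈ (P (π a)).supp then some (ρ hv.choose) else none
  have hβX : ∀ (v : V) (hv : v ∈ X) (hy : v ∈ Y), β ⟨v, hy⟩ = some ⟨v, hv⟩ := by
    intro v hv hy
    simp only [β]
    rw [dif_pos hv]
  have hβP : ∀ (v : V) (hy : v ∈ Y) (a : Fin m), v ∈ (P (π a)).supp → β ⟨v, hy⟩ = some (ρ a) := by
    intro v hy a hva
    by_cases hv : v ∈ X
    · rw [hβX v hv hy]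
      obtain ⟨j, hj, hjv⟩ := hva
      have hj0 : j = 0 := by
        by_contra hne
        exact (hP (π a)).2.2.1 j (Nat.pos_of_ne_zero hne) hj (hjv ▸ hv)
      subst hj0
      congr 1
      apply Subtype.ext
      change v = _
      rw [← hjv, hπ a]
    · simp only [β]
      rw [dif_neg hv]
      have hex : ∃ a, v ∈ (P (π a)).supp := ⟨a, hva⟩
      rw [dif_pos hex]
      have : hex.choose = a := hπi (huniq _ _ v hex.choose_spec hva)
      rw [this]
  have hβinv : ∀ (v : Y) (x : X), β v = some x → (v : V) = x ∨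
      ((v : V) ∉ X ∧ ∃ a, x = ρ a ∧ (v : V) ∈ (P (π a)).supp) := by
    intro v x hvx
    by_cases hv : (v : V) ∈ X
    · left
      have := hβX v hv v.2
      rw [this] at hvx
      exact congrArg Subtype.val (Option.some.inj hvx)
    · right
      refine ⟨hv, ?_⟩
      simp only [β] at hvx
      rw [dif_neg hv] at hvx
      by_cases hex : ∃ a, (v : V) ∈ (P (π a)).supp
      · rw [dif_pos hex] at hvx
        exact ⟨hex.choose, (Option.some.inj hvx).symm, hex.choose_spec⟩
      · rw [dif_neg hex] at hvx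
        cases hvx
  let ι : {e : E // ∀ v ∈ G e, v ∈ X} → {e : E // ∀ v ∈ G e, v ∈ Y} :=
    fun e => ⟨e.1, fun v hv => hXY (e.2 v hv)⟩
  have hrange : ∀ e : {e : E // ∀ v ∈ G e, v ∈ Y}, e ∈ range ι → ∀ v ∈ G e.1, v ∈ X := by
    rintro _ ⟨e, rfl⟩
    exact e.2
  have hjoin : ∀ (y : Y) (x : X), β y = some x →
      Joined (restr G Y) (range ι) {z | β z = some x} y ⟨x, hXY x.2⟩ := by
    intro y x hyx
    rcases hβinv y x hyx with hv | ⟨hv, a, rfl, j, hj, hjv⟩
    · have : y = ⟨x, hXY x.2⟩ := Subtype.ext hv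
      rw [this]
      exact Relation.ReflTransGen.refl
    · have hsY : ∀ k, k ≤ (P (π a)).len → (P (π a)).p k ∈ Y :=
        fun k hk => (hP (π a)).2.2.2 ⟨k, hk, rfl⟩
      have key : ∀ k (hk : k ≤ (P (π a)).len), Joined (restr G Y) (range ι)
          {z | β z = some (ρ a)} ⟨(P (π a)).p k, hsY k hk⟩
          ⟨(P (π a)).p 0, hsY 0 (Nat.zero_le _)⟩ := by
        intro k
        induction k with
        | zero => intro _; exact Relation.ReflTransGen.refl
        | succ k ih =>
          intro hk
          have hk' : k ≤ (P (π a)).len := by omega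
          refine Joined.trans ?_ (ih hk')
          obtain ⟨-, e, he⟩ := (P (π a)).adj k (by omega)
          have heY : ∀ v ∈ G e, v ∈ Y := by
            intro v hv
            rw [he, Sym2.mem_iff] at hv
            rcases hv with rfl | rfl
            · exact hsY k hk'
            · exact hsY (k + 1) hk
          refine Joined.single (e := ⟨e, heY⟩) ?_ ?_ ?_ ?_
          · intro hmem
            have := hrange _ hmem ((P (π a)).p (k + 1)) (by
              change _ ∈ G e
              rw [he]
              exact Sym2.mem_mk_right _ _)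
            exact (hP (π a)).2.2.1 (k + 1) (Nat.succ_pos _) hk this
          · apply Sym2.map.injective Subtype.val_injective
            rw [Sym2.map_mk]
            change Sym2.map Subtype.val ((G e).attachWith heY) = _
            rw [Sym2.attachWith_map_subtypeVal, he]
            exact Sym2.eq_swap
          · exact hβP _ _ a ⟨k + 1, hk, rfl⟩
          · exact hβP _ _ a ⟨k, hk', rfl⟩
      have h1 := key j hj
      have e1 : (⟨(P (π a)).p j, hsY j hj⟩ : Y) = y := Subtype.ext hjv
      have e2 : (⟨(P (π a)).p 0, hsY 0 (Nat.zero_le _)⟩ : Y) = ⟨ρ a, hXY (ρ a).2⟩ :=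
        Subtype.ext (hπ a)
      rw [e1, e2] at h1
      exact h1
  refine ⟨β, ι, ⟨?_, ?_, ?_, ?_⟩, ?_⟩
  · intro e e' hee
    apply Subtype.ext
    have h2 : (ι e).1 = (ι e').1 := by rw [hee]
    exact h2
  · intro e
    have hc : ∀ (s : Sym2 V) (hsX : ∀ v ∈ s, v ∈ X) (hsY : ∀ v ∈ s, v ∈ Y),
        Sym2.map β (s.attachWith hsY) = Sym2.map some (s.attachWith hsX) := by
      intro s
      induction s using Sym2.ind with
      | _ x y =>
        intro hsX hsY
        have hx : x ∈ X := hsX x (Sym2.mem_mk_left _ _)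
        have hy : y ∈ X := hsX y (Sym2.mem_mk_right _ _)
        have e1 : (s(x, y)).attachWith hsY = s(⟨x, hXY hx⟩, ⟨y, hXY hy⟩) := by
          apply Sym2.map.injective Subtype.val_injective
          rw [Sym2.attachWith_map_subtypeVal]
          rfl
        have e2 : (s(x, y)).attachWith hsX = s(⟨x, hx⟩, ⟨y, hy⟩) := by
          apply Sym2.map.injective Subtype.val_injective
          rw [Sym2.attachWith_map_subtypeVal]
          rfl
        rw [e1, e2, Sym2.map_mk, Sym2.map_mk, hβX x hx, hβX y hy]
    exact hc (G e.1) e.2 _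
  · intro x
    exact ⟨⟨x, hXY x.2⟩, hβX x x.2 _⟩
  · intro x y v hx hy
    exact (hjoin x v hx).trans (hjoin y v hy).symm
  · intro a
    exact hβP _ _ a (hs1 _)

end Pool.Agent.Lib.MP_210493_lc
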