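import Pool.Agent.Lib.MP_210493_lc.DG.Sep

/-! Module DG-LinkedOr.  Two nested sets with boundaries of size `m` are linked or there is a set
between them with a smaller boundary.

PROOF.  Let `R = Y \ (X \ bd S X)`, `S' : SimpleGraph V` with `S'.Adj a b ↔ S.Adj a b ∧ a ∈ R ∧
b ∈ R` (`Haven.res S R`).  Apply Menger (`menger S' (bd S X) (bd S Y) m`).
Case 1: `NoSep S' (bd S X) (bd S Y) m`.  `menger` gives disjoint paths `P i` of `S'` from `bd S X`
to `bd S Y`, meeting `bd S X` only in `p 0`.  All vertices of `P i` are in `R`: `p 0 ∈ bd S X`,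
which is in `R` because `bd S X ⊆ X ⊆ Y`, and every edge of `S'` has both ends in `R`.  A vertex
`p j`, `0 < j ≤ len` is in `R` and not in `bd S X`, so not in `X`.  Turn `P i` into paths of `S`
(same `len`, `p`, `inj`; `adj` from `S' ≤ S`).  So `Linked S X Y m`.
Case 2: there is `C : Finset V`, `C.card < m`, such that for all `a ∈ bd S X`, `b ∈ bd S Y`,
`a ∉ C`, `b ∉ C` not `RIn S' Cᶜ a b`.  Put
`T = {v | ∃ a ∈ bd S X, a ∉ C ∧ RIn S' Cᶜ a v}` and `Z = X ∪ T ∪ (C ∩ R)`.  `T ⊆ R ∪ bd S X ⊆ Y`, so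
`X ⊆ Z ⊆ Y`.  Claim `bd S Z ⊆ C`, so `(bd S Z).ncard ≤ C.card < m`.  Let `v ∈ bd S Z`, `w ∉ Z`,
`S.Adj v w`, and suppose `v ∉ C`.  (a) If `v ∈ X`: since `w ∉ X`, `v ∈ bd S X`, `v ∉ C`, so
`v ∈ T` (`RIn.refl`).  (b) So `v ∈ T` in all cases (`v ∈ C ∩ R` is excluded).  Then `v ∈ R`.
If `w ∈ Y` then `w ∈ R` (as `w ∉ X`), `w ∉ C` (as `w ∉ C ∩ R`), so `w ∈ T` by one more step
(`RIn.tail`, `S'.Adj v w`): contradiction.  If `w ∉ Y`, then `v ∈ bd S Y` (`v ∈ Y`), `v ∉ C`, so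
`a ∈ bd S X`, `RIn S' Cᶜ a v` contradicts the choice of `C`. -/

namespace Pool.Agent.Lib.MP_210493_lc

open Set Pool.Agent.Lib.MP_4d119b_lc

theorem linked_or {V : Type} [Finite V] (S : SimpleGraph V) {X Y : Set V} {m : ℕ} (hXY : X ⊆ Y)
    (hX : (bd S X).ncard = m) (hY : (bd S Y).ncard = m) :
    Linked S X Y m ∨ ∃ Z, X ⊆ Z ∧ Z ⊆ Y ∧ (bd S Z).ncard < m := by
  classical
  obtain ⟨R, hRdef⟩ : ∃ R : Set V, R = Y \ (X \ bd S X) := ⟨_, rfl⟩
  have hbX : bd S X ⊆ X := fun v hv => hv.1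
  have hbR : bd S X ⊆ R := by
    intro v hv
    rw [hRdef]
    exact ⟨hXY (hbX hv), fun h => h.2 hv⟩
  have hRY : R ⊆ Y := by
    rw [hRdef]
    exact Set.sdiff_subset
  have hRX : ∀ v ∈ R, v ∈ X → v ∈ bd S X := by
    intro v hv hvX
    rw [hRdef] at hv
    by_contra hb
    exact hv.2 ⟨hvX, hb⟩
  have hYR : ∀ v ∈ Y, v ∉ X → v ∈ R := by
    intro v hv hvX
    rw [hRdef]
    exact ⟨hv, fun h => hvX h.1⟩
  by_cases h : NoSep (Haven.res S R) (bd S X) (bd S Y) m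
  · left
    obtain ⟨P, hP, hdisj⟩ := menger _ _ _ _ h
    have hR : ∀ i j, j ≤ (P i).len → (P i).p j ∈ R := by
      intro i j hj
      rcases Nat.eq_zero_or_pos j with rfl | hj0
      · exact hbR (hP i).1
      · obtain ⟨k, rfl⟩ : ∃ k, j = k + 1 := ⟨j - 1, by omega⟩
        exact ((P i).adj k (by omega)).2.2
    refine ⟨hX, hY, fun i => ⟨(P i).len, (P i).p, fun k hk => ((P i).adj k hk).1, (P i).inj⟩,
      ?_, ?_⟩
    · intro i
      refine ⟨(hP i).1, (hP i).2.1, ?_, ?_⟩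
      · intro j hj0 hj hjX
        exact (hP i).2.2.1 j hj0 hj (hRX _ (hR i j hj) hjX)
      · rintro v ⟨j, hj, rfl⟩
        exact hRY (hR i j hj)
    · intro i j hij
      exact hdisj i j hij
  · right
    unfold NoSep at h
    push Not at h
    obtain ⟨C, hCm, hC⟩ := h
    obtain ⟨T, hT⟩ : ∃ T : Set V, T = {v | ∃ a ∈ bd S X, a ∉ C ∧ RIn (Haven.res S R) (↑C)ᶜ a v} :=
      ⟨_, rfl⟩
    have hTR : T ⊆ R := by
      intro v hv
      rw [hT] at hv
      obtain ⟨a, ha, _, hav⟩ := hv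
      induction hav with
      | refl => exact hbR ha
      | tail _ hbc _ => exact hbc.1.2.2
    have hTC : ∀ v ∈ T, v ∉ C := by
      intro v hv
      rw [hT] at hv
      obtain ⟨a, _, haC, hav⟩ := hv
      exact hav.mem_right haC
    refine ⟨X ∪ T ∪ (↑C ∩ R), fun v hv => Or.inl (Or.inl hv), ?_, ?_⟩
    · rintro v ((hv | hv) | hv)
      · exact hXY hv
      · exact hRY (hTR hv)
      · exact hRY hv.2
    · have hsub : bd S (X ∪ T ∪ (↑C ∩ R)) ⊆ (C : Set V) := by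
        rintro v ⟨hvZ, w, hwZ, hadj⟩
        by_contra hvC
        have hvC' : v ∉ C := hvC
        have hwX : w ∉ X := fun h => hwZ (Or.inl (Or.inl h))
        have hwT : w ∉ T := fun h => hwZ (Or.inl (Or.inr h))
        have hwCR : ¬ (w ∈ (C : Set V) ∧ w ∈ R) := fun h => hwZ (Or.inr h)
        have hvT : v ∈ T := by
          rcases hvZ with (hv | hv) | hv
          · rw [hT]
            exact ⟨v, ⟨hv, w, hwX, hadj⟩, hvC', RIn.refl _ _ _⟩
          · exact hv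
          · exact absurd hv.1 hvC
        have hvR : v ∈ R := hTR hvT
        rw [hT] at hvT
        obtain ⟨a, ha, haC, hav⟩ := hvT
        by_cases hwY : w ∈ Y
        · have hwR : w ∈ R := hYR w hwY hwX
          have hwC : w ∉ (C : Set V) := fun h => hwCR ⟨h, hwR⟩
          apply hwT
          rw [hT]
          exact ⟨a, ha, haC, hav.tail (⟨hadj, hvR, hwR⟩ : (Haven.res S R).Adj v w) hvC hwC⟩
        · exact hC a ha v ⟨hRY hvR, w, hwY, hadj⟩ haC hvC' hav
      calc (bd S (X ∪ T ∪ (↑C ∩ R))).ncard ≤ (C : Set V).ncard :=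
            Set.ncard_le_ncard hsub C.finite_toSet
        _ = C.card := Set.ncard_coe_finset C
        _ < m := hCm

end Pool.Agent.Lib.MP_210493_lc
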