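import Pool.Agent.Lib.MP_210493_lc.DG.Sep

/-! Module DG-PatCard.  Number of patterns and of classes.

PROOF.  `Pat m N M` embeds into
`Fin (N + 1) × Fin (M + 1) × (Fin M → Option (Fin N × Fin N)) × (Fin m → Option (Fin N))`
(cardinality `(N+1) * ((M+1) * ((N*N+1)^M * (N+1)^m)) = patB m N M`) by
`P ↦ (P.p, P.q, fun i => if h : i < P.q then some (castLE of both components of
P.arc ⟨i, h⟩) else none, fun a => some (castLE (P.root a)))`.
Injective: from the first two components `p`, `q` agree (`subst`), then `arc` and `root` agree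
pointwise.  So `Pat` is finite (`Finite.of_injective`) and `card_pat` is
`Nat.card_le_card_of_injective`; `card_cls` from `Nat.card (Set α) = 2 ^ Nat.card α`
(e.g. `Fintype.card_set`, or `Nat.card_fun` for `α → Prop`) and monotonicity of powers. -/

namespace Pool.Agent.Lib.MP_210493_lc

open Set

private def patEmb (m N M : ℕ) (P : Pat m N M) :
    Fin (N + 1) × Fin (M + 1) × (Fin M → Option (Fin N × Fin N)) × (Fin m → Option (Fin N)) :=
  (P.p, P.q,
    fun i => if h : i.1 < P.q.1 then
      some (Fin.castLE (Nat.lt_succ_iff.mp P.p.2) (P.arc ⟨i.1, h⟩).1,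
        Fin.castLE (Nat.lt_succ_iff.mp P.p.2) (P.arc ⟨i.1, h⟩).2) else none,
    fun a => some (Fin.castLE (Nat.lt_succ_iff.mp P.p.2) (P.root a)))

private lemma patEmb_injective (m N M : ℕ) : Function.Injective (patEmb m N M) := by
  rintro ⟨p, q, arc, root⟩ ⟨p', q', arc', root'⟩ h
  simp only [patEmb, Prod.mk.injEq] at h
  obtain ⟨h1, h2, h3, h4⟩ := h
  subst h1
  subst h2
  have harc : arc = arc' := by
    funext i
    have hi : i.1 < M := lt_of_lt_of_le i.2 (Nat.lt_succ_iff.mp q.2)
    have h5 := congrFun h3 ⟨i.1, hi⟩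
    simp only [i.2, dite_true, Option.some.injEq, Prod.mk.injEq, Fin.castLE_inj] at h5
    exact Prod.ext h5.1 h5.2
  have hroot : root = root' := by
    funext a
    have h5 := congrFun h4 a
    simpa only [Option.some.injEq, Fin.castLE_inj] using h5
  subst harc
  subst hroot
  rfl

instance finite_pat (m N M : ℕ) : Finite (Pat m N M) :=
  Finite.of_injective _ (patEmb_injective m N M)

theorem card_pat (m N M : ℕ) : Nat.card (Pat m N M) ≤ patB m N M := by
  refine (Nat.card_le_card_of_injective _ (patEmb_injective m N M)).trans (le_of_eq ?_)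
  rw [patB]
  simp

/-- the number of classes for `m ≤ m'` roots is at most `clsB m' n` -/
theorem card_cls (m m' n : ℕ) (h : m ≤ m') :
    Nat.card (Set (Set (Pat m (m + n) (n + m * m)))) ≤ clsB m' n := by
  have hset : ∀ (α : Type) [Finite α], Nat.card (Set α) = 2 ^ Nat.card α := by
    intro α _
    have : Fintype α := Fintype.ofFinite α
    rw [Nat.card_eq_fintype_card, Nat.card_eq_fintype_card, Fintype.card_set]
  rw [hset, hset, clsB]
  refine Nat.pow_le_pow_right (by norm_num) (Nat.pow_le_pow_right (by norm_num) ?_)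
  refine (card_pat m (m + n) (n + m * m)).trans ?_
  rw [patB, patB]
  have h1 : m * m ≤ m' * m' := Nat.mul_le_mul h h
  have h2 : (m + n) * (m + n) ≤ (m' + n) * (m' + n) := Nat.mul_le_mul (by omega) (by omega)
  refine Nat.mul_le_mul (by omega) (Nat.mul_le_mul (by omega) (Nat.mul_le_mul ?_ ?_))
  · exact (Nat.pow_le_pow_left (by omega) _).trans
      (Nat.pow_le_pow_right (by omega) (by omega))
  · exact (Nat.pow_le_pow_left (by omega) _).trans
      (Nat.pow_le_pow_right (by omega) h)

end Pool.Agent.Lib.MP_210493_lc
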