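import Pool.Agent.Lib.MP_210493_lc.DG.DelE
import Pool.Agent.Lib.MP_210493_lc.DG.Contr

/-! Module DG-Small.  If `H` is a minor of a glued digraph then the inner side may be replaced by
a bounded rooted minor of it.

PROOF.  Strong induction on `Nat.card V₁ + Nat.card E₁` (for all types `V₁ E₁` at once).  If
`Reducible D ρ C H` holds, apply the induction hypothesis to `D'` and use `RDMinor.trans`.
Otherwise let `(β, ι)` be a model of `H` in `glueD D ρ C`.
(1) every `v` outside `range ρ` has `β (Sum.inl v) ≠ none` (`reducible_delV`).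
(2) for every arc `e` with `Sum.inl e ∉ range ι`, with ends `x = (D e).1`, `y = (D e).2`:
    by `reducible_delE`: `x ≠ y`, `β (Sum.inl x) = β (Sum.inl y) ≠ none` and no other arc
    `e₁ ≠ e` with `Sum.inl e₁ ∉ range ι` has `und D e₁ = und D e`; by `reducible_con` (used for
    `(x, y)` and `(y, x)`) both `x` and `y` are in `range ρ`.
(3) number of arcs: `E₁ = {e | Sum.inl e ∈ range ι} ∪ {e | Sum.inl e ∉ range ι}`; the first set
    has at most `Nat.card E'` elements (`ι` maps onto it), the second is mapped injectively into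
    `Fin m × Fin m` by `e ↦` (an index of the root `(D e).1`, an index of the root `(D e).2`)
    (equal values give `und D e₁ = und D e`, so `e₁ = e` by (2)): at most `m * m` elements.
(4) number of vertices: `range ρ` has at most `m` elements.  The vertices outside `range ρ` are
    mapped injectively into `V'` by `v ↦` the `w` with `β (Sum.inl v) = some w`: if `v ≠ v'` have
    the same `w`, then `Joined (und (glueD D ρ C)) (range ι) {z | β z = some w} (Sum.inl v)
    (Sum.inl v')`, so its first step goes from `Sum.inl v` by an arc `f ∉ range ι` (use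
    `Relation.ReflTransGen.cases_head`); if `f = Sum.inl e` then `v` is an end of `e`, so a root
    by (2), contradiction; if `f = Sum.inr e` then the ends of `f` are `Sum.map ρ id` of
    something, and `Sum.inl v = Sum.map ρ id c` gives `c = Sum.inl a`, `v = ρ a`, contradiction.
(5) So `Nat.card V₁ ≤ m + Nat.card V'`, `Nat.card E₁ ≤ Nat.card E' + m * m`; take
    `p = Nat.card V₁`, `q = Nat.card E₁`, `P` the transport of `D` along
    `f : V₁ ≃ Fin p`, `g : Fin q ≃ E₁` (`Finite.equivFin`), `P i = (f (D (g i)).1, f (D (g i)).2)`,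
    `σ = f ∘ ρ`.  `RDMinor P σ D ρ` is `isDModel_of_equiv`; also `RDMinor D ρ P σ`
    (`isDModel_of_equiv` with the inverse equivalences), so `DMinor H (glueD P σ C)` follows from
    `h` with `glueD_mono` and `DMinor.trans`. -/

namespace Pool.Agent.Lib.MP_210493_lc

open Set

private theorem small_base {m : ℕ} {V₁ E₁ U E₂ V' E' : Type} [Finite V₁] [Finite E₁] [Finite V']
    [Finite E'] (D : Dig V₁ E₁) (ρ : Fin m → V₁) (C : Dig (Fin m ⊕ U) E₂) (H : Dig V' E')
    (hR : ¬ Reducible D ρ C H) (h : DMinor H (glueD D ρ C)) :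
    Nat.card V₁ ≤ m + Nat.card V' ∧ Nat.card E₁ ≤ Nat.card E' + m * m := by
  classical
  obtain ⟨β, ι, hM⟩ := h
  have h1 : ∀ v, (∀ a, ρ a ≠ v) → β (Sum.inl v) ≠ none := fun v hv hβ =>
    hR (reducible_delV D ρ C H hM v hv hβ)
  have h2 : ∀ e, Sum.inl e ∉ range ι → (D e).1 ≠ (D e).2 ∧
      β (Sum.inl (D e).1) = β (Sum.inl (D e).2) ∧
      ∀ e₁, e₁ ≠ e → Sum.inl e₁ ∉ range ι → und D e₁ ≠ und D e := by
    intro e he
    have h3 : ¬ ((D e).1 = (D e).2 ∨ β (Sum.inl (D e).1) ≠ β (Sum.inl (D e).2) ∨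
      β (Sum.inl (D e).1) = none ∨
      ∃ e₁, e₁ ≠ e ∧ Sum.inl e₁ ∉ range ι ∧ und D e₁ = und D e) :=
      fun hu => hR (reducible_delE D ρ C H hM e he hu)
    refine ⟨fun h4 => h3 (Or.inl h4), ?_, fun e₁ h4 h5 h6 =>
      h3 (Or.inr (Or.inr (Or.inr ⟨e₁, h4, h5, h6⟩)))⟩
    by_contra h4
    exact h3 (Or.inr (Or.inl h4))
  have h3 : ∀ e, Sum.inl e ∉ range ι → (∃ a, ρ a = (D e).1) ∧ ∃ a, ρ a = (D e).2 := by
    intro e he
    obtain ⟨h4, h5, -⟩ := h2 e he
    constructor
    · by_contra h6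
      refine hR (reducible_con D ρ C H hM e he (D e).2 (D e).1 (Ne.symm h4) Sym2.eq_swap ?_ h5.symm)
      intro a ha
      exact h6 ⟨a, ha⟩
    · by_contra h6
      refine hR (reducible_con D ρ C H hM e he (D e).1 (D e).2 h4 rfl ?_ h5)
      intro a ha
      exact h6 ⟨a, ha⟩
  constructor
  · -- the vertices
    have hF : ∀ v : V₁, ∃ z : Fin m ⊕ V', (∀ a, z = Sum.inl a → ρ a = v) ∧
        ∀ w, z = Sum.inr w → (∀ a, ρ a ≠ v) ∧ β (Sum.inl v) = some w := by
      intro v
      by_cases hv : ∃ a, ρ a = v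
      · obtain ⟨a, ha⟩ := hv
        refine ⟨Sum.inl a, fun b hb => ?_, fun w hw => by cases hw⟩
        rw [← Sum.inl.inj hb]
        exact ha
      · have hv' : ∀ a, ρ a ≠ v := fun a ha => hv ⟨a, ha⟩
        obtain ⟨w, hw⟩ := Option.ne_none_iff_exists'.1 (h1 v hv')
        refine ⟨Sum.inr w, (fun a ha => by cases ha), fun w' hw' => ⟨hv', ?_⟩⟩
        rw [← Sum.inr.inj hw']
        exact hw
    choose F hF1 hF2 using hF
    have hinj : Function.Injective F := by
      intro v v' hvv
      rcases hz : F v with a | w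
      · have h4 := hF1 v a hz
        have h5 := hF1 v' a (by rw [← hvv]; exact hz)
        rw [← h4, h5]
      · obtain ⟨h4, h5⟩ := hF2 v w hz
        obtain ⟨h6, h7⟩ := hF2 v' w (by rw [← hvv]; exact hz)
        have hj := hM.1.conn (Sum.inl v) (Sum.inl v') w h5 h7
        rcases Relation.ReflTransGen.cases_head hj with h8 | ⟨c, h8, -⟩
        · exact Sum.inl.inj h8
        · exfalso
          obtain ⟨-, -, f, hf, hff⟩ := h8
          rcases f with e | e
          · have h9 : s((Sum.inl (D e).1 : V₁ ⊕ U), Sum.inl (D e).2) = s(Sum.inl v, c) := hff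
            obtain ⟨⟨a, ha⟩, ⟨b, hb⟩⟩ := h3 e hf
            rw [Sym2.eq_iff] at h9
            rcases h9 with ⟨h10, -⟩ | ⟨-, h10⟩
            · exact h4 a (ha.trans (Sum.inl.inj h10))
            · exact h4 b (hb.trans (Sum.inl.inj h10))
          · have h9 : s((Sum.map ρ id (C e).1 : V₁ ⊕ U), Sum.map ρ id (C e).2) =
                s(Sum.inl v, c) := hff
            have key : ∀ z : Fin m ⊕ U, (Sum.map ρ id z : V₁ ⊕ U) ≠ Sum.inl v := by
              rintro (a | u) h10
              · exact h4 a (Sum.inl.inj h10)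
              · cases h10
            rw [Sym2.eq_iff] at h9
            rcases h9 with ⟨h10, -⟩ | ⟨-, h10⟩
            · exact key _ h10
            · exact key _ h10
    have h4 := Nat.card_le_card_of_injective F hinj
    rwa [Nat.card_sum, Nat.card_fin] at h4
  · -- the arcs
    have hF : ∀ e : E₁, ∃ z : E' ⊕ (Fin m × Fin m), (∀ e', z = Sum.inl e' → ι e' = Sum.inl e) ∧
        ∀ p : Fin m × Fin m, z = Sum.inr p →
          Sum.inl e ∉ range ι ∧ ρ p.1 = (D e).1 ∧ ρ p.2 = (D e).2 := by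
      intro e
      by_cases he : Sum.inl e ∈ range ι
      · obtain ⟨e', he'⟩ := he
        refine ⟨Sum.inl e', fun b hb => ?_, fun w hw => by cases hw⟩
        rw [← Sum.inl.inj hb]
        exact he'
      · obtain ⟨⟨a, ha⟩, ⟨b, hb⟩⟩ := h3 e he
        refine ⟨Sum.inr (a, b), (fun e' h4 => by cases h4), fun p hp => ?_⟩
        rw [← Sum.inr.inj hp]
        exact ⟨he, ha, hb⟩
    choose F hF1 hF2 using hF
    have hinj : Function.Injective F := by
      intro e e' hee
      rcases hz : F e with a | p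
      · have h4 := hF1 e a hz
        have h5 := hF1 e' a (by rw [← hee]; exact hz)
        rw [h4] at h5
        exact Sum.inl.inj h5
      · obtain ⟨h4, h5, h6⟩ := hF2 e p hz
        obtain ⟨h7, h8, h9⟩ := hF2 e' p (by rw [← hee]; exact hz)
        by_contra hne
        refine (h2 e' h7).2.2 e hne h4 ?_
        unfold und
        rw [← h5, ← h6, ← h8, ← h9]
    have h4 := Nat.card_le_card_of_injective F hinj
    rwa [Nat.card_sum, Nat.card_prod, Nat.card_fin] at h4

private theorem small_aux {m : ℕ} {U E₂ V' E' : Type} [Finite V'] [Finite E']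
    (C : Dig (Fin m ⊕ U) E₂) (H : Dig V' E') (n : ℕ) :
    ∀ (V₁ E₁ : Type) [Finite V₁] [Finite E₁] (D : Dig V₁ E₁) (ρ : Fin m → V₁),
      Nat.card V₁ + Nat.card E₁ = n → DMinor H (glueD D ρ C) →
      ∃ (p q : ℕ) (P : Dig (Fin p) (Fin q)) (σ : Fin m → Fin p), p ≤ m + Nat.card V' ∧
        q ≤ Nat.card E' + m * m ∧ RDMinor P σ D ρ ∧ DMinor H (glueD P σ C) := by
  induction n using Nat.strong_induction_on with
  | _ n ih =>
    intro V₁ E₁ _ _ D ρ hn h
    by_cases hR : Reducible D ρ C H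
    · obtain ⟨V₂, E₃, hf1, hf2, D', ρ', hlt, hrd, hdm⟩ := hR
      obtain ⟨p, q, P, σ, hp, hq, hr, hd⟩ :=
        ih (Nat.card V₂ + Nat.card E₃) (by omega) V₂ E₃ D' ρ' rfl hdm
      exact ⟨p, q, P, σ, hp, hq, hr.trans hrd, hd⟩
    · obtain ⟨h1, h2⟩ := small_base D ρ C H hR h
      have f := Finite.equivFin V₁
      have g := (Finite.equivFin E₁).symm
      refine ⟨Nat.card V₁, Nat.card E₁, fun i => (f (D (g i)).1, f (D (g i)).2), fun a => f (ρ a),
        h1, h2, ⟨_, _, isDModel_of_equiv D _ f g (fun e => rfl), fun a => rfl⟩, ?_⟩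
      refine h.trans (glueD_mono ⟨_, _, isDModel_of_equiv _ D f.symm g.symm (fun e => ?_),
        fun a => ?_⟩ C)
      · simp
      · simp

theorem small_pattern {m : ℕ} {V₁ E₁ U E₂ V' E' : Type} [Finite V₁] [Finite E₁] [Finite V']
    [Finite E'] (D : Dig V₁ E₁) (ρ : Fin m → V₁) (C : Dig (Fin m ⊕ U) E₂) (H : Dig V' E')
    (h : DMinor H (glueD D ρ C)) :
    ∃ (p q : ℕ) (P : Dig (Fin p) (Fin q)) (σ : Fin m → Fin p), p ≤ m + Nat.card V' ∧
      q ≤ Nat.card E' + m * m ∧ RDMinor P σ D ρ ∧ DMinor H (glueD P σ C) :=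
  small_aux C H _ V₁ E₁ D ρ rfl h

end Pool.Agent.Lib.MP_210493_lc
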