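import Pool.Agent.Lib.MP_210493_lc.DG.Sep
import Pool.Agent.Lib.MP_210493_lc.DG.Small

/-! Module DG-Repeat.  Rooted graphs with the same class are interchangeable.

PROOF.  Let `D` be an orientation of `glueG G₁ ρ₁ C` without a minor in `A`.  By `exists_split`
`D = glueD D₁ ρ₁ C₁` with `und D₁ = G₁`, `und C₁ = C`.  `folio _ _ D₁ ρ₁ ∈ cls _ _ G₁ ρ₁ =
cls _ _ G₂ ρ₂` gives an orientation `D₂` of `G₂` with `folio _ _ D₂ ρ₂ = folio _ _ D₁ ρ₁`.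
The orientation `glueD D₂ ρ₂ C₁` of `glueG G₂ ρ₂ C` (`und_glueD`) has no minor in `A`: if
`H ∈ A` is a minor of it, `small_pattern` gives `p q P σ` with `p ≤ m + H.v ≤ m + n`,
`q ≤ H.e + m * m ≤ n + m * m` (`H.size = H.v + H.e ≤ n`), `RDMinor P σ D₂ ρ₂` and
`DMinor H.arc (glueD P σ C₁)`.  So `⟨⟨p, _⟩, ⟨q, _⟩, P, σ⟩ ∈ folio _ _ D₂ ρ₂ = folio _ _ D₁ ρ₁`,
i.e. `RDMinor P σ D₁ ρ₁`, so `DMinor H.arc (glueD D₁ ρ₁ C₁)` by `glueD_mono` and `DMinor.trans`: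
contradiction. -/

namespace Pool.Agent.Lib.MP_210493_lc

open Set

theorem inClass_of_cls {m n : ℕ} {V₁ E₁ V₂ E₂ U E₃ : Type} [Finite V₁] [Finite E₁] [Finite V₂]
    [Finite E₂] {A : Set Code} (hA : ∀ H ∈ A, H.size ≤ n) {G₁ : Gra V₁ E₁} {ρ₁ : Fin m → V₁}
    {G₂ : Gra V₂ E₂} {ρ₂ : Fin m → V₂} (C : Gra (Fin m ⊕ U) E₃)
    (hcls : cls (m + n) (n + m * m) G₁ ρ₁ = cls (m + n) (n + m * m) G₂ ρ₂)
    (hin : InClass A (glueG G₁ ρ₁ C)) : InClass A (glueG G₂ ρ₂ C) := by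
  obtain ⟨D, hD, hA'⟩ := hin
  obtain ⟨D₁, C₁, hD₁, hC₁, rfl⟩ := exists_split hD
  have hf : folio (m + n) (n + m * m) D₁ ρ₁ ∈ cls (m + n) (n + m * m) G₁ ρ₁ := ⟨D₁, hD₁, rfl⟩
  rw [hcls] at hf
  obtain ⟨D₂, hD₂, hfol⟩ := hf
  refine ⟨glueD D₂ ρ₂ C₁, ?_, ?_⟩
  · rw [und_glueD, hD₂, hC₁]
  · intro H hH hm
    obtain ⟨p, q, P, σ, hp, hq, hPm, hHm⟩ := small_pattern D₂ ρ₂ C₁ H.arc hm
    have hs : H.v + H.e ≤ n := hA H hH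
    rw [Nat.card_fin] at hp hq
    have hp' : p < m + n + 1 := by omega
    have hq' : q < n + m * m + 1 := by omega
    have h1 : (⟨⟨p, hp'⟩, ⟨q, hq'⟩, P, σ⟩ : Pat m (m + n) (n + m * m)) ∈
        folio (m + n) (n + m * m) D₂ ρ₂ := hPm
    rw [hfol] at h1
    have h2 : RDMinor P σ D₁ ρ₁ := h1
    exact hA' H hH (hHm.trans (glueD_mono h2 C₁))

end Pool.Agent.Lib.MP_210493_lc
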