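import Pool.Agent.Lib.MP_210493_lc.DG.LinkedOr

/-! Module DG-Run.  A long chain with small boundaries contains a long linked run.

PROOF.  Induction on `m` (for all chains).  If `K = 0` take `m' = 0` (nothing to prove).  Let
`N = (K+1)^m`, so `(K+1)^(m+1) = (K+1) * N` and `L + 1 ≥ (K+1) * N`: the chain contains `N` blocks
of `K+1` consecutive sets, block `b < N` consisting of the indices
`b*(K+1), ..., b*(K+1) + K ≤ L`.
Case 1: for some block all `K+1` sets have boundary of size exactly `m` and all `K` consecutive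
pairs are `Linked S _ _ m`.  Take `m' = m`, `Y i = X (b*(K+1) + i)`.
Case 2: every block `b < N` contains a set `Z_b` with `X (b*(K+1)) ⊆ Z_b ⊆ X (b*(K+1)+K)` and
`(bd S Z_b).ncard < m`: either a set of the block with a boundary of size `≠ m`, so `< m`, or the
set given by `linked_or` for an unlinked consecutive pair.  (In particular `m ≥ 1`; for `m = 0`
this case is impossible because `N = 1 > 0`.)  Then `Z_b ⊂ Z_{b+1}`:
`Z_b ⊆ X (b*(K+1)+K) ⊂ X ((b+1)*(K+1)) ⊆ Z_{b+1}`.  So `Z` is a chain of `N = (K+1)^m` sets with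
boundaries of size `≤ m - 1`, and the induction hypothesis (with `L := N - 1`, and
`(K+1)^((m-1)+1) ≤ (N-1) + 1`) applies. -/

namespace Pool.Agent.Lib.MP_210493_lc

open Set Pool.Agent.Lib.MP_4d119b_lc

private theorem run_mono {V : Type} {X : ℕ → Set V} {L : ℕ} (hX : ∀ i < L, X i ⊂ X (i + 1))
    (i : ℕ) : ∀ j, i ≤ j → j ≤ L → X i ⊆ X j := by
  intro j
  induction j with
  | zero =>
    intro h _
    have h0 : i = 0 := by omega
    subst h0
    exact subset_rfl
  | succ j ih =>
    intro h hL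
    rcases Nat.lt_or_ge j i with h1 | h1
    · have h0 : i = j + 1 := by omega
      subst h0
      exact subset_rfl
    · exact (ih h1 (by omega)).trans (hX j (by omega)).1

private theorem run_step {V : Type} [Finite V] (S : SimpleGraph V) (K m L N : ℕ)
    (X : ℕ → Set V) (hN : (K + 1) * N ≤ L + 1) (hX : ∀ i < L, X i ⊂ X (i + 1))
    (hb : ∀ i ≤ L, (bd S (X i)).ncard ≤ m) :
    (∃ Y : ℕ → Set V, (∀ i < K, Y i ⊂ Y (i + 1)) ∧ ∀ i < K, Linked S (Y i) (Y (i + 1)) m) ∨
      ∀ b < N, ∃ Z, X (b * (K + 1)) ⊆ Z ∧ Z ⊆ X (b * (K + 1) + K) ∧ (bd S Z).ncard < m := by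
  by_cases h : ∀ b < N, ∃ Z, X (b * (K + 1)) ⊆ Z ∧ Z ⊆ X (b * (K + 1) + K) ∧
      (bd S Z).ncard < m
  · exact Or.inr h
  · left
    push Not at h
    obtain ⟨b, hbN, h⟩ := h
    have hle : b * (K + 1) + K ≤ L := by
      have h1 : (b + 1) * (K + 1) ≤ N * (K + 1) := Nat.mul_le_mul_right _ hbN
      have h2 : (K + 1) * N = N * (K + 1) := Nat.mul_comm _ _
      have h3 : (b + 1) * (K + 1) = b * (K + 1) + (K + 1) := by ring
      omega
    have hc : ∀ i ≤ K, (bd S (X (b * (K + 1) + i))).ncard = m := by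
      intro i hi
      refine le_antisymm (hb _ (by omega)) (h _ ?_ ?_)
      · exact run_mono hX _ _ (by omega) (by omega)
      · exact run_mono hX _ _ (by omega) (by omega)
    refine ⟨fun i => X (b * (K + 1) + i), fun i hi => hX _ (by omega), fun i hi => ?_⟩
    rcases linked_or S (run_mono hX (b * (K + 1) + i) (b * (K + 1) + (i + 1)) (by omega)
      (by omega)) (hc i (by omega)) (hc (i + 1) (by omega)) with h1 | ⟨Z, hZ1, hZ2, hZ3⟩
    · exact h1
    · exfalso
      have h2 := h Z ((run_mono hX _ _ (by omega) (by omega)).trans hZ1)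
        (hZ2.trans (run_mono hX _ _ (by omega) (by omega)))
      omega

theorem exists_run {V : Type} [Finite V] (S : SimpleGraph V) (K : ℕ) : ∀ (m L : ℕ)
    (X : ℕ → Set V), (K + 1) ^ (m + 1) ≤ L + 1 → (∀ i < L, X i ⊂ X (i + 1)) →
    (∀ i ≤ L, (bd S (X i)).ncard ≤ m) →
    ∃ m' ≤ m, ∃ Y : ℕ → Set V, (∀ i < K, Y i ⊂ Y (i + 1)) ∧
      ∀ i < K, Linked S (Y i) (Y (i + 1)) m' := by
  intro m
  induction m with
  | zero =>
    intro L X hL hX hb
    rcases run_step S K 0 L 1 X (by simpa using hL) hX hb with h | h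
    · exact ⟨0, le_rfl, h⟩
    · obtain ⟨Z, _, _, hZ⟩ := h 0 Nat.one_pos
      exact absurd hZ (Nat.not_lt_zero _)
  | succ m ih =>
    intro L X hL hX hb
    have hpos : 0 < (K + 1) ^ (m + 1) := by positivity
    rcases run_step S K (m + 1) L ((K + 1) ^ (m + 1)) X
      (by rw [← pow_succ']; exact hL) hX hb with h | h
    · exact ⟨m + 1, le_rfl, h⟩
    · choose! Z hZ1 hZ2 hZ3 using h
      have hZ : ∀ b < (K + 1) ^ (m + 1) - 1, Z b ⊂ Z (b + 1) := by
        intro b hb1
        have hle : b * (K + 1) + K < L := by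
          have h1 : (b + 1 + 1) * (K + 1) ≤ (K + 1) ^ (m + 1) * (K + 1) :=
            Nat.mul_le_mul_right _ (by omega)
          have h2 : (K + 1) ^ (m + 1) * (K + 1) = (K + 1) ^ (m + 1 + 1) := (pow_succ _ _).symm
          have h3 : (b + 1 + 1) * (K + 1) = b * (K + 1) + (K + 1) + (K + 1) := by ring
          omega
        have h4 : Z b ⊆ X (b * (K + 1) + K) := hZ2 b (by omega)
        have h5 : X (b * (K + 1) + K) ⊂ X (b * (K + 1) + K + 1) := hX _ hle
        have h6 : X ((b + 1) * (K + 1)) ⊆ Z (b + 1) := hZ1 (b + 1) (by omega)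
        have h7 : (b + 1) * (K + 1) = b * (K + 1) + K + 1 := by ring
        rw [h7] at h6
        exact (h4.trans_ssubset h5).trans_subset h6
      have hZ' : ∀ b ≤ (K + 1) ^ (m + 1) - 1, (bd S (Z b)).ncard ≤ m := fun b hb1 =>
        Nat.lt_succ_iff.1 (hZ3 b (by omega))
      obtain ⟨m', hm', Y, hY⟩ := ih ((K + 1) ^ (m + 1) - 1) Z (by omega) hZ hZ'
      exact ⟨m', hm'.trans (Nat.le_succ m), Y, hY⟩

end Pool.Agent.Lib.MP_210493_lc
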