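import Pool.Agent.Lib.MP_4d119b_lc.Grid
import Pool.Agent.Lib.MP_4d119b_lc.Haven
import Pool.Agent.Lib.MP_210493_lc.DG.Basic

/-! Definitions for the structural part: underlying simple graph, boundary of a vertex set,
linked pairs of vertex sets, restriction of a graph to a vertex set.

The library `Pool.Agent.Lib.MP_4d119b_lc` is used for: `RIn`, `Conn`, `Touch`, `GP` (paths),
`NoSep`, `menger`, `Wide`, `Mesh`, `GridModel`, `exists_mesh`, `grid_or_K`. -/

namespace Pool.Agent.Lib.MP_210493_lc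

open Set Pool.Agent.Lib.MP_4d119b_lc

/-- the underlying simple graph -/
def simp {V E : Type} (G : Gra V E) : SimpleGraph V where
  Adj x y := x ≠ y ∧ ∃ e, G e = s(x, y)
  symm := ⟨fun _ _ h => ⟨h.1.symm, h.2.imp fun _ he => he.trans Sym2.eq_swap⟩⟩
  loopless := ⟨fun _ h => h.1 rfl⟩

/-- the boundary of `X`: the vertices of `X` with a neighbour outside `X` -/
def bd {V : Type} (S : SimpleGraph V) (X : Set V) : Set V := {v | v ∈ X ∧ ∃ w, w ∉ X ∧ S.Adj v w}

/-- `X ⊆ Y` have boundaries of size `m`, joined by `m` disjoint paths in `Y` that meet `X` only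
in their first vertices -/
structure Linked {V : Type} (S : SimpleGraph V) (X Y : Set V) (m : ℕ) : Prop where
  cX : (bd S X).ncard = m
  cY : (bd S Y).ncard = m
  paths : ∃ P : Fin m → GP S, (∀ i, (P i).p 0 ∈ bd S X ∧ (P i).p (P i).len ∈ bd S Y ∧
    (∀ j, 0 < j → j ≤ (P i).len → (P i).p j ∉ X) ∧ (P i).supp ⊆ Y) ∧
    ∀ i j, i ≠ j → Disjoint (P i).supp (P j).supp

/-- the subgraph of `G` induced on `X` -/
def restr {V E : Type} (G : Gra V E) (X : Set V) : Gra X {e : E // ∀ v ∈ G e, v ∈ X} :=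
  fun e => (G e.1).attachWith e.2

/-- a `k × k` grid of connected vertex sets in a simple graph -/
def GridSets {V : Type} (S : SimpleGraph V) (k : ℕ) : Prop :=
  ∃ X : ℕ → ℕ → Set V, (∀ i j, i < k → j < k → Conn S (X i j)) ∧
    (∀ i j i' j', i < k → j < k → i' < k → j' < k → (i ≠ i' ∨ j ≠ j') →
      Disjoint (X i j) (X i' j')) ∧
    (∀ i j, i + 1 < k → j < k → Touch S (X i j) (X (i + 1) j)) ∧
    ∀ i j, i < k → j + 1 < k → Touch S (X i j) (X i (j + 1))

/-- the `k × k` grid with every edge replaced by two opposite arcs -/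
def bigrid (k : ℕ) : Dig (Fin k × Fin k) (GridE k × Bool) :=
  fun e => if e.2 then (e.1.1.1, e.1.1.2) else (e.1.1.2, e.1.1.1)

/-- a bounded rooted digraph -/
structure Pat (m N M : ℕ) where
  p : Fin (N + 1)
  q : Fin (M + 1)
  arc : Dig (Fin p.1) (Fin q.1)
  root : Fin m → Fin p.1

/-- the patterns realised in a rooted digraph -/
def folio {m : ℕ} (N M : ℕ) {V E : Type} (D : Dig V E) (ρ : Fin m → V) : Set (Pat m N M) :=
  {P | RDMinor P.arc P.root D ρ}

/-- the folios of the orientations of a rooted graph -/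
def cls {m : ℕ} (N M : ℕ) {V E : Type} (G : Gra V E) (ρ : Fin m → V) : Set (Set (Pat m N M)) :=
  {F | ∃ D : Dig V E, und D = G ∧ folio N M D ρ = F}

/-- bound for the number of patterns -/
def patB (m N M : ℕ) : ℕ := (N + 1) * ((M + 1) * ((N * N + 1) ^ M * (N + 1) ^ m))

/-- bound for the number of classes, for `m` roots and digraphs of size at most `n` in `A` -/
def clsB (m n : ℕ) : ℕ := 2 ^ (2 ^ patB m (m + n) (n + m * m))

end Pool.Agent.Lib.MP_210493_lc
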