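import Pool.Agent.Lib.MP_210493_lc.DG.Sep

/-! Module DG-Strip.  Two neighbouring regions can be joined by arcs of both directions.

`c x y` (`x, y < 4`) is a `4 × 4` array of connected sets, `x` is the column, `y` the row.
PROOF.  Say that `(x, y)`, `x < 3`, `y < 4` is right if there is an arc `e` with `(D e).1 ∈ c x y`,
`(D e).2 ∈ c (x+1) y`; if it is not right then, by `hr` (an edge of `simp (und D)` is an arc of
`D` in one of the two directions), there is an arc from `c (x+1) y` to `c x y` (left).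
Case 1: there are `x, x' < 3` and rows `y ≠ y'` with `(x, y)` right and `(x', y')` not right.
`A = (⋃ z ≤ x, c z y) ∪ (⋃ z ≤ x', c z y')`, `B = (⋃ z, x < z < 4, c z y) ∪ (⋃ z, x' < z < 4, c z y')`.
The arc of `(x, y)` goes from `A` to `B`, the one of `(x', y')` from `B` to `A`.  Each of the two
parts of `A` is connected and contains `c 0 _`, so `L ∪ A` is connected if `L` is connected and
touches all `c 0 _` (`Conn.union_touch` twice); same for `B` (with `c 3 _`).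
Case 2: otherwise all `(x, y)` are right or all are not right (if `(x, y)` is right then all
`(x', y')` with `y' ≠ y` are right, hence also those of the row `y`).  Then
`A₁ = c 0 3`, `B₁ = c 1 3 ∪ c 2 3 ∪ c 3 3` (row 3), and with the S-shaped path
`(0,0),(1,0),(2,0),(3,0),(3,1),(2,1) | (1,1),(0,1),(0,2),(1,2),(2,2),(3,2)`:
`A₂ =` union of `c` over the first six, `B₂ =` union over the last six cells.
`A = A₁ ∪ A₂`, `B = B₁ ∪ B₂`.  If all are right: arc `c 0 3 → c 1 3` from `A` to `B`, arc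
`c 1 1 → c 2 1` from `B` to `A`.  If all are left: `c 1 3 → c 0 3` from `B` to `A`, and
`c 2 1 → c 1 1` from `A` to `B`.  `A₁`, `A₂` are connected and contain `c 0 3`, `c 0 0`; `B₁`, `B₂`
are connected and contain `c 3 3`, `c 3 2`.
(A general lemma helps: for a list of cells in which neighbours touch, the union is connected;
`Conn.union_touch`.) -/

namespace Pool.Agent.Lib.MP_210493_lc

open Set Pool.Agent.Lib.MP_4d119b_lc

private def stp (p q : ℕ × ℕ) : Bool :=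
  (p.1 + 1 == q.1 && p.2 == q.2) || (q.1 + 1 == p.1 && p.2 == q.2) ||
    ((p.1 == q.1 && p.2 + 1 == q.2) || (p.1 == q.1 && q.2 + 1 == p.2))

private def chn : List (ℕ × ℕ) → Bool
  | [] => true
  | [_] => true
  | p :: q :: t => stp p q && chn (q :: t)

private def UU {V : Type} (c : ℕ → ℕ → Set V) (l : List (ℕ × ℕ)) : Set V :=
  {v | ∃ p ∈ l, v ∈ c p.1 p.2}

private theorem UU_append {V : Type} (c : ℕ → ℕ → Set V) (l m : List (ℕ × ℕ)) :
    UU c (l ++ m) = UU c l ∪ UU c m := by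
  ext v
  constructor
  · rintro ⟨p, hp, hv⟩
    rcases List.mem_append.1 hp with hp | hp
    · exact Or.inl ⟨p, hp, hv⟩
    · exact Or.inr ⟨p, hp, hv⟩
  · rintro (⟨p, hp, hv⟩ | ⟨p, hp, hv⟩)
    · exact ⟨p, List.mem_append.2 (Or.inl hp), hv⟩
    · exact ⟨p, List.mem_append.2 (Or.inr hp), hv⟩

private theorem sub_UU {V : Type} (c : ℕ → ℕ → Set V) {l : List (ℕ × ℕ)} {p : ℕ × ℕ}
    (hp : p ∈ l) : c p.1 p.2 ⊆ UU c l := fun _ hv => ⟨p, hp, hv⟩

private theorem stp_touch {V : Type} {S : SimpleGraph V} {c : ℕ → ℕ → Set V}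
    (hr : ∀ x y, x < 3 → y < 4 → Touch S (c x y) (c (x + 1) y))
    (hd : ∀ x y, x < 4 → y < 3 → Touch S (c x y) (c x (y + 1)))
    {p q : ℕ × ℕ} (h : stp p q = true) (hp : p.1 < 4 ∧ p.2 < 4) (hq : q.1 < 4 ∧ q.2 < 4) :
    Touch S (c p.1 p.2) (c q.1 q.2) := by
  obtain ⟨p1, p2⟩ := p
  obtain ⟨q1, q2⟩ := q
  simp only [stp, Bool.or_eq_true, Bool.and_eq_true, beq_iff_eq] at h hp hq ⊢
  rcases h with (⟨h1, h2⟩ | ⟨h1, h2⟩) | (⟨h1, h2⟩ | ⟨h1, h2⟩)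
  · subst h1 h2
    exact hr _ _ (by omega) hp.2
  · subst h1 h2
    exact (hr _ _ (by omega) hp.2).symm
  · subst h1 h2
    exact hd _ _ hp.1 (by omega)
  · subst h1 h2
    exact (hd _ _ hp.1 (by omega)).symm

private theorem conn_chn {V : Type} {S : SimpleGraph V} {c : ℕ → ℕ → Set V}
    (hc : ∀ x y, x < 4 → y < 4 → Conn S (c x y))
    (hr : ∀ x y, x < 3 → y < 4 → Touch S (c x y) (c (x + 1) y))
    (hd : ∀ x y, x < 4 → y < 3 → Touch S (c x y) (c x (y + 1))) :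
    ∀ l : List (ℕ × ℕ), l ≠ [] → chn l = true → (∀ p ∈ l, p.1 < 4 ∧ p.2 < 4) →
      Conn S (UU c l)
  | [], h, _, _ => absurd rfl h
  | [p], _, _, hl => by
    have hp := hl p (by simp)
    have : UU c [p] = c p.1 p.2 := by
      ext v
      constructor
      · rintro ⟨q, hq, hv⟩
        rw [List.mem_singleton] at hq
        rwa [hq] at hv
      · intro hv
        exact ⟨p, by simp, hv⟩
    rw [this]
    exact hc _ _ hp.1 hp.2
  | p :: q :: t, _, hch, hl => by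
    have hp := hl p (by simp)
    have hq := hl q (by simp)
    simp only [chn, Bool.and_eq_true] at hch
    have ih := conn_chn hc hr hd (q :: t) (by simp) hch.2
      (fun r hr' => hl r (List.mem_cons_of_mem _ hr'))
    have hU : UU c (p :: q :: t) = c p.1 p.2 ∪ UU c (q :: t) := by
      ext v
      constructor
      · rintro ⟨r, hr', hv⟩
        rcases List.mem_cons.1 hr' with rfl | hr'
        · exact Or.inl hv
        · exact Or.inr ⟨r, hr', hv⟩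
      · rintro (hv | ⟨r, hr', hv⟩)
        · exact ⟨p, by simp, hv⟩
        · exact ⟨r, List.mem_cons_of_mem _ hr', hv⟩
    rw [hU]
    refine (hc _ _ hp.1 hp.2).union_touch ih ?_
    exact (stp_touch hr hd hch.1 hp hq).mono subset_rfl (sub_UU c (by simp))

private theorem strip_aux {V E : Type} (D : Dig V E) (c : ℕ → ℕ → Set V)
    (hc : ∀ x y, x < 4 → y < 4 → Conn (simp (und D)) (c x y))
    (hdis : ∀ x y x' y', x < 4 → y < 4 → x' < 4 → y' < 4 → (x ≠ x' ∨ y ≠ y') →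
      Disjoint (c x y) (c x' y'))
    (hr : ∀ x y, x < 3 → y < 4 → Touch (simp (und D)) (c x y) (c (x + 1) y))
    (hd : ∀ x y, x < 4 → y < 3 → Touch (simp (und D)) (c x y) (c x (y + 1)))
    (l1 l2 m1 m2 : List (ℕ × ℕ))
    (hl : ∀ p ∈ l1 ++ l2, p.1 < 4 ∧ p.2 < 4) (hm : ∀ p ∈ m1 ++ m2, p.1 < 4 ∧ p.2 < 4)
    (c1 : chn l1 = true) (c2 : chn l2 = true) (c3 : chn m1 = true) (c4 : chn m2 = true)
    (hdj : ∀ p ∈ l1 ++ l2, ∀ q ∈ m1 ++ m2, p ≠ q)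
    (e1 : ∃ y, y < 4 ∧ (0, y) ∈ l1) (e2 : ∃ y, y < 4 ∧ (0, y) ∈ l2)
    (e3 : ∃ y, y < 4 ∧ (3, y) ∈ m1) (e4 : ∃ y, y < 4 ∧ (3, y) ∈ m2)
    (a1 : ∃ e, ∃ p ∈ l1 ++ l2, ∃ q ∈ m1 ++ m2, (D e).1 ∈ c p.1 p.2 ∧ (D e).2 ∈ c q.1 q.2)
    (a2 : ∃ e, ∃ p ∈ l1 ++ l2, ∃ q ∈ m1 ++ m2, (D e).1 ∈ c q.1 q.2 ∧ (D e).2 ∈ c p.1 p.2) :
    ∃ A B : Set V, (∀ v ∈ A ∪ B, ∃ x y, x < 4 ∧ y < 4 ∧ v ∈ c x y) ∧ Disjoint A B ∧
      (∃ e, (D e).1 ∈ A ∧ (D e).2 ∈ B) ∧ (∃ e, (D e).1 ∈ B ∧ (D e).2 ∈ A) ∧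
      (∀ L, Conn (simp (und D)) L → (∀ y, y < 4 → Touch (simp (und D)) L (c 0 y)) →
        Conn (simp (und D)) (L ∪ A)) ∧
      (∀ L, Conn (simp (und D)) L → (∀ y, y < 4 → Touch (simp (und D)) L (c 3 y)) →
        Conn (simp (und D)) (L ∪ B)) := by
  have key : ∀ (x : ℕ) (u w : List (ℕ × ℕ)), (∀ p ∈ u ++ w, p.1 < 4 ∧ p.2 < 4) →
      chn u = true → chn w = true → (∃ y, y < 4 ∧ (x, y) ∈ u) → (∃ y, y < 4 ∧ (x, y) ∈ w) →
      ∀ L, Conn (simp (und D)) L → (∀ y, y < 4 → Touch (simp (und D)) L (c x y)) →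
        Conn (simp (und D)) (L ∪ UU c (u ++ w)) := by
    intro x u w huw hu hw hxu hxw L hL hT
    obtain ⟨y, hy, hyu⟩ := hxu
    obtain ⟨y', hy', hyw⟩ := hxw
    have hcu := conn_chn hc hr hd u (List.ne_nil_of_mem hyu) hu
      (fun p hp => huw p (List.mem_append.2 (Or.inl hp)))
    have hcw := conn_chn hc hr hd w (List.ne_nil_of_mem hyw) hw
      (fun p hp => huw p (List.mem_append.2 (Or.inr hp)))
    rw [UU_append, ← union_assoc]
    refine (hL.union_touch hcu ((hT y hy).mono subset_rfl (sub_UU c hyu))).union_touch hcw ?_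
    exact (hT y' hy').mono subset_union_left (sub_UU c hyw)
  refine ⟨UU c (l1 ++ l2), UU c (m1 ++ m2), ?_, ?_, ?_, ?_, key 0 l1 l2 hl c1 c2 e1 e2,
    key 3 m1 m2 hm c3 c4 e3 e4⟩
  · rintro v (⟨p, hp, hv⟩ | ⟨p, hp, hv⟩)
    · exact ⟨p.1, p.2, (hl p hp).1, (hl p hp).2, hv⟩
    · exact ⟨p.1, p.2, (hm p hp).1, (hm p hp).2, hv⟩
  · rw [Set.disjoint_left]
    rintro v ⟨p, hp, hv⟩ ⟨q, hq, hv'⟩
    have hne := hdj p hp q hq
    have h3 : p.1 ≠ q.1 ∨ p.2 ≠ q.2 := by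
      by_contra h4
      push Not at h4
      exact hne (Prod.ext h4.1 h4.2)
    exact Set.disjoint_left.1 (hdis _ _ _ _ (hl p hp).1 (hl p hp).2 (hm q hq).1 (hm q hq).2 h3)
      hv hv'
  · obtain ⟨e, p, hp, q, hq, h1, h2⟩ := a1
    exact ⟨e, ⟨p, hp, h1⟩, ⟨q, hq, h2⟩⟩
  · obtain ⟨e, p, hp, q, hq, h1, h2⟩ := a2
    exact ⟨e, ⟨q, hq, h1⟩, ⟨p, hp, h2⟩⟩

private def rowL (x y : ℕ) : List (ℕ × ℕ) := (List.range (x + 1)).map (fun z => (z, y))

private def rowR (x y : ℕ) : List (ℕ × ℕ) := (List.range (3 - x)).map (fun z => (x + 1 + z, y))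

private theorem mem_rowL {x y : ℕ} {p : ℕ × ℕ} : p ∈ rowL x y ↔ p.1 ≤ x ∧ p.2 = y := by
  obtain ⟨a, b⟩ := p
  simp only [rowL, List.mem_map, List.mem_range, Prod.mk.injEq]
  constructor
  · rintro ⟨z, hz, rfl, rfl⟩
    exact ⟨by omega, rfl⟩
  · rintro ⟨h1, rfl⟩
    exact ⟨a, by omega, rfl, rfl⟩

private theorem mem_rowR {x y : ℕ} {p : ℕ × ℕ} :
    p ∈ rowR x y ↔ (x < p.1 ∧ p.1 < 4) ∧ p.2 = y := by
  obtain ⟨a, b⟩ := p
  simp only [rowR, List.mem_map, List.mem_range, Prod.mk.injEq]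
  constructor
  · rintro ⟨z, hz, rfl, rfl⟩
    exact ⟨by omega, rfl⟩
  · rintro ⟨h1, rfl⟩
    exact ⟨a - (x + 1), by omega, by omega, rfl⟩

private theorem chn_rowL : ∀ x < 3, ∀ y < 4, chn (rowL x y) = true := by decide

private theorem chn_rowR : ∀ x < 3, ∀ y < 4, chn (rowR x y) = true := by decide

theorem strip {V E : Type} (D : Dig V E) (c : ℕ → ℕ → Set V)
    (hc : ∀ x y, x < 4 → y < 4 → Conn (simp (und D)) (c x y))
    (hdis : ∀ x y x' y', x < 4 → y < 4 → x' < 4 → y' < 4 → (x ≠ x' ∨ y ≠ y') →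
      Disjoint (c x y) (c x' y'))
    (hr : ∀ x y, x < 3 → y < 4 → Touch (simp (und D)) (c x y) (c (x + 1) y))
    (hd : ∀ x y, x < 4 → y < 3 → Touch (simp (und D)) (c x y) (c x (y + 1))) :
    ∃ A B : Set V, (∀ v ∈ A ∪ B, ∃ x y, x < 4 ∧ y < 4 ∧ v ∈ c x y) ∧ Disjoint A B ∧
      (∃ e, (D e).1 ∈ A ∧ (D e).2 ∈ B) ∧ (∃ e, (D e).1 ∈ B ∧ (D e).2 ∈ A) ∧
      (∀ L, Conn (simp (und D)) L → (∀ y, y < 4 → Touch (simp (und D)) L (c 0 y)) →
        Conn (simp (und D)) (L ∪ A)) ∧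
      (∀ L, Conn (simp (und D)) L → (∀ y, y < 4 → Touch (simp (und D)) L (c 3 y)) →
        Conn (simp (und D)) (L ∪ B)) := by
  classical
  have hRL : ∀ x y, x < 3 → y < 4 → (∃ e, (D e).1 ∈ c x y ∧ (D e).2 ∈ c (x + 1) y) ∨
      ∃ e, (D e).1 ∈ c (x + 1) y ∧ (D e).2 ∈ c x y := by
    intro x y hx hy
    obtain ⟨a, ha, b, hb, _, e, he⟩ := hr x y hx hy
    have h4 : s((D e).1, (D e).2) = s(a, b) := he
    rw [Sym2.eq_iff] at h4
    rcases h4 with ⟨h5, h6⟩ | ⟨h5, h6⟩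
    · exact Or.inl ⟨e, h5 ▸ ha, h6 ▸ hb⟩
    · exact Or.inr ⟨e, h5 ▸ hb, h6 ▸ ha⟩
  by_cases H : ∃ x y x' y', x < 3 ∧ y < 4 ∧ x' < 3 ∧ y' < 4 ∧ y ≠ y' ∧
      (∃ e, (D e).1 ∈ c x y ∧ (D e).2 ∈ c (x + 1) y) ∧
      ∃ e, (D e).1 ∈ c (x' + 1) y' ∧ (D e).2 ∈ c x' y'
  · obtain ⟨x, y, x', y', hx, hy, hx', hy', hne, ⟨e, he1, he2⟩, e', he1', he2'⟩ := H
    refine strip_aux D c hc hdis hr hd (rowL x y) (rowL x' y') (rowR x y) (rowR x' y') ?_ ?_
      (chn_rowL x hx y hy) (chn_rowL x' hx' y' hy') (chn_rowR x hx y hy) (chn_rowR x' hx' y' hy')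
      ?_ ⟨y, hy, mem_rowL.2 ⟨Nat.zero_le _, rfl⟩⟩ ⟨y', hy', mem_rowL.2 ⟨Nat.zero_le _, rfl⟩⟩
      ⟨y, hy, mem_rowR.2 ⟨⟨hx, by norm_num⟩, rfl⟩⟩ ⟨y', hy', mem_rowR.2 ⟨⟨hx', by norm_num⟩, rfl⟩⟩
      ?_ ?_
    · intro p hp
      rcases List.mem_append.1 hp with hp | hp <;> rw [mem_rowL] at hp <;> omega
    · intro p hp
      rcases List.mem_append.1 hp with hp | hp <;> rw [mem_rowR] at hp <;> omega
    · intro p hp q hq hpq
      subst hpq
      rcases List.mem_append.1 hp with hp | hp <;> rcases List.mem_append.1 hq with hq | hq <;>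
        rw [mem_rowL] at hp <;> rw [mem_rowR] at hq <;> omega
    · exact ⟨e, (x, y), List.mem_append.2 (Or.inl (mem_rowL.2 ⟨le_rfl, rfl⟩)), (x + 1, y),
        List.mem_append.2 (Or.inl (mem_rowR.2 ⟨⟨Nat.lt_succ_self x, by omega⟩, rfl⟩)), he1, he2⟩
    · exact ⟨e', (x', y'), List.mem_append.2 (Or.inr (mem_rowL.2 ⟨le_rfl, rfl⟩)), (x' + 1, y'),
        List.mem_append.2 (Or.inr (mem_rowR.2 ⟨⟨Nat.lt_succ_self x', by omega⟩, rfl⟩)),
        he1', he2'⟩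
  · have H' : ∀ x y x' y', x < 3 → y < 4 → x' < 3 → y' < 4 → y ≠ y' →
        (∃ e, (D e).1 ∈ c x y ∧ (D e).2 ∈ c (x + 1) y) →
        (∃ e, (D e).1 ∈ c (x' + 1) y' ∧ (D e).2 ∈ c x' y') → False :=
      fun x y x' y' h1 h2 h3 h4 h5 h6 h7 => H ⟨x, y, x', y', h1, h2, h3, h4, h5, h6, h7⟩
    have hfin : ((∃ e, (D e).1 ∈ c 0 3 ∧ (D e).2 ∈ c 1 3) ∧
        ∃ e, (D e).1 ∈ c 1 1 ∧ (D e).2 ∈ c 2 1) ∨
        ((∃ e, (D e).1 ∈ c 1 3 ∧ (D e).2 ∈ c 0 3) ∧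
        ∃ e, (D e).1 ∈ c 2 1 ∧ (D e).2 ∈ c 1 1) := by
      rcases hRL 0 3 (by norm_num) (by norm_num) with h1 | h1
      · rcases hRL 1 1 (by norm_num) (by norm_num) with h2 | h2
        · exact Or.inl ⟨h1, h2⟩
        · exact (H' 0 3 1 1 (by norm_num) (by norm_num) (by norm_num) (by norm_num)
            (by norm_num) h1 h2).elim
      · rcases hRL 1 1 (by norm_num) (by norm_num) with h2 | h2
        · exact (H' 1 1 0 3 (by norm_num) (by norm_num) (by norm_num) (by norm_num)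
            (by norm_num) h2 h1).elim
        · exact Or.inr ⟨h1, h2⟩
    refine strip_aux D c hc hdis hr hd [(0, 3)] [(0, 0), (1, 0), (2, 0), (3, 0), (3, 1), (2, 1)]
      [(1, 3), (2, 3), (3, 3)] [(1, 1), (0, 1), (0, 2), (1, 2), (2, 2), (3, 2)]
      (by decide) (by decide) (by decide) (by decide) (by decide) (by decide) (by decide)
      ⟨3, by decide, by decide⟩ ⟨0, by decide, by decide⟩ ⟨3, by decide, by decide⟩
      ⟨2, by decide, by decide⟩ ?_ ?_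
    · rcases hfin with ⟨⟨e, h1, h2⟩, _⟩ | ⟨_, e, h1, h2⟩
      · exact ⟨e, (0, 3), by decide, (1, 3), by decide, h1, h2⟩
      · exact ⟨e, (2, 1), by decide, (1, 1), by decide, h1, h2⟩
    · rcases hfin with ⟨_, e, h1, h2⟩ | ⟨⟨e, h1, h2⟩, _⟩
      · exact ⟨e, (2, 1), by decide, (1, 1), by decide, h1, h2⟩
      · exact ⟨e, (0, 3), by decide, (1, 3), by decide, h1, h2⟩

end Pool.Agent.Lib.MP_210493_lc
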