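import Pool.Agent.Lib.MP_210493_lc.DG.Repeat
import Pool.Agent.Lib.MP_210493_lc.DG.PatCard
import Pool.Agent.Lib.MP_210493_lc.DG.Ctx
import Pool.Agent.Lib.MP_210493_lc.DG.Chain
import Pool.Agent.Lib.MP_210493_lc.DG.Run
import Pool.Agent.Lib.MP_210493_lc.DG.LinkR

/-! Module DG-Verts.  Excluded minors of bounded width have boundedly many vertices.

PROOF.  Suppose `Nat.card V ≥ 3 κ 2^L`, `L = (K+1)^(3κ+1)`, `K = clsB (3κ) n`.  `exists_chain`
gives a chain of length `L` with boundaries `≤ 3κ`, `exists_run` (with `m = 3κ`,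
`(K+1)^(3κ+1) ≤ L + 1`) gives `m ≤ 3κ` and `Y i` (`i ≤ K`), `Y i ⊂ Y (i+1)`, consecutive ones
linked with `m`.  `K ≥ 1` (a power of 2), so `(bd S (Y 0)).ncard = m`; choose
`ρ 0 : Fin m → Y 0` injective with range `bd (Y 0)` (`Finite.equivFin` on the set `bd ..`), and by
`linked_rooted` recursively `ρ i : Fin m → Y i` for `i ≤ K`, injective with range `bd (Y i)`, and
`RGMinor (restr G (Y i)) (ρ i) (restr G (Y (i+1))) (ρ (i+1))` for `i < K`; so for `i < j ≤ K`
`RGMinor (restr G (Y i)) (ρ i) (restr G (Y j)) (ρ j)` (`RGMinor.trans`).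
Pigeonhole (`card_cls m (3κ) n`): the `K + 1` classes
`cls (m+n) (n+m*m) (restr G (Y i)) (ρ i)`, `i ≤ K`, take at most `K` values, so two of them, for
`i < j ≤ K`, are equal.  Let `C, f, g` be the context of `Y j` (`exists_ctx`).  The graph
`G' = glueG (restr G (Y i)) (ρ i) C` is a minor of `glueG (restr G (Y j)) (ρ j) C`
(`glueG_mono`), which is isomorphic to `G` (`isModel_of_equiv` with `f`, `g`: in direction
`GMinor (glueG ..) G` use `f.symm` and `g.symm`), and it has fewer vertices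
(`Y i ⊂ Y j`, `Set.ncard_lt_ncard`) and not more edges (the edges inside `Y i` are inside
`Y j`).  So `InClass A G'`, by `inClass_of_cls` `InClass A (glueG (restr G (Y j)) (ρ j) C)`, and by
`InClass.of_equiv` `InClass A G`: contradiction to `Excluded A G`. -/

namespace Pool.Agent.Lib.MP_210493_lc

open Set Pool.Agent.Lib.MP_4d119b_lc

/-- the bound for the number of vertices -/
def vertB (κ n : ℕ) : ℕ := 3 * κ * 2 ^ ((clsB (3 * κ) n + 1) ^ (3 * κ + 1))

section
variable {V E : Type} {G : Gra V E} {m : ℕ}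

/-- `r` lists the boundary of `Y` -/
private def VGood (G : Gra V E) (Y : Set V) (r : Fin m → V) : Prop :=
  Function.Injective r ∧ range r = bd (simp G) Y

private theorem VGood.mem {Y : Set V} {r : Fin m → V} (h : VGood G Y r) (a : Fin m) : r a ∈ Y := by
  have h1 : r a ∈ bd (simp G) Y := by
    rw [← h.2]
    exact mem_range_self a
  exact h1.1

/-- the roots as elements of `Y` -/
private def vR {Y : Set V} {r : Fin m → V} (h : VGood G Y r) : Fin m → Y := fun a => ⟨r a, h.mem a⟩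

private theorem verts_zero [Finite V] {Y : Set V} (h : (bd (simp G) Y).ncard = m) :
    ∃ r : Fin m → V, VGood G Y r := by
  have h1 : Nat.card (bd (simp G) Y) = m := by
    rw [Nat.card_coe_set_eq]
    exact h
  let e := Finite.equivFinOfCardEq h1
  refine ⟨fun a => (e.symm a : V), ?_, ?_⟩
  · intro a b hab
    exact e.symm.injective (Subtype.ext hab)
  · ext v
    constructor
    · rintro ⟨a, rfl⟩
      exact (e.symm a).2
    · intro hv
      exact ⟨e ⟨v, hv⟩, by simp⟩

private theorem verts_step [Finite V] {X Y : Set V} (hXY : X ⊆ Y) (h : Linked (simp G) X Y m)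
    {r : Fin m → V} (hr : VGood G X r) :
    ∃ (s : Fin m → V) (hs : VGood G Y s), RGMinor (restr G X) (vR hr) (restr G Y) (vR hs) := by
  obtain ⟨σ, h1, h2, h3⟩ := linked_rooted G hXY h (vR hr)
    (fun a b hab => hr.1 (congrArg Subtype.val hab)) hr.2
  refine ⟨fun a => (σ a : V), ⟨fun a b hab => h1 (Subtype.ext hab), h2⟩, ?_⟩
  exact h3

private theorem verts_seq [Finite V] {K : ℕ} {Y : ℕ → Set V} (hY : ∀ i < K, Y i ⊂ Y (i + 1))
    (hL : ∀ i < K, Linked (simp G) (Y i) (Y (i + 1)) m) (hK : 1 ≤ K) : ∀ j ≤ K,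
    ∃ r : ℕ → Fin m → V, (∀ i ≤ j, VGood G (Y i) (r i)) ∧
      ∀ i < j, ∀ (h : VGood G (Y i) (r i)) (h' : VGood G (Y (i + 1)) (r (i + 1))),
        RGMinor (restr G (Y i)) (vR h) (restr G (Y (i + 1))) (vR h') := by
  intro j
  induction j with
  | zero =>
    intro _
    obtain ⟨r, hr⟩ := verts_zero (hL 0 hK).cX
    refine ⟨fun _ => r, ?_, ?_⟩
    · intro i hi
      rw [Nat.le_zero.1 hi]
      exact hr
    · intro i hi
      exact absurd hi (Nat.not_lt_zero i)
  | succ j ih =>
    intro hj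
    obtain ⟨r, h1, h2⟩ := ih (by omega)
    obtain ⟨s, hs, h3⟩ := verts_step (hY j (by omega)).subset (hL j (by omega)) (h1 j le_rfl)
    have e1 : ∀ i ≤ j, (if i ≤ j then r i else s) = r i := fun i hi => if_pos hi
    have e2 : (if j + 1 ≤ j then r (j + 1) else s) = s := if_neg (by omega)
    refine ⟨fun i => if i ≤ j then r i else s, ?_, ?_⟩
    · intro i hi
      beta_reduce
      rcases Nat.lt_or_ge j i with h | h
      · have hij : i = j + 1 := by omega
        subst hij
        rw [e2]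
        exact hs
      · rw [e1 i h]
        exact h1 i h
    · intro i hi
      beta_reduce
      rcases Nat.lt_or_ge i j with h | h
      · rw [e1 i (by omega), e1 (i + 1) (by omega)]
        exact h2 i h
      · have hij : i = j := by omega
        subst hij
        rw [e1 i le_rfl, e2]
        intro _ _
        exact h3

private theorem verts_trans {K : ℕ} {Y : ℕ → Set V} {r : ℕ → Fin m → V}
    (h1 : ∀ i ≤ K, VGood G (Y i) (r i))
    (h2 : ∀ i < K, ∀ (h : VGood G (Y i) (r i)) (h' : VGood G (Y (i + 1)) (r (i + 1))),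
      RGMinor (restr G (Y i)) (vR h) (restr G (Y (i + 1))) (vR h')) (i : ℕ) : ∀ j ≤ K, i < j →
    ∀ (h : VGood G (Y i) (r i)) (h' : VGood G (Y j) (r j)),
      RGMinor (restr G (Y i)) (vR h) (restr G (Y j)) (vR h') := by
  intro j
  induction j with
  | zero =>
    intro _ hij
    exact absurd hij (Nat.not_lt_zero i)
  | succ j ih =>
    intro hj hij h h'
    rcases Nat.lt_or_ge i j with h3 | h3
    · have hj' := h1 j (by omega)
      exact (ih (by omega) h3 h hj').trans (h2 j (by omega) hj' h')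
    · have h4 : i = j := by omega
      subst h4
      exact h2 i (by omega) h h'

private theorem verts_mono {K : ℕ} {Y : ℕ → Set V} (hY : ∀ i < K, Y i ⊂ Y (i + 1)) (i : ℕ) :
    ∀ j ≤ K, i < j → Y i ⊂ Y j := by
  intro j
  induction j with
  | zero =>
    intro _ hij
    exact absurd hij (Nat.not_lt_zero i)
  | succ j ih =>
    intro hj hij
    rcases Nat.lt_or_ge i j with h3 | h3
    · exact (ih (by omega) h3).trans (hY j (by omega))
    · have h4 : i = j := by omega
      subst h4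
      exact hY i (by omega)

private theorem verts_glue {f : Type} {X : Set V} {ρ : Fin m → X}
    {C : Gra (Fin m ⊕ {v : V // v ∉ X}) f} {E₁ : Type} {G₁ : Gra X E₁}
    (φ : X ⊕ {v : V // v ∉ X} ≃ V) (g : E ≃ E₁ ⊕ f)
    (h : ∀ e, Sym2.map φ (glueG G₁ ρ C (g e)) = G e) : GMinor (glueG G₁ ρ C) G := by
  refine ⟨_, _, isModel_of_equiv G (glueG G₁ ρ C) φ.symm g.symm ?_⟩
  intro e
  have h1 := h (g.symm e)
  rw [Equiv.apply_symm_apply] at h1
  rw [← h1, Sym2.map_map]
  have h2 : (φ.symm : V → _) ∘ φ = id := by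
    funext x
    simp
  rw [h2, Sym2.map_id]
  rfl

/-- two sets of the run with the same class: the graph is in the class -/
private theorem verts_final [Finite V] [Finite E] {A : Set Code} {n : ℕ}
    (hA : ∀ H ∈ A, H.size ≤ n) (hG : Excluded A G) {X Y : Set V} (hXY : X ⊂ Y)
    {r s : Fin m → V} (hr : VGood G X r) (hs : VGood G Y s)
    (hm : RGMinor (restr G X) (vR hr) (restr G Y) (vR hs))
    (hc : cls (m + n) (n + m * m) (restr G X) (vR hr) =
      cls (m + n) (n + m * m) (restr G Y) (vR hs)) : False := by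
  have hb : ∀ v ∈ bd (simp G) Y, ∃ a, (vR hs a : V) = v := by
    intro v hv
    rw [← hs.2] at hv
    obtain ⟨a, ha⟩ := hv
    exact ⟨a, ha⟩
  obtain ⟨C, f, g, hfg⟩ := exists_ctx G Y (vR hs) hb
  have h1 : GMinor (glueG (restr G X) (vR hr) C) G :=
    (glueG_mono hm C).trans (verts_glue f g hfg)
  have hV : Nat.card V = Nat.card Y + Nat.card {v : V // v ∉ Y} := by
    rw [← Nat.card_congr f, Nat.card_sum]
  have hE : Nat.card E = Nat.card {e : E // ∀ v ∈ G e, v ∈ Y} +
      Nat.card {e : E // ¬ ∀ v ∈ G e, v ∈ Y} := by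
    rw [Nat.card_congr g, Nat.card_sum]
  have hX : Nat.card X < Nat.card Y := by
    rw [Nat.card_coe_set_eq, Nat.card_coe_set_eq]
    exact Set.ncard_lt_ncard hXY (Set.toFinite Y)
  have hE' : Nat.card {e : E // ∀ v ∈ G e, v ∈ X} ≤ Nat.card {e : E // ∀ v ∈ G e, v ∈ Y} := by
    refine Nat.card_le_card_of_injective
      (fun e => (⟨e.1, fun v hv => hXY.subset (e.2 v hv)⟩ : {e : E // ∀ v ∈ G e, v ∈ Y})) ?_
    intro a b hab
    exact Subtype.ext
      (congrArg (fun z : {e : E // ∀ v ∈ G e, v ∈ Y} => (z : E)) hab)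
  have hlt : Nat.card (X ⊕ {v : V // v ∉ Y}) +
      Nat.card ({e : E // ∀ v ∈ G e, v ∈ X} ⊕ {e : E // ¬ ∀ v ∈ G e, v ∈ Y}) <
      Nat.card V + Nat.card E := by
    rw [Nat.card_sum, Nat.card_sum, hV, hE]
    omega
  have h2 := hG.2 _ _ (glueG (restr G X) (vR hr) C) h1 hlt
  have h3 := inClass_of_cls hA C hc h2
  exact hG.1 (h3.of_equiv f g hfg)

end

theorem card_verts_lt {V E : Type} [Finite V] [Finite E] {A : Set Code} {n κ : ℕ}
    (hA : ∀ H ∈ A, H.size ≤ n) {G : Gra V E} (hG : Excluded A G) (hκ : 1 ≤ κ)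
    (hw : ¬ Wide (simp G) κ) : Nat.card V < vertB κ n := by
  by_contra hcon
  rw [not_lt] at hcon
  obtain ⟨X, hX1, hX2⟩ := exists_chain (simp G) κ ((clsB (3 * κ) n + 1) ^ (3 * κ + 1)) hκ hw hcon
  obtain ⟨m, hm, Y, hY1, hY2⟩ := exists_run (simp G) (clsB (3 * κ) n) (3 * κ)
    ((clsB (3 * κ) n + 1) ^ (3 * κ + 1)) X (Nat.le_succ _) hX1 hX2
  have hK : 1 ≤ clsB (3 * κ) n := Nat.one_le_two_pow
  obtain ⟨r, hr1, hr2⟩ := verts_seq hY1 hY2 hK (clsB (3 * κ) n) le_rfl
  have hcard := card_cls m (3 * κ) n hm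
  have hne : ¬ Function.Injective (fun i : Fin (clsB (3 * κ) n + 1) =>
      cls (m + n) (n + m * m) (restr G (Y i)) (vR (hr1 i (Nat.lt_succ_iff.1 i.2)))) := by
    intro hinj
    have h1 := Nat.card_le_card_of_injective _ hinj
    rw [Nat.card_eq_fintype_card, Fintype.card_fin] at h1
    omega
  unfold Function.Injective at hne
  push Not at hne
  obtain ⟨i, j, hij, hne'⟩ := hne
  have key : ∀ i j : Fin (clsB (3 * κ) n + 1), i < j →
      cls (m + n) (n + m * m) (restr G (Y i)) (vR (hr1 i (Nat.lt_succ_iff.1 i.2))) =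
        cls (m + n) (n + m * m) (restr G (Y j)) (vR (hr1 j (Nat.lt_succ_iff.1 j.2))) → False := by
    intro i j hlt hc
    refine verts_final hA hG (verts_mono hY1 i j (Nat.lt_succ_iff.1 j.2) hlt) _ _ ?_ hc
    exact verts_trans hr1 hr2 i j (Nat.lt_succ_iff.1 j.2) hlt _ _
  rcases lt_or_gt_of_ne hne' with h | h
  · exact key i j h hij
  · exact key j i h hij.symm

end Pool.Agent.Lib.MP_210493_lc
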